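import Pool.Agent.helper97.WR.Pre

/-!
# WR-D01: numerics of the amplitudes and frequencies

author: helper7

`a_k = 2^(-k³)`, `N_k = 2^(k²)`.

* `num_tail`: for `K ≤ k`: `a_k N_k^e 2^(lk) 2^k ≤ D a_K N_K^(e+1)`.  Exponents of `2`: with
  `h(k) = -k³ + (e+1)k²` the exponent of the left side is `h(k) - k² + (l+1)k ≤ h(k) + (l+1)²`, and
  `h(k) - h(K) = -(k-K) (k² + kK + K² - (e+1)(k+K))`; if `k ≥ 2|e+1|` the bracket is `≥ 0`
  (`(e+1)(k+K) ≤ |e+1| 2k ≤ k²`), otherwise `k, K ≤ 2|e+1|` and `|h(k) - h(K)|` is bounded by a constant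
  depending only on `e`.
* the others: compare the exponents, `(K+2)³ - (K+1)³ = 3K²+9K+7 ≤ 7(K+1)²`, `(K+2)² ≤ 4(K+1)²`,
  `(K+3)³ - (K+2)³ ≥ 2`, `K ≤ K²`.
-/

noncomputable section

namespace WR

open Set Filter Topology
open scoped ContDiff

theorem aa_pos (k : ℕ) : 0 < aa k := by unfold aa; positivity

theorem nn_pos (k : ℕ) : 0 < nn k := by unfold nn; positivity

theorem one_le_nn (k : ℕ) : 1 ≤ nn k := by unfold nn; exact one_le_pow₀ (by norm_num)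

theorem aa_eq (k : ℕ) : aa k = (2 : ℝ) ^ (-((k : ℤ) ^ 3)) := by
  unfold aa
  rw [zpow_neg, one_div, inv_pow]
  congr 1

theorem nn_eq (k : ℕ) : nn k = (2 : ℝ) ^ ((k : ℤ) ^ 2) := by
  unfold nn
  rw [← Nat.cast_pow, zpow_natCast]

theorem num_exp (e : ℤ) (l K k : ℤ) (h0 : 0 ≤ K) (h : K ≤ k) :
    -k ^ 3 + e * k ^ 2 + l * k + k ≤
      (8 * |e + 1| ^ 3 + (l + 1) ^ 2) + (-K ^ 3 + (e + 1) * K ^ 2) := by
  have hk : 0 ≤ k := h0.trans h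
  have h1 : (l + 1) * k - k ^ 2 ≤ (l + 1) ^ 2 := by
    nlinarith [sq_nonneg (2 * k - (l + 1)), sq_nonneg (l + 1)]
  obtain ⟨m, hm⟩ : ∃ m : ℤ, m = |e + 1| := ⟨_, rfl⟩
  have hm0 : 0 ≤ m := hm ▸ abs_nonneg _
  have hem : e + 1 ≤ m := hm ▸ le_abs_self _
  rw [← hm]
  have h2 : (-k ^ 3 + (e + 1) * k ^ 2) - (-K ^ 3 + (e + 1) * K ^ 2) ≤ 8 * m ^ 3 := by
    have e1 : (-k ^ 3 + (e + 1) * k ^ 2) - (-K ^ 3 + (e + 1) * K ^ 2)
        = (k - K) * ((e + 1) * (k + K) - (k ^ 2 + k * K + K ^ 2)) := by ring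
    rw [e1]
    have hkK : 0 ≤ k - K := by linarith
    have a1 : (e + 1) * (k + K) ≤ m * (k + K) := by
      apply mul_le_mul_of_nonneg_right hem; linarith
    have a2 : m * (k + K) ≤ m * (2 * k) := by
      apply mul_le_mul_of_nonneg_left _ hm0; linarith
    have a3 : 0 ≤ k * K := mul_nonneg hk h0
    have m3 : 0 ≤ m ^ 3 := by positivity
    by_cases hc : 2 * m ≤ k
    · have a4 : (2 * m) * k ≤ k * k := mul_le_mul_of_nonneg_right hc hk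
      have a5 : (e + 1) * (k + K) - (k ^ 2 + k * K + K ^ 2) ≤ 0 := by nlinarith [sq_nonneg K]
      have a6 : (k - K) * ((e + 1) * (k + K) - (k ^ 2 + k * K + K ^ 2)) ≤ 0 :=
        mul_nonpos_of_nonneg_of_nonpos hkK a5
      linarith
    · push Not at hc
      have a5 : (e + 1) * (k + K) - (k ^ 2 + k * K + K ^ 2) ≤ m * (2 * k) := by
        nlinarith [sq_nonneg K, sq_nonneg k]
      have a6 : (k - K) * ((e + 1) * (k + K) - (k ^ 2 + k * K + K ^ 2)) ≤ k * (m * (2 * k)) := by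
        calc (k - K) * ((e + 1) * (k + K) - (k ^ 2 + k * K + K ^ 2))
            ≤ (k - K) * (m * (2 * k)) := mul_le_mul_of_nonneg_left a5 hkK
          _ ≤ k * (m * (2 * k)) := by
            apply mul_le_mul_of_nonneg_right (by linarith)
            positivity
      have a7 : k * k ≤ (2 * m) * (2 * m) := mul_le_mul hc.le hc.le hk (by linarith)
      have a8 : m * (k * k) ≤ m * ((2 * m) * (2 * m)) := mul_le_mul_of_nonneg_left a7 hm0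
      nlinarith
  nlinarith

theorem num_tail (e : ℤ) (l : ℕ) : ∃ D : ℝ, 0 < D ∧ ∀ K k : ℕ, K ≤ k →
    aa k * nn k ^ e * 2 ^ (l * k) * 2 ^ k ≤ D * (aa K * nn K ^ (e + 1)) := by
  refine ⟨(2 : ℝ) ^ (8 * |e + 1| ^ 3 + ((l : ℤ) + 1) ^ 2), by positivity, ?_⟩
  intro K k hKk
  have h2 : (2 : ℝ) ≠ 0 := two_ne_zero
  have e1 : aa k * nn k ^ e * 2 ^ (l * k) * 2 ^ k
      = (2 : ℝ) ^ (-(k : ℤ) ^ 3 + e * (k : ℤ) ^ 2 + l * k + k) := by
    rw [aa_eq, nn_eq, ← zpow_mul, ← zpow_natCast, ← zpow_natCast (2 : ℝ) k, ← zpow_add₀ h2,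
      ← zpow_add₀ h2, ← zpow_add₀ h2]
    congr 1
    push_cast
    ring
  have e2 : (2 : ℝ) ^ (8 * |e + 1| ^ 3 + ((l : ℤ) + 1) ^ 2) * (aa K * nn K ^ (e + 1))
      = (2 : ℝ) ^ ((8 * |e + 1| ^ 3 + ((l : ℤ) + 1) ^ 2) + (-(K : ℤ) ^ 3 + (e + 1) * (K : ℤ) ^ 2)) := by
    rw [aa_eq, nn_eq, ← zpow_mul, ← zpow_add₀ h2, ← zpow_add₀ h2]
    congr 1
    ring
  rw [e1, e2]
  apply zpow_le_zpow_right₀ (by norm_num)
  exact num_exp e l K k (by positivity) (by exact_mod_cast hKk)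

theorem aa_ratio (K : ℕ) : aa (K + 1) ≤ aa (K + 2) * nn (K + 1) ^ (7 : ℕ) := by
  have h2 : (2 : ℝ) ≠ 0 := two_ne_zero
  rw [aa_eq, aa_eq, nn_eq, ← zpow_natCast, ← zpow_mul, ← zpow_add₀ h2]
  apply zpow_le_zpow_right₀ (by norm_num)
  have hK : (0 : ℤ) ≤ K := by positivity
  push_cast
  nlinarith

theorem nn_ratio (K : ℕ) : nn (K + 2) ≤ nn (K + 1) ^ (4 : ℕ) := by
  rw [nn_eq, nn_eq, ← zpow_natCast, ← zpow_mul]
  apply zpow_le_zpow_right₀ (by norm_num)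
  have hK : (0 : ℤ) ≤ K := by positivity
  push_cast
  nlinarith

theorem aa_small (K : ℕ) : aa (K + 1) ≤ aa K / 2 := by
  have h2 : (2 : ℝ) ≠ 0 := two_ne_zero
  have e : aa K / 2 = (2 : ℝ) ^ (-(K : ℤ) ^ 3 - 1) := by
    rw [aa_eq, zpow_sub₀ h2, zpow_one]
  rw [e, aa_eq]
  apply zpow_le_zpow_right₀ (by norm_num)
  have hK : (0 : ℤ) ≤ K := by positivity
  push_cast
  nlinarith [mul_nonneg hK hK]

theorem aa_small' (K : ℕ) : aa (K + 3) ≤ aa (K + 2) / 4 := by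
  have h1 := aa_small (K + 2)
  have e : K + 2 + 1 = K + 3 := rfl
  rw [e] at h1
  have h2 : (2 : ℝ) ≠ 0 := two_ne_zero
  have e : aa (K + 2) / 4 = (2 : ℝ) ^ (-((K : ℤ) + 2) ^ 3 - 2) := by
    rw [aa_eq, zpow_sub₀ h2]
    push_cast
    norm_num
  rw [e, aa_eq]
  apply zpow_le_zpow_right₀ (by norm_num)
  have hK : (0 : ℤ) ≤ K := by positivity
  push_cast
  nlinarith [mul_nonneg hK hK]

theorem two_pow_le_nn (K : ℕ) : (2 : ℝ) ^ K ≤ nn K := by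
  unfold nn
  apply pow_le_pow_right₀ (by norm_num)
  rcases Nat.eq_zero_or_pos K with h | h
  · simp [h]
  · nlinarith

/-- `N_K` grows faster than `2^K` -/
theorem nn_large (D : ℝ) : ∃ K₀ : ℕ, ∀ K, K₀ ≤ K → D * 2 ^ K ≤ nn (K + 2) := by
  obtain ⟨K₀, hK₀⟩ := pow_unbounded_of_one_lt D (one_lt_two : (1 : ℝ) < 2)
  refine ⟨K₀, fun K hK => ?_⟩
  have h1 : D ≤ (2 : ℝ) ^ K := hK₀.le.trans (pow_le_pow_right₀ (by norm_num) hK)
  have h2 : (2 : ℝ) ^ K * 2 ^ K ≤ nn (K + 2) := by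
    unfold nn
    rw [← pow_add]
    apply pow_le_pow_right₀ (by norm_num)
    nlinarith
  calc D * 2 ^ K ≤ (2 : ℝ) ^ K * 2 ^ K := mul_le_mul_of_nonneg_right h1 (by positivity)
    _ ≤ nn (K + 2) := h2

end WR
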