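import Pool.Agent.helper97.WR.D01

/-!
# WR-D02: the series `osc`: convergence and smoothness

author: helper63

Let `g` be good (`Gd`): smooth, `0` outside `(1, 4)`; then `g` and all its derivatives are bounded
and `deriv g` is good again (at `x = 1`: `g` is differentiable and constant on `(-∞, 1]`).

* `osc_zero`: for `s ≤ 0` all arguments `2^k s ≤ 0`, all terms vanish.
* summability: `|oscT g m l k s p| ≤ sup|g| a_k N_k^(-m) 2^(lk) ≤ sup|g| D a_0 N_0^(1-m) 2^(-k)` by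
  `num_tail` with `K = 0`.
* `osc_hasFDerivAt`: `hasFDerivAt_tsum` (or `hasFDerivAt_tsum_of_isPreconnected`); the derivative of the
  term is `oscT (deriv g) m (l+1) k • fst + oscT g (m-1) l k • snd` because
  `d/ds g(2^k s) = 2^k g'(2^k s)` and
  `d/dp N^(-m) cos(N p - m π/2) = -N^(1-m) sin(N p - m π/2) = N^(-(m-1)) cos(N p - (m-1) π/2)`.
* `osc_contDiff`: `ContDiff ℝ n` by induction on `n : ℕ` for all good `g`, `m`, `l`, with
  `contDiff_succ_iff_hasFDerivAt` (or `contDiff_succ_iff_fderiv`).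
-/

noncomputable section

namespace WR

open Set Filter Topology
open scoped ContDiff

theorem Gd.deriv {g : ℝ → ℝ} (hg : Gd g) : Gd (deriv g) := by
  have hs : ContDiff ℝ ∞ (_root_.deriv g) := (contDiff_infty_iff_deriv.1 hg.smooth).2
  have hcl : IsClosed {x | _root_.deriv g x = 0} := isClosed_eq hs.continuous continuous_const
  refine ⟨hs, ?_, ?_⟩
  · intro x hx
    have hsub : Iio (1 : ℝ) ⊆ {x | _root_.deriv g x = 0} := by
      intro y hy
      have h1 : g =ᶠ[𝓝 y] fun _ => 0 := by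
        filter_upwards [Iio_mem_nhds hy] with z hz
        exact hg.low z (le_of_lt hz)
      have h2 := h1.deriv_eq
      simpa using h2
    have h3 := closure_minimal hsub hcl
    rw [closure_Iio] at h3
    exact h3 hx
  · intro x hx
    have hsub : Ioi (4 : ℝ) ⊆ {x | _root_.deriv g x = 0} := by
      intro y hy
      have h1 : g =ᶠ[𝓝 y] fun _ => 0 := by
        filter_upwards [Ioi_mem_nhds hy] with z hz
        exact hg.high z (le_of_lt hz)
      have h2 := h1.deriv_eq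
      simpa using h2
    have h3 := closure_minimal hsub hcl
    rw [closure_Ioi] at h3
    exact h3 hx

theorem Gd.bound {g : ℝ → ℝ} (hg : Gd g) : ∃ C : ℝ, 0 < C ∧ ∀ x, |g x| ≤ C := by
  obtain ⟨C, hC⟩ := isCompact_Icc.exists_bound_of_continuousOn
    (s := Icc (1 : ℝ) 4) hg.smooth.continuous.continuousOn
  refine ⟨max C 1, lt_max_of_lt_right one_pos, fun x => ?_⟩
  by_cases h1 : x ≤ 1
  · rw [hg.low x h1, abs_zero]
    exact (zero_le_one).trans (le_max_right _ _)
  by_cases h4 : 4 ≤ x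
  · rw [hg.high x h4, abs_zero]
    exact (zero_le_one).trans (le_max_right _ _)
  · push Not at h1 h4
    exact (hC x ⟨h1.le, h4.le⟩).trans (le_max_left _ _)

theorem oscT_bound {g : ℝ → ℝ} (hg : Gd g) (m : ℤ) (l : ℕ) :
    ∃ D : ℝ, 0 < D ∧ ∀ k s p, |oscT g m l k s p| ≤ D * (1 / 2) ^ k := by
  obtain ⟨C, hC0, hC⟩ := hg.bound
  obtain ⟨D, hD0, hD⟩ := num_tail (-m) l
  refine ⟨D * C, by positivity, fun k s p => ?_⟩
  have ha := aa_pos k
  have hn := nn_pos k
  have h1 : aa k * nn k ^ (-m) * 2 ^ (l * k) ≤ D * (1 / 2) ^ k := by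
    have h2 := hD 0 k (Nat.zero_le k)
    have h3 : aa 0 * nn 0 ^ (-m + 1) = 1 := by simp [aa, nn]
    rw [h3, mul_one] at h2
    rw [one_div, inv_pow, ← div_eq_mul_inv, le_div_iff₀ (by positivity)]
    exact h2
  have h0 : 0 ≤ aa k * nn k ^ (-m) * 2 ^ (l * k) := by positivity
  have h4 : |g (2 ^ k * s) * Real.cos (nn k * p - m * (Real.pi / 2))| ≤ C := by
    rw [abs_mul]
    calc |g (2 ^ k * s)| * |Real.cos (nn k * p - m * (Real.pi / 2))| ≤ C * 1 :=
          mul_le_mul (hC _) (Real.abs_cos_le_one _) (abs_nonneg _) hC0.le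
      _ = C := mul_one C
  calc |oscT g m l k s p| = (aa k * nn k ^ (-m) * 2 ^ (l * k)) *
        |g (2 ^ k * s) * Real.cos (nn k * p - m * (Real.pi / 2))| := by
        rw [oscT, abs_mul, abs_of_nonneg h0]
    _ ≤ (D * (1 / 2) ^ k) * C := mul_le_mul h1 h4 (abs_nonneg _) (by positivity)
    _ = D * C * (1 / 2) ^ k := by ring

theorem summable_half_pow (D : ℝ) : Summable fun k : ℕ => D * (1 / 2 : ℝ) ^ k :=
  (summable_geometric_of_lt_one (by norm_num) (by norm_num)).mul_left D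

theorem osc_summable {g : ℝ → ℝ} (hg : Gd g) (m : ℤ) (l : ℕ) (s p : ℝ) :
    Summable fun k => oscT g m l k s p := by
  obtain ⟨D, _, hD⟩ := oscT_bound hg m l
  refine Summable.of_norm_bounded (summable_half_pow D) fun k => ?_
  rw [Real.norm_eq_abs]
  exact hD k s p

theorem osc_zero {g : ℝ → ℝ} (hg : Gd g) (m : ℤ) (l : ℕ) {s : ℝ} (hs : s ≤ 0) (p : ℝ) :
    osc g m l s p = 0 := by
  rw [osc]
  refine (tsum_congr fun k => ?_).trans tsum_zero
  have h : (2 : ℝ) ^ k * s ≤ 1 := by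
    have := mul_nonpos_of_nonneg_of_nonpos (by positivity : (0 : ℝ) ≤ 2 ^ k) hs
    linarith
  rw [oscT, hg.low _ h]
  ring

theorem oscT_hasFDerivAt {g : ℝ → ℝ} (hg : Gd g) (m : ℤ) (l k : ℕ) (q : ℝ × ℝ) :
    HasFDerivAt (fun q : ℝ × ℝ => oscT g m l k q.1 q.2)
      (oscT (deriv g) m (l + 1) k q.1 q.2 • ContinuousLinearMap.fst ℝ ℝ ℝ +
        oscT g (m - 1) l k q.1 q.2 • ContinuousLinearMap.snd ℝ ℝ ℝ) q := by
  have hn := nn_pos k
  have h1 : HasFDerivAt (fun q : ℝ × ℝ => g (2 ^ k * q.1))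
      ((deriv g (2 ^ k * q.1) * 2 ^ k) • ContinuousLinearMap.fst ℝ ℝ ℝ) q := by
    have hd : HasDerivAt g (deriv g (2 ^ k * q.1)) (2 ^ k * q.1) :=
      ((hg.smooth.differentiable (by simp)) _).hasDerivAt
    have hf : HasFDerivAt (fun q : ℝ × ℝ => (2 : ℝ) ^ k * q.1)
        ((2 : ℝ) ^ k • ContinuousLinearMap.fst ℝ ℝ ℝ) q :=
      (hasFDerivAt_fst (p := q)).const_mul _
    have := hd.comp_hasFDerivAt q hf
    rwa [smul_smul] at this
  have h2 : HasFDerivAt (fun q : ℝ × ℝ => Real.cos (nn k * q.2 - m * (Real.pi / 2)))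
      ((-Real.sin (nn k * q.2 - m * (Real.pi / 2)) * nn k) •
        ContinuousLinearMap.snd ℝ ℝ ℝ) q := by
    have hf : HasFDerivAt (fun q : ℝ × ℝ => nn k * q.2 - m * (Real.pi / 2))
        (nn k • ContinuousLinearMap.snd ℝ ℝ ℝ) q :=
      ((hasFDerivAt_snd (p := q)).const_mul _).sub_const _
    have := (Real.hasDerivAt_cos (nn k * q.2 - m * (Real.pi / 2))).comp_hasFDerivAt q hf
    rwa [smul_smul] at this
  have h3 := (h1.mul h2).const_mul (aa k * nn k ^ (-m) * 2 ^ (l * k))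
  refine h3.congr_fderiv ?_
  have e1 : nn k ^ (-(m - 1)) = nn k ^ (-m) * nn k := by
    rw [neg_sub, sub_eq_add_neg, zpow_add₀ hn.ne', zpow_one, mul_comm]
  have e2 : Real.cos (nn k * q.2 - ((m - 1 : ℤ) : ℝ) * (Real.pi / 2)) =
      -Real.sin (nn k * q.2 - m * (Real.pi / 2)) := by
    rw [← Real.cos_add_pi_div_two]
    congr 1
    push_cast
    ring
  ext
  all_goals
    simp only [oscT, e1, e2, ContinuousLinearMap.add_comp, ContinuousLinearMap.comp_apply,
      add_apply, smul_apply,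
      ContinuousLinearMap.coe_fst', ContinuousLinearMap.coe_snd', smul_eq_mul,
      ContinuousLinearMap.inl_apply, ContinuousLinearMap.inr_apply]
    ring

theorem osc_hasFDerivAt {g : ℝ → ℝ} (hg : Gd g) (m : ℤ) (l : ℕ) (q : ℝ × ℝ) :
    HasFDerivAt (fun q : ℝ × ℝ => osc g m l q.1 q.2)
      (osc (deriv g) m (l + 1) q.1 q.2 • ContinuousLinearMap.fst ℝ ℝ ℝ +
        osc g (m - 1) l q.1 q.2 • ContinuousLinearMap.snd ℝ ℝ ℝ) q := by
  obtain ⟨D1, hD1, hb1⟩ := oscT_bound hg.deriv m (l + 1)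
  obtain ⟨D2, hD2, hb2⟩ := oscT_bound hg (m - 1) l
  have hs1 : Summable fun k => oscT (deriv g) m (l + 1) k q.1 q.2 := osc_summable hg.deriv _ _ _ _
  have hs2 : Summable fun k => oscT g (m - 1) l k q.1 q.2 := osc_summable hg _ _ _ _
  have h := hasFDerivAt_tsum (x₀ := q) (summable_half_pow (D1 + D2))
    (fun k q => oscT_hasFDerivAt hg m l k q) (fun k q => ?_) (osc_summable hg m l q.1 q.2) q
  · refine h.congr_fderiv ?_
    rw [Summable.tsum_add (hs1.smul_const _) (hs2.smul_const _), hs1.tsum_smul_const,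
      hs2.tsum_smul_const]
    rfl
  · have hf : ‖ContinuousLinearMap.fst ℝ ℝ ℝ‖ ≤ 1 := ContinuousLinearMap.norm_fst_le ℝ ℝ ℝ
    have hs : ‖ContinuousLinearMap.snd ℝ ℝ ℝ‖ ≤ 1 := ContinuousLinearMap.norm_snd_le ℝ ℝ ℝ
    calc _ ≤ ‖oscT (deriv g) m (l + 1) k q.1 q.2 • ContinuousLinearMap.fst ℝ ℝ ℝ‖ +
          ‖oscT g (m - 1) l k q.1 q.2 • ContinuousLinearMap.snd ℝ ℝ ℝ‖ := norm_add_le _ _
      _ ≤ |oscT (deriv g) m (l + 1) k q.1 q.2| + |oscT g (m - 1) l k q.1 q.2| := by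
          rw [norm_smul, norm_smul, Real.norm_eq_abs, Real.norm_eq_abs]
          exact add_le_add (mul_le_of_le_one_right (abs_nonneg _) hf)
            (mul_le_of_le_one_right (abs_nonneg _) hs)
      _ ≤ D1 * (1 / 2) ^ k + D2 * (1 / 2) ^ k := add_le_add (hb1 _ _ _) (hb2 _ _ _)
      _ = (D1 + D2) * (1 / 2) ^ k := by ring

theorem osc_contDiff {g : ℝ → ℝ} (hg : Gd g) (m : ℤ) (l : ℕ) :
    ContDiff ℝ ∞ (fun q : ℝ × ℝ => osc g m l q.1 q.2) := by
  rw [contDiff_infty]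
  intro n
  induction n generalizing g m l with
  | zero =>
    rw [Nat.cast_zero, contDiff_zero]
    exact continuous_iff_continuousAt.2 fun q => (osc_hasFDerivAt hg m l q).continuousAt
  | succ n ih =>
    rw [Nat.cast_succ, contDiff_succ_iff_hasFDerivAt]
    exact ⟨_, ((ih hg.deriv m (l + 1)).smul contDiff_const).add
      ((ih hg (m - 1) l).smul contDiff_const), fun q => osc_hasFDerivAt hg m l q⟩

end WR
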