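import Pool.Agent.helper97.WR.D02

/-!
# WR-D03: size of the derivatives of `osc` at depth `s ≤ 2^(-K)`

Order `0`: for `s ≤ 2^(-K)` the terms with `k ≤ K` vanish (`2^k s ≤ 1`), and for `k ≥ K + 1`, by
`num_tail (-m) l` (with `K + 1` in place of `K`), the term is at most
`sup|g| D a_(K+1) N_(K+1)^(1-m) 2^(-k)`; sum: `≤ 2 sup|g| D a_(K+1) N_(K+1)^(1-m)`.

Order `j + 1`: `iteratedFDeriv (j+1) F` has the norm of `iteratedFDeriv j (fderiv F)`
(`norm_iteratedFDeriv_fderiv`), and by `osc_hasFDerivAt`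
`fderiv (osc g m l) = osc (deriv g) m (l+1) • fst + osc g (m-1) l • snd`; use
`norm_iteratedFDeriv_add_le`-type bounds (`iteratedFDeriv_add_apply`) and
`ContinuousLinearMap.norm_iteratedFDeriv_comp_left` (or `norm_iteratedFDeriv_smul_const`...) with
`‖fst‖, ‖snd‖ ≤ 1` and the induction hypothesis for `(deriv g, m, l+1)` (exponent `j + 1 - m`, at most
`j + 2 - m` because `N ≥ 1`) and `(g, m-1, l)` (exponent `j + 1 - (m - 1)`).
-/

noncomputable section

namespace WR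

open Set Filter Topology
open scoped ContDiff

private lemma osc_bd_zero {g : ℝ → ℝ} (hg : Gd g) (m : ℤ) (l : ℕ) : ∃ C : ℝ, 0 < C ∧
    ∀ (K : ℕ) (s p : ℝ), s ≤ (1 / 2) ^ K →
      ‖osc g m l s p‖ ≤ C * (aa (K + 1) * nn (K + 1) ^ (1 - m : ℤ)) := by
  obtain ⟨Cg, hCg, hgb⟩ := hg.bound
  obtain ⟨D, hD, hnum⟩ := num_tail (-m) l
  refine ⟨Cg * D * 2, by positivity, fun K s p hs => ?_⟩
  set X : ℝ := aa (K + 1) * nn (K + 1) ^ (1 - m : ℤ) with hX
  have hXp : 0 < X := by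
    have h1 := aa_pos (K + 1)
    have h2 := nn_pos (K + 1)
    rw [hX]; positivity
  have hterm : ∀ k, ‖oscT g m l k s p‖ ≤ (Cg * D * X) * (1 / 2) ^ k := by
    intro k
    rcases Nat.lt_or_ge K k with hk | hk
    · have h1 := hnum (K + 1) k hk
      have hexp : (-m + 1 : ℤ) = 1 - m := by ring
      rw [hexp, ← hX] at h1
      have ha := aa_pos k
      have hn := nn_pos k
      have hnz : 0 < nn k ^ (-m) := zpow_pos hn _
      have h2 : ‖oscT g m l k s p‖ ≤ aa k * nn k ^ (-m) * 2 ^ (l * k) * Cg := by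
        unfold oscT
        rw [norm_mul, Real.norm_of_nonneg (by positivity : (0:ℝ) ≤ aa k * nn k ^ (-m) * 2 ^ (l * k))]
        refine mul_le_mul_of_nonneg_left ?_ (by positivity)
        rw [norm_mul]
        calc ‖g (2 ^ k * s)‖ * ‖Real.cos (nn k * p - m * (Real.pi / 2))‖ ≤ Cg * 1 := by
              refine mul_le_mul (hgb _) (Real.abs_cos_le_one _) (norm_nonneg _) hCg.le
          _ = Cg := mul_one _
      have h2k : (0 : ℝ) < 2 ^ k := by positivity
      have h3 : aa k * nn k ^ (-m) * 2 ^ (l * k) ≤ D * X * (1 / 2) ^ k := by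
        rw [one_div, inv_pow, ← div_eq_mul_inv, le_div_iff₀ h2k]
        exact h1
      calc ‖oscT g m l k s p‖ ≤ aa k * nn k ^ (-m) * 2 ^ (l * k) * Cg := h2
        _ ≤ (D * X * (1 / 2) ^ k) * Cg := mul_le_mul_of_nonneg_right h3 hCg.le
        _ = (Cg * D * X) * (1 / 2) ^ k := by ring
    · have h1 : (2 : ℝ) ^ k * s ≤ 1 := by
        have h2 : (2 : ℝ) ^ k * s ≤ 2 ^ k * (1 / 2) ^ K := mul_le_mul_of_nonneg_left hs (by positivity)
        have h3 : (2 : ℝ) ^ k * (1 / 2) ^ K ≤ 1 := by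
          rw [one_div, inv_pow, ← div_eq_mul_inv, div_le_one (by positivity)]
          exact pow_le_pow_right₀ (by norm_num) hk
        linarith
      have h2 : oscT g m l k s p = 0 := by
        unfold oscT
        rw [hg.low _ h1]
        ring
      rw [h2, norm_zero]
      positivity
  have hsum : HasSum (fun k : ℕ => (Cg * D * X) * (1 / 2) ^ k) ((Cg * D * X) * 2) :=
    hasSum_geometric_two.mul_left _
  have := tsum_of_norm_bounded hsum hterm
  calc ‖osc g m l s p‖ ≤ (Cg * D * X) * 2 := this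
    _ = Cg * D * 2 * X := by ring

private lemma osc_fderiv {g : ℝ → ℝ} (hg : Gd g) (m : ℤ) (l : ℕ) :
    fderiv ℝ (fun q : ℝ × ℝ => osc g m l q.1 q.2) =
      (ContinuousLinearMap.toSpanSingleton ℝ (ContinuousLinearMap.fst ℝ ℝ ℝ)) ∘
        (fun q : ℝ × ℝ => osc (deriv g) m (l + 1) q.1 q.2) +
      (ContinuousLinearMap.toSpanSingleton ℝ (ContinuousLinearMap.snd ℝ ℝ ℝ)) ∘
        (fun q : ℝ × ℝ => osc g (m - 1) l q.1 q.2) := by
  funext q
  rw [(osc_hasFDerivAt hg m l q).fderiv]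
  simp [ContinuousLinearMap.toSpanSingleton_apply]

theorem osc_bd (j : ℕ) : ∀ {g : ℝ → ℝ} (_ : Gd g) (m : ℤ) (l : ℕ), ∃ C : ℝ, 0 < C ∧
    ∀ (K : ℕ) (s p : ℝ), s ≤ (1 / 2) ^ K →
      ‖iteratedFDeriv ℝ j (fun q : ℝ × ℝ => osc g m l q.1 q.2) (s, p)‖ ≤
        C * (aa (K + 1) * nn (K + 1) ^ ((1 - m) + j : ℤ)) := by
  induction j with
  | zero =>
    intro g hg m l
    obtain ⟨C, hC, h⟩ := osc_bd_zero hg m l
    refine ⟨C, hC, fun K s p hs => ?_⟩
    rw [norm_iteratedFDeriv_zero]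
    have h1 := h K s p hs
    have h2 : ((1 - m) + ((0 : ℕ) : ℤ)) = 1 - m := by simp
    rw [h2]
    exact h1
  | succ j ih =>
    intro g hg m l
    obtain ⟨C1, hC1, h1⟩ := ih hg.deriv m (l + 1)
    obtain ⟨C2, hC2, h2⟩ := ih hg (m - 1) l
    refine ⟨C1 + C2, by positivity, fun K s p hs => ?_⟩
    have hA : ContDiff ℝ ∞ (fun q : ℝ × ℝ => osc (deriv g) m (l + 1) q.1 q.2) :=
      osc_contDiff hg.deriv m (l + 1)
    have hB : ContDiff ℝ ∞ (fun q : ℝ × ℝ => osc g (m - 1) l q.1 q.2) := osc_contDiff hg (m - 1) l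
    have hle : ((j : ℕ) : ℕ∞ω) ≤ (∞ : ℕ∞ω) := by exact_mod_cast le_top
    have hL1 : ‖ContinuousLinearMap.toSpanSingleton ℝ (ContinuousLinearMap.fst ℝ ℝ ℝ)‖ ≤ 1 := by
      rw [ContinuousLinearMap.norm_toSpanSingleton]
      exact ContinuousLinearMap.norm_fst_le ℝ ℝ ℝ
    have hL2 : ‖ContinuousLinearMap.toSpanSingleton ℝ (ContinuousLinearMap.snd ℝ ℝ ℝ)‖ ≤ 1 := by
      rw [ContinuousLinearMap.norm_toSpanSingleton]
      exact ContinuousLinearMap.norm_snd_le ℝ ℝ ℝ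
    rw [← norm_iteratedFDeriv_fderiv, osc_fderiv hg m l]
    rw [iteratedFDeriv_add_apply
      (((ContinuousLinearMap.contDiff _).comp hA).contDiffAt.of_le hle)
      (((ContinuousLinearMap.contDiff _).comp hB).contDiffAt.of_le hle)]
    have e1 := ContinuousLinearMap.norm_iteratedFDeriv_comp_left
      (ContinuousLinearMap.toSpanSingleton ℝ (ContinuousLinearMap.fst ℝ ℝ ℝ))
      (x := ((s, p) : ℝ × ℝ)) (hA.contDiffAt) hle
    have e2 := ContinuousLinearMap.norm_iteratedFDeriv_comp_left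
      (ContinuousLinearMap.toSpanSingleton ℝ (ContinuousLinearMap.snd ℝ ℝ ℝ))
      (x := ((s, p) : ℝ × ℝ)) (hB.contDiffAt) hle
    have f1 := h1 K s p hs
    have f2 := h2 K s p hs
    have hap := aa_pos (K + 1)
    have hnp := nn_pos (K + 1)
    have hn1 := one_le_nn (K + 1)
    have g1 : nn (K + 1) ^ ((1 - m) + j : ℤ) ≤ nn (K + 1) ^ ((1 - m) + (j + 1 : ℕ) : ℤ) := by
      apply zpow_le_zpow_right₀ hn1
      push_cast; linarith
    have g2 : ((1 - (m - 1)) + j : ℤ) = ((1 - m) + (j + 1 : ℕ) : ℤ) := by push_cast; ring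
    rw [g2] at f2
    have k1 : ‖iteratedFDeriv ℝ j ((ContinuousLinearMap.toSpanSingleton ℝ (ContinuousLinearMap.fst ℝ ℝ ℝ)) ∘
        (fun q : ℝ × ℝ => osc (deriv g) m (l + 1) q.1 q.2)) (s, p)‖ ≤
        C1 * (aa (K + 1) * nn (K + 1) ^ ((1 - m) + (j + 1 : ℕ) : ℤ)) := by
      refine e1.trans ?_
      calc _ ≤ 1 * ‖iteratedFDeriv ℝ j (fun q : ℝ × ℝ => osc (deriv g) m (l + 1) q.1 q.2) (s, p)‖ :=
            mul_le_mul_of_nonneg_right hL1 (norm_nonneg _)
        _ ≤ C1 * (aa (K + 1) * nn (K + 1) ^ ((1 - m) + j : ℤ)) := by rw [one_mul]; exact f1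
        _ ≤ _ := by
            refine mul_le_mul_of_nonneg_left (mul_le_mul_of_nonneg_left g1 hap.le) hC1.le
    have k2 : ‖iteratedFDeriv ℝ j ((ContinuousLinearMap.toSpanSingleton ℝ (ContinuousLinearMap.snd ℝ ℝ ℝ)) ∘
        (fun q : ℝ × ℝ => osc g (m - 1) l q.1 q.2)) (s, p)‖ ≤
        C2 * (aa (K + 1) * nn (K + 1) ^ ((1 - m) + (j + 1 : ℕ) : ℤ)) := by
      refine e2.trans ?_
      calc _ ≤ 1 * ‖iteratedFDeriv ℝ j (fun q : ℝ × ℝ => osc g (m - 1) l q.1 q.2) (s, p)‖ :=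
            mul_le_mul_of_nonneg_right hL2 (norm_nonneg _)
        _ ≤ _ := by rw [one_mul]; exact f2
    refine (norm_add_le _ _).trans ?_
    rw [add_mul]
    exact add_le_add k1 k2

end WR
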