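import Pool.Agent.helper97.WR.D02

/-!
# WR-D04: the functions `chi`, `bmp`, `FF` (author: helper41)

`chi` is good: smooth, `0` for `s ≤ 1` (`Real.smoothTransition.zero_of_nonpos`) and for `s ≥ 4`, `1` on
`[3/2, 3]` (`Real.smoothTransition.one_of_one_le`), values in `[0, 1]`.
`expNegInvGlue x = 0` for `x ≤ 0`, `> 0` for `x > 0`.
`FF r p = osc chi 0 0 (32 r) p + bmp r`; for `r ≥ 1/8` all arguments `2^k 32 r ≥ 4`, so `osc` vanishes.
-/

noncomputable section

namespace WR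

open Set Filter Topology
open scoped ContDiff

theorem chi_gd : Gd chi where
  smooth := by
    have h1 : ContDiff ℝ ∞ fun s : ℝ => Real.smoothTransition (2 * (s - 1)) :=
      Real.smoothTransition.contDiff.comp (by fun_prop)
    have h2 : ContDiff ℝ ∞ fun s : ℝ => Real.smoothTransition (4 - s) :=
      Real.smoothTransition.contDiff.comp (by fun_prop)
    exact h1.mul h2
  low := fun x hx => by
    unfold chi
    rw [Real.smoothTransition.zero_of_nonpos (by linarith : 2 * (x - 1) ≤ 0), zero_mul]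
  high := fun x hx => by
    unfold chi
    rw [Real.smoothTransition.zero_of_nonpos (by linarith : 4 - x ≤ 0), mul_zero]

theorem chi_nonneg (s : ℝ) : 0 ≤ chi s :=
  mul_nonneg (Real.smoothTransition.nonneg _) (Real.smoothTransition.nonneg _)

theorem chi_le (s : ℝ) : chi s ≤ 1 :=
  mul_le_one₀ (Real.smoothTransition.le_one _) (Real.smoothTransition.nonneg _)
    (Real.smoothTransition.le_one _)

theorem chi_one {s : ℝ} (h1 : 3 / 2 ≤ s) (h2 : s ≤ 3) : chi s = 1 := by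
  unfold chi
  rw [Real.smoothTransition.one_of_one_le (by linarith : 1 ≤ 2 * (s - 1)),
    Real.smoothTransition.one_of_one_le (by linarith : 1 ≤ 4 - s), one_mul]

theorem bmp_contDiff : ContDiff ℝ ∞ bmp := by
  have h : ∀ f : ℝ → ℝ, ContDiff ℝ ∞ f → ContDiff ℝ ∞ fun r => expNegInvGlue (f r) :=
    fun f hf => expNegInvGlue.contDiff.comp hf
  exact ((h _ (by fun_prop)).mul (h _ (by fun_prop))).sub
    ((h _ (by fun_prop)).mul (h _ (by fun_prop)))

theorem bmp_low {r : ℝ} (h : r ≤ 1 / 4) : bmp r = 0 := by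
  unfold bmp
  rw [expNegInvGlue.zero_of_nonpos (by linarith : r - 1 / 4 ≤ 0),
    expNegInvGlue.zero_of_nonpos (by linarith : r - 1 / 2 ≤ 0)]
  ring

theorem bmp_high {r : ℝ} (h : 1 ≤ r) : bmp r = 0 := by
  unfold bmp
  rw [expNegInvGlue.zero_of_nonpos (by linarith : 1 / 2 - r ≤ 0),
    expNegInvGlue.zero_of_nonpos (by linarith : 1 - r ≤ 0)]
  ring

/-- all layers vanish for `s ≥ 4` -/
theorem osc_high {g : ℝ → ℝ} (hg : Gd g) (m : ℤ) (l : ℕ) {s : ℝ} (hs : 4 ≤ s) (p : ℝ) :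
    osc g m l s p = 0 := by
  unfold osc
  have h : ∀ k : ℕ, oscT g m l k s p = 0 := by
    intro k
    have h1 : (1 : ℝ) ≤ 2 ^ k := one_le_pow₀ (by norm_num)
    have h2 : 4 ≤ 2 ^ k * s := by nlinarith
    unfold oscT
    rw [hg.high _ h2]
    ring
  simp [h]

theorem FF_smooth' : ContDiff ℝ ∞ (fun q : ℝ × ℝ => FF q.1 q.2) := by
  have h1 : ContDiff ℝ ∞ fun q : ℝ × ℝ => osc chi 0 0 (32 * q.1) q.2 :=
    (osc_contDiff chi_gd 0 0).comp (g := fun q : ℝ × ℝ => osc chi 0 0 q.1 q.2)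
      (f := fun q : ℝ × ℝ => (32 * q.1, q.2)) (by fun_prop)
  have h2 : ContDiff ℝ ∞ fun q : ℝ × ℝ => bmp q.1 := bmp_contDiff.comp contDiff_fst
  exact h1.add h2

theorem FF_zero' {r : ℝ} (hr : r ≤ 0) (p : ℝ) : FF r p = 0 := by
  unfold FF
  rw [osc_zero chi_gd 0 0 (by linarith : 32 * r ≤ 0) p, bmp_low (by linarith), add_zero]

theorem FF_one' {r : ℝ} (hr : 1 ≤ r) (p : ℝ) : FF r p = 0 := by
  unfold FF
  rw [osc_high chi_gd 0 0 (by linarith : 4 ≤ 32 * r) p, bmp_high hr, add_zero]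

theorem FF_pos' (p : ℝ) : 0 < FF (3 / 8) p := by
  unfold FF
  rw [osc_high chi_gd 0 0 (by norm_num : (4 : ℝ) ≤ 32 * (3 / 8)) p, zero_add]
  unfold bmp
  rw [expNegInvGlue.zero_of_nonpos (by norm_num : (3 : ℝ) / 8 - 1 / 2 ≤ 0), zero_mul, sub_zero]
  exact mul_pos (expNegInvGlue.pos_of_pos (by norm_num)) (expNegInvGlue.pos_of_pos (by norm_num))

theorem FF_neg' (p : ℝ) : FF (3 / 4) p < 0 := by
  unfold FF
  rw [osc_high chi_gd 0 0 (by norm_num : (4 : ℝ) ≤ 32 * (3 / 4)) p, zero_add]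
  unfold bmp
  rw [expNegInvGlue.zero_of_nonpos (by norm_num : (1 : ℝ) / 2 - 3 / 4 ≤ 0), mul_zero, zero_sub,
    neg_lt_zero]
  exact mul_pos (expNegInvGlue.pos_of_pos (by norm_num)) (expNegInvGlue.pos_of_pos (by norm_num))

/-- near the boundary of the support only the oscillating part is present -/
theorem FF_low {r : ℝ} (hr : r ≤ 1 / 4) (p : ℝ) : FF r p = osc chi 0 0 (32 * r) p := by
  unfold FF
  rw [bmp_low hr, add_zero]

end WR
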