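import Pool.Agent.helper97.WR.D03

/-!
# WR-D05: calculus of the class `Od`

author: helper36

* `Od.add`, `Od.neg`: `iteratedFDeriv_add_apply`, `iteratedFDeriv_neg_apply`.
* `Od.mono`: `N ≥ 1`, so a larger exponent `e` gives a weaker statement.
* `Od.mul`: Leibniz `norm_iteratedFDeriv_mul_le`:
  `∑_i (j choose i) C_i a^d N^(e+i) C'_(j-i) a^d' N^(e'+j-i) = C a^(d+d') N^(e+e'+j)`.
* `Od.osc`: put `F q = osc g m l q.1 q.2`, `Y y = (32 R y, Ph y)`.  On the compact set `I × Q` all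
  derivatives of `Y` of orders `1..j` are at most `D^i` for some `D ≥ 1`
  (`ContDiff.continuous_iteratedFDeriv`, compactness).  `norm_iteratedFDeriv_comp_le` at the point
  `(t, z)` with the bounds of `osc_bd` at the point `(32 R(t,z), Ph(t,z))` (orders `i ≤ j`:
  `C_i a N^(1-m+i) ≤ C a N^(1-m+j)`): the derivative of order `j` of `F ∘ Y` is at most
  `j! C a N^(1-m+j) D^j`.  Then multiply with `b` (all derivatives of `b` of orders `≤ j` are bounded on
  `I × Q`; `norm_iteratedFDeriv_mul_le`).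
-/

noncomputable section

namespace WR

open Set Filter Topology
open scoped ContDiff

variable {V : Type} [NormedAddCommGroup V] [NormedSpace ℝ V]
variable {R Ph : ℝ × V → ℝ} {Q : Set V} {d d' : ℕ} {e e' : ℤ} {H G : ℝ × V → ℝ}

private theorem D05_le (j : ℕ) : ((j : ℕ) : WithTop ℕ∞) ≤ ∞ := by
  exact_mod_cast le_top

/-- bounded derivatives on a compact set -/
private theorem D05_bdd {E F : Type*} [NormedAddCommGroup E] [NormedSpace ℝ E]
    [NormedAddCommGroup F] [NormedSpace ℝ F] {f : E → F} (hf : ContDiff ℝ ∞ f) {S : Set E}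
    (hS : IsCompact S) (j : ℕ) : ∃ M : ℝ, 0 ≤ M ∧ ∀ y ∈ S, ‖iteratedFDeriv ℝ j f y‖ ≤ M := by
  obtain ⟨M, hM⟩ := hS.exists_bound_of_continuousOn
    (hf.continuous_iteratedFDeriv (m := j) (D05_le j)).continuousOn
  exact ⟨max M 0, le_max_right _ _, fun y hy => (hM y hy).trans (le_max_left _ _)⟩

theorem Od.add (hH : Od R Q d e H) (hG : Od R Q d e G) (sH : ContDiff ℝ ∞ H) (sG : ContDiff ℝ ∞ G) :
    Od R Q d e (fun y => H y + G y) := by
  intro j
  obtain ⟨C, hC0, hC⟩ := hH j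
  obtain ⟨C', hC'0, hC'⟩ := hG j
  refine ⟨C + C', by positivity, ?_⟩
  intro K t z ht hz hR
  have h1 : iteratedFDeriv ℝ j (fun y => H y + G y) (t, z) =
      iteratedFDeriv ℝ j H (t, z) + iteratedFDeriv ℝ j G (t, z) :=
    iteratedFDeriv_add_apply ((sH.of_le (D05_le j)).contDiffAt) ((sG.of_le (D05_le j)).contDiffAt)
  rw [h1, add_mul]
  exact (norm_add_le _ _).trans (add_le_add (hC K t z ht hz hR) (hC' K t z ht hz hR))

theorem Od.mono (hH : Od R Q d e H) (h : e ≤ e') : Od R Q d e' H := by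
  intro j
  obtain ⟨C, hC0, hC⟩ := hH j
  refine ⟨C, hC0, ?_⟩
  intro K t z ht hz hR
  refine (hC K t z ht hz hR).trans ?_
  apply mul_le_mul_of_nonneg_left _ hC0.le
  apply mul_le_mul_of_nonneg_left _ (pow_nonneg (aa_pos _).le _)
  exact zpow_le_zpow_right₀ (one_le_nn _) (by linarith)

theorem Od.mul (hH : Od R Q d e H) (hG : Od R Q d' e' G) (sH : ContDiff ℝ ∞ H)
    (sG : ContDiff ℝ ∞ G) : Od R Q (d + d') (e + e') (fun y => H y * G y) := by
  intro j
  choose C hC0 hC using hH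
  choose C' hC'0 hC' using hG
  refine ⟨∑ i ∈ Finset.range (j + 1), (j.choose i : ℝ) * C i * C' (j - i), ?_, ?_⟩
  · apply Finset.sum_pos
    · intro i hi
      have h1 : 0 < j.choose i := Nat.choose_pos (Nat.lt_succ_iff.1 (Finset.mem_range.1 hi))
      have h2 : (0 : ℝ) < (j.choose i : ℝ) := by exact_mod_cast h1
      have := hC0 i
      have := hC'0 (j - i)
      positivity
    · exact ⟨0, Finset.mem_range.2 (Nat.succ_pos j)⟩
  intro K t z ht hz hR
  refine (norm_iteratedFDeriv_mul_le sH sG (t, z) (D05_le j)).trans ?_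
  rw [Finset.sum_mul]
  apply Finset.sum_le_sum
  intro i hi
  have hij : i ≤ j := Nat.lt_succ_iff.1 (Finset.mem_range.1 hi)
  have ha : 0 < aa (K + 1) := aa_pos _
  have hn : 0 < nn (K + 1) := nn_pos _
  have h1 := hC i K t z ht hz hR
  have h2 := hC' (j - i) K t z ht hz hR
  have h3 : (aa (K + 1) ^ (d + d') * nn (K + 1) ^ (e + e' + (j : ℤ))) =
      (aa (K + 1) ^ d * nn (K + 1) ^ (e + (i : ℤ))) *
        (aa (K + 1) ^ d' * nn (K + 1) ^ (e' + ((j - i : ℕ) : ℤ))) := by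
    have h4 : e + e' + (j : ℤ) = (e + (i : ℤ)) + (e' + ((j - i : ℕ) : ℤ)) := by
      rw [Nat.cast_sub hij]
      ring
    rw [h4, zpow_add₀ hn.ne', pow_add]
    ring
  rw [h3]
  have h5 : ‖iteratedFDeriv ℝ i H (t, z)‖ * ‖iteratedFDeriv ℝ (j - i) G (t, z)‖ ≤
      (C i * (aa (K + 1) ^ d * nn (K + 1) ^ (e + (i : ℤ)))) *
        (C' (j - i) * (aa (K + 1) ^ d' * nn (K + 1) ^ (e' + ((j - i : ℕ) : ℤ)))) :=
    mul_le_mul h1 h2 (norm_nonneg _) (by
      have := hC0 i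
      positivity)
  have h6 := mul_le_mul_of_nonneg_left h5 (Nat.cast_nonneg (α := ℝ) (j.choose i))
  refine le_trans (le_of_eq ?_) (h6.trans (le_of_eq ?_))
  · ring
  · ring

/-- a smooth function has order `(0, 0)` -/
private theorem D05_smooth (hQ : IsCompact Q) {b : ℝ × V → ℝ} (hb : ContDiff ℝ ∞ b) :
    Od R Q 0 0 b := by
  intro j
  obtain ⟨M, hM0, hM⟩ := D05_bdd hb
    ((isCompact_Icc (a := (-8 : ℝ)) (b := 8)).prod hQ) j
  refine ⟨M + 1, by positivity, ?_⟩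
  intro K t z ht hz _
  have h1 : 1 ≤ aa (K + 1) ^ 0 * nn (K + 1) ^ ((0 : ℤ) + (j : ℤ)) := by
    rw [pow_zero, one_mul, zero_add, zpow_natCast]
    exact one_le_pow₀ (one_le_nn _)
  have h2 := hM (t, z) ⟨ht, hz⟩
  nlinarith

private theorem D05_comp (hR : ContDiff ℝ ∞ R) (hP : ContDiff ℝ ∞ Ph) (hQ : IsCompact Q)
    {g : ℝ → ℝ} (hg : Gd g) (m : ℤ) (l : ℕ) :
    Od R Q 1 (1 - m) (fun y => WR.osc g m l (32 * R y) (Ph y)) := by
  have hF := osc_contDiff hg m l
  have hY : ContDiff ℝ ∞ (fun y : ℝ × V => ((32 * R y, Ph y) : ℝ × ℝ)) :=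
    (contDiff_const.mul hR).prodMk hP
  intro j
  choose C hC0 hC using fun i : ℕ => osc_bd i hg m l
  choose M hM0 hM using fun i : ℕ => D05_bdd hY
    ((isCompact_Icc (a := (-8 : ℝ)) (b := 8)).prod hQ) i
  set D := 1 + ∑ i ∈ Finset.range (j + 1), M i with hD
  set C' := ∑ i ∈ Finset.range (j + 1), C i with hC'
  have hD1 : 1 ≤ D := by
    have : 0 ≤ ∑ i ∈ Finset.range (j + 1), M i := Finset.sum_nonneg fun i _ => hM0 i
    linarith
  have hC'0 : 0 < C' :=
    Finset.sum_pos (fun i _ => hC0 i) ⟨0, Finset.mem_range.2 (Nat.succ_pos j)⟩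
  have hD0 : 0 < D := by linarith
  have hf : (0 : ℝ) < (j.factorial : ℝ) := by exact_mod_cast j.factorial_pos
  refine ⟨j.factorial * C' * D ^ j, by positivity, ?_⟩
  intro K t z ht hz hRz
  have ha : 0 < aa (K + 1) := aa_pos _
  have hn : 0 < nn (K + 1) := nn_pos _
  have h1 := norm_iteratedFDeriv_comp_le hF hY (n := j) (D05_le j) (t, z)
    (C := C' * (aa (K + 1) * nn (K + 1) ^ ((1 - m) + j : ℤ))) (D := D) (by
      intro i hi
      refine (hC i K (32 * R (t, z)) (Ph (t, z)) hRz).trans ?_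
      have h2 : C i ≤ C' := Finset.single_le_sum (f := C) (fun i _ => (hC0 i).le)
        (Finset.mem_range.2 (Nat.lt_succ_iff.2 hi))
      have h3 : nn (K + 1) ^ ((1 - m) + i : ℤ) ≤ nn (K + 1) ^ ((1 - m) + j : ℤ) := by
        apply zpow_le_zpow_right₀ (one_le_nn _)
        have : (i : ℤ) ≤ (j : ℤ) := by exact_mod_cast hi
        linarith
      exact mul_le_mul h2 (mul_le_mul_of_nonneg_left h3 ha.le) (by positivity) hC'0.le) (by
      intro i hi1 hi
      refine (hM i (t, z) ⟨ht, hz⟩).trans ?_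
      have h2 : M i ≤ ∑ i ∈ Finset.range (j + 1), M i :=
        Finset.single_le_sum (f := M) (fun i _ => hM0 i)
          (Finset.mem_range.2 (Nat.lt_succ_iff.2 hi))
      have h3 : D ≤ D ^ i := le_self_pow₀ hD1 (by omega)
      linarith)
  have h4 : ((fun q : ℝ × ℝ => WR.osc g m l q.1 q.2) ∘
      fun y : ℝ × V => ((32 * R y, Ph y) : ℝ × ℝ)) =
      fun y => WR.osc g m l (32 * R y) (Ph y) := rfl
  rw [h4] at h1
  refine h1.trans (le_of_eq ?_)
  rw [pow_one]
  ring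

theorem Od.osc (hR : ContDiff ℝ ∞ R) (hP : ContDiff ℝ ∞ Ph) (hQ : IsCompact Q) {g : ℝ → ℝ}
    (hg : Gd g) (m : ℤ) (l : ℕ) {b : ℝ × V → ℝ} (hb : ContDiff ℝ ∞ b) :
    Od R Q 1 (1 - m) (fun y => b y * osc g m l (32 * R y) (Ph y)) := by
  have hY : ContDiff ℝ ∞ (fun y : ℝ × V => ((32 * R y, Ph y) : ℝ × ℝ)) :=
    (contDiff_const.mul hR).prodMk hP
  have h1 := Od.mul (D05_smooth (R := R) hQ hb) (D05_comp hR hP hQ hg m l) hb
    ((osc_contDiff hg m l).comp hY)
  have h2 : (0 : ℤ) + (1 - m) = 1 - m := by ring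
  rw [h2, Nat.zero_add] at h1
  exact h1

end WR
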