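import Pool.Agent.helper97.WR.D01

/-!
# WR-D06: integrals with a parameter

author: helper21 (statements: helper97)

For a smooth `H : ℝ × V → W` (`W` any finite-dimensional, or complete, normed space) the function
`z ↦ ∫_(-8)^8 H(t, z) dt` is smooth, and its derivative of order `j` at `z` is bounded by
`16 sup_t ‖D^j H (t, z)‖`.

Proof.  `fderiv (z ↦ ∫ H(t,z) dt) z = ∫ (DH(t,z)).comp inr dt`
(`intervalIntegral.hasFDerivAt_integral_of_dominated_of_fderiv_le`, the derivative is bounded on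
`I × closedBall z 1` by compactness: `V` is finite-dimensional, or use local boundedness near the compact
set `I × {z}`), and `H₁(t,z) = (DH(t,z)).comp inr` is again smooth, with
`‖D^j H₁‖ ≤ ‖D^(j+1) H‖` (`ContinuousLinearMap.norm_iteratedFDeriv_comp_left` for the linear map
`T ↦ T.comp inr` of norm `≤ 1`, and `norm_iteratedFDeriv_fderiv`).  Induction on `j` (for all `W`).
-/

noncomputable section

namespace WR

open Set Filter Topology
open scoped ContDiff

variable {V : Type} [NormedAddCommGroup V] [NormedSpace ℝ V] [FiniteDimensional ℝ V]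

/-- the inclusion of `V` -/
private def jn (V : Type) [NormedAddCommGroup V] [NormedSpace ℝ V] : V →L[ℝ] ℝ × V :=
  ContinuousLinearMap.inr ℝ ℝ V

private theorem jn_norm (V : Type) [NormedAddCommGroup V] [NormedSpace ℝ V] : ‖jn V‖ ≤ 1 := by
  refine ContinuousLinearMap.opNorm_le_bound _ zero_le_one fun z => ?_
  simp [jn, Prod.norm_def]

/-- the slice derivative -/
private def sl {W : Type} [NormedAddCommGroup W] [NormedSpace ℝ W] (H : ℝ × V → W) (y : ℝ × V) :
    V →L[ℝ] W := (fderiv ℝ H y).comp (jn V)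

omit [FiniteDimensional ℝ V] in
private theorem sl_smooth {W : Type} [NormedAddCommGroup W] [NormedSpace ℝ W] {H : ℝ × V → W}
    (hH : ContDiff ℝ ∞ H) : ContDiff ℝ ∞ (sl H) := by
  have h1 : ContDiff ℝ ∞ (fderiv ℝ H) := hH.fderiv_right (by simp)
  exact h1.clm_comp contDiff_const

omit [FiniteDimensional ℝ V] in
private theorem sl_bd {W : Type} [NormedAddCommGroup W] [NormedSpace ℝ W] {H : ℝ × V → W}
    (hH : ContDiff ℝ ∞ H) (j : ℕ) (y : ℝ × V) :
    ‖iteratedFDeriv ℝ j (sl H) y‖ ≤ ‖iteratedFDeriv ℝ (j + 1) H y‖ := by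
  have h1 : ContDiff ℝ ∞ (fderiv ℝ H) := hH.fderiv_right (by simp)
  let T : ((ℝ × V) →L[ℝ] W) →L[ℝ] (V →L[ℝ] W) :=
    (ContinuousLinearMap.compL ℝ V (ℝ × V) W).flip (jn V)
  have hT : ‖T‖ ≤ 1 := by
    refine ContinuousLinearMap.opNorm_le_bound _ zero_le_one fun g => ?_
    have h2 : T g = g.comp (jn V) := rfl
    rw [h2, one_mul]
    refine (ContinuousLinearMap.opNorm_comp_le _ _).trans ?_
    exact mul_le_of_le_one_right (norm_nonneg _) (jn_norm V)
  have h3 : sl H = T ∘ fderiv ℝ H := rfl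
  rw [h3]
  refine (T.norm_iteratedFDeriv_comp_left (n := j) (N := (j : ℕ∞)) ?_ le_rfl).trans ?_
  · exact (h1.of_le (by exact_mod_cast le_top)).contDiffAt
  · rw [norm_iteratedFDeriv_fderiv]
    exact mul_le_of_le_one_left (norm_nonneg _) hT

private theorem par_hasFDerivAt {W : Type} [NormedAddCommGroup W] [NormedSpace ℝ W]
    [CompleteSpace W] {H : ℝ × V → W} (hH : ContDiff ℝ ∞ H) (z : V) :
    HasFDerivAt (fun z => ∫ t in (-8 : ℝ)..8, H (t, z)) (∫ t in (-8 : ℝ)..8, sl H (t, z)) z := by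
  have hcH : Continuous H := hH.continuous
  have hcs : Continuous (sl H) := (sl_smooth hH).continuous
  have hK : IsCompact (Icc (-8 : ℝ) 8 ×ˢ Metric.closedBall z 1) :=
    isCompact_Icc.prod (isCompact_closedBall z 1)
  obtain ⟨C, hC⟩ := hK.exists_bound_of_continuousOn hcs.continuousOn
  refine intervalIntegral.hasFDerivAt_integral_of_dominated_of_fderiv_le
    (F := fun z t => H (t, z)) (F' := fun z t => sl H (t, z)) (bound := fun _ => C)
    (s := Metric.closedBall z 1) (Metric.closedBall_mem_nhds z one_pos) ?_ ?_ ?_ ?_ ?_ ?_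
  · refine Eventually.of_forall fun w => ?_
    exact (hcH.comp (by fun_prop : Continuous fun t : ℝ => (t, w))).aestronglyMeasurable
  · exact (hcH.comp (by fun_prop : Continuous fun t : ℝ => (t, z))).intervalIntegrable _ _
  · exact (hcs.comp (by fun_prop : Continuous fun t : ℝ => (t, z))).aestronglyMeasurable
  · refine MeasureTheory.ae_of_all _ fun t ht w hw => ?_
    refine hC (t, w) ⟨?_, hw⟩
    rw [uIoc_of_le (by norm_num)] at ht
    exact ⟨ht.1.le, ht.2⟩
  · exact intervalIntegrable_const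
  · refine MeasureTheory.ae_of_all _ fun t _ w _ => ?_
    have h1 : HasFDerivAt H (fderiv ℝ H (t, w)) (t, w) :=
      (hH.differentiable (by simp) (t, w)).hasFDerivAt
    have h2 : HasFDerivAt (fun w : V => (t, w)) (jn V) w := by
      have := (hasFDerivAt_const (𝕜 := ℝ) t w).prodMk (hasFDerivAt_id (𝕜 := ℝ) w)
      refine this.congr_fderiv ?_
      ext v <;> simp [jn]
    exact h1.comp w h2

private theorem par_nat (n : ℕ) : ∀ {W : Type} [NormedAddCommGroup W] [NormedSpace ℝ W]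
    [CompleteSpace W] {H : ℝ × V → W} (_ : ContDiff ℝ ∞ H),
    ContDiff ℝ n (fun z => ∫ t in (-8 : ℝ)..8, H (t, z)) := by
  induction n with
  | zero =>
    intro W _ _ _ H hH
    have : Differentiable ℝ (fun z => ∫ t in (-8 : ℝ)..8, H (t, z)) :=
      fun z => (par_hasFDerivAt hH z).differentiableAt
    exact contDiff_zero.2 this.continuous
  | succ n ih =>
    intro W _ _ _ H hH
    have h1 : fderiv ℝ (fun z => ∫ t in (-8 : ℝ)..8, H (t, z)) =
        fun z => ∫ t in (-8 : ℝ)..8, sl H (t, z) := by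
      funext z
      exact (par_hasFDerivAt hH z).fderiv
    have h2 := ih (sl_smooth hH)
    rw [← h1] at h2
    have h3 : ((n + 1 : ℕ) : ℕ∞ω) = (n : ℕ∞ω) + 1 := by norm_cast
    rw [h3]
    refine contDiff_succ_iff_fderiv.2 ⟨fun z => (par_hasFDerivAt hH z).differentiableAt, ?_, h2⟩
    intro h
    exact absurd h (by simp)

theorem par_contDiff {W : Type} [NormedAddCommGroup W] [NormedSpace ℝ W] [CompleteSpace W]
    {H : ℝ × V → W} (hH : ContDiff ℝ ∞ H) :
    ContDiff ℝ ∞ (fun z => ∫ t in (-8 : ℝ)..8, H (t, z)) :=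
  contDiff_infty.2 fun n => par_nat n hH

theorem par_bd (j : ℕ) : ∀ {W : Type} [NormedAddCommGroup W] [NormedSpace ℝ W] [CompleteSpace W]
    {H : ℝ × V → W} (_ : ContDiff ℝ ∞ H) (z : V) (C : ℝ)
    (_ : ∀ t ∈ Icc (-8 : ℝ) 8, ‖iteratedFDeriv ℝ j H (t, z)‖ ≤ C),
    ‖iteratedFDeriv ℝ j (fun z => ∫ t in (-8 : ℝ)..8, H (t, z)) z‖ ≤ 16 * C := by
  induction j with
  | zero =>
    intro W _ _ _ H hH z C hC
    rw [norm_iteratedFDeriv_zero]
    have h1 : ‖∫ t in (-8 : ℝ)..8, H (t, z)‖ ≤ C * |(8 : ℝ) - (-8)| := by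
      refine intervalIntegral.norm_integral_le_of_norm_le_const fun t ht => ?_
      rw [uIoc_of_le (by norm_num)] at ht
      have h2 := hC t ⟨ht.1.le, ht.2⟩
      rwa [norm_iteratedFDeriv_zero] at h2
    have h3 : |(8 : ℝ) - (-8)| = 16 := by norm_num
    rw [h3] at h1
    linarith
  | succ j ih =>
    intro W _ _ _ H hH z C hC
    rw [← norm_iteratedFDeriv_fderiv]
    have h1 : fderiv ℝ (fun z => ∫ t in (-8 : ℝ)..8, H (t, z)) =
        fun z => ∫ t in (-8 : ℝ)..8, sl H (t, z) := by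
      funext z
      exact (par_hasFDerivAt hH z).fderiv
    rw [h1]
    exact ih (sl_smooth hH) z C fun t ht => (sl_bd hH j (t, z)).trans (hC t ht)

omit [FiniteDimensional ℝ V] in
theorem slice_bd {W : Type} [NormedAddCommGroup W] [NormedSpace ℝ W]
    {H : ℝ × V → W} (hH : ContDiff ℝ ∞ H) (j : ℕ) (t : ℝ) (z : V) :
    ‖iteratedFDeriv ℝ j (fun z => H (t, z)) z‖ ≤ ‖iteratedFDeriv ℝ j H (t, z)‖ := by
  let G : ℝ × V → W := fun y => H ((t, 0) + y)
  have hG : ContDiff ℝ ∞ G := hH.comp (contDiff_const.add contDiff_id)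
  have h1 : (fun z => H (t, z)) = G ∘ (jn V) := by
    funext z
    show H (t, z) = H ((t, 0) + jn V z)
    congr 1
    simp [jn]
  have h2 : iteratedFDeriv ℝ j G (jn V z) = iteratedFDeriv ℝ j H (t, z) := by
    have h3 := iteratedFDeriv_comp_add_left (𝕜 := ℝ) (f := H) j ((t, 0) : ℝ × V) (jn V z)
    have h4 : ((t, 0) : ℝ × V) + jn V z = (t, z) := by simp [jn]
    rw [h4] at h3
    exact h3
  rw [h1, (jn V).iteratedFDeriv_comp_right hG z (i := j) (by exact_mod_cast le_top), h2]
  refine (ContinuousMultilinearMap.norm_compContinuousLinearMap_le _ _).trans ?_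
  refine mul_le_of_le_one_right (norm_nonneg _) ?_
  exact Finset.prod_le_one (fun _ _ => norm_nonneg _) fun _ _ => jn_norm V

theorem Od.toV {R : ℝ × V → ℝ} {Q : Set V} {d : ℕ} {e : ℤ} {H : ℝ × V → ℝ} (hH : Od R Q d e H)
    (sH : ContDiff ℝ ∞ H) : OdV R Q d e (fun z => ∫ t in (-8 : ℝ)..8, H (t, z)) := by
  intro j
  obtain ⟨C, hC, h⟩ := hH j
  refine ⟨16 * C, by positivity, fun K z hz hd => ?_⟩
  rw [mul_assoc]
  exact par_bd j sH z _ fun t ht => h K t z ht hz (hd t ht)

end WR
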