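import Pool.Agent.helper97.WR.D02

/-!
# WR-D07: one integration by parts

* `exists_inv`: `q y = y S(y²)` with `S x = smoothTransition (4 x / c² - 1) / x`: `S = 0` near `x ≤ c²/8`
  (so it is smooth there), a quotient of smooth functions elsewhere, `S x = 1/x` for `x ≥ c²/2`.
* `ibp`: fix `z`; `q(∂_t Ph) ∂_t Ph = 1` wherever `R ≥ 0`, and where `R < 0` (indeed `32 R ≤ 0`) all
  `osc` terms vanish.  With `Y(t) = (32 R(t,z), Ph(t,z))`, `u(t) = b q(∂_t Ph)`, the chain rule and
  `osc_hasFDerivAt` give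
  `d/dt [u osc g (m+1) l (Y)] = u' osc g (m+1) l (Y) + u 32 ∂_t R osc (deriv g) (m+1) (l+1) (Y)
     + u ∂_t Ph osc g m l (Y)`, and the last term is `b osc g m l (Y)`.
  Integrate over `[-8, 8]` (`intervalIntegral.integral_eq_sub_of_hasDerivAt`): the boundary terms vanish
  because `R (±8, z) < 0`.
-/

noncomputable section

namespace WR

open Set Filter Topology
open scoped ContDiff

variable {V : Type} [NormedAddCommGroup V] [NormedSpace ℝ V]

/-- derivative in the variable `t` -/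
def dt (H : ℝ × V → ℝ) (y : ℝ × V) : ℝ := fderiv ℝ H y (1, 0)

theorem dt_contDiff {H : ℝ × V → ℝ} (hH : ContDiff ℝ ∞ H) : ContDiff ℝ ∞ (dt H) := by
  have h1 : ContDiff ℝ ∞ (fderiv ℝ H) := hH.fderiv_right (m := ∞) le_rfl
  exact h1.clm_apply contDiff_const

theorem dt_hasDerivAt {H : ℝ × V → ℝ} (hH : ContDiff ℝ ∞ H) (t : ℝ) (z : V) :
    HasDerivAt (fun s => H (s, z)) (dt H (t, z)) t := by
  have h1 : HasFDerivAt H (fderiv ℝ H (t, z)) (t, z) :=
    ((hH.differentiable (by simp)) (t, z)).hasFDerivAt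
  have h2 : HasDerivAt (fun s : ℝ => ((s, z) : ℝ × V)) ((1, 0) : ℝ × V) t :=
    (hasDerivAt_id t).prodMk (hasDerivAt_const t z)
  exact h1.comp_hasDerivAt t h2

theorem exists_inv {c : ℝ} (hc : 0 < c) : ∃ q : ℝ → ℝ, ContDiff ℝ ∞ q ∧ ∀ y, c ≤ |y| → q y * y = 1 := by
  refine ⟨fun y => y⁻¹ * Real.smoothTransition (4 * y ^ 2 / c ^ 2 - 1), ?_, ?_⟩
  · rw [contDiff_iff_contDiffAt]
    intro y
    by_cases hy : y = 0
    · subst hy
      have h1 : (fun y : ℝ => y⁻¹ * Real.smoothTransition (4 * y ^ 2 / c ^ 2 - 1)) =ᶠ[𝓝 0] fun _ => 0 := by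
        have h2 : Continuous (fun y : ℝ => 4 * y ^ 2 / c ^ 2 - 1) := by fun_prop
        have h3 : (fun y : ℝ => 4 * y ^ 2 / c ^ 2 - 1) 0 < 0 := by simp
        filter_upwards [h2.continuousAt.eventually_lt (continuousAt_const (y := (0:ℝ))) h3] with y hy
        rw [Real.smoothTransition.zero_of_nonpos hy.le, mul_zero]
      exact contDiffAt_const.congr_of_eventuallyEq h1
    · refine (contDiffAt_inv ℝ hy).mul ?_
      refine (Real.smoothTransition.contDiff.comp ?_).contDiffAt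
      fun_prop
  · intro y hy
    have hy0 : y ≠ 0 := by
      intro h0
      rw [h0, abs_zero] at hy
      linarith
    have h1 : c ^ 2 ≤ y ^ 2 := by
      rw [← sq_abs y]
      exact pow_le_pow_left₀ hc.le hy 2
    have h2 : 1 ≤ 4 * y ^ 2 / c ^ 2 - 1 := by
      have h3 : 2 ≤ 4 * y ^ 2 / c ^ 2 := by
        rw [le_div_iff₀ (by positivity)]
        nlinarith [sq_nonneg c]
      linarith
    simp only
    rw [Real.smoothTransition.one_of_one_le h2, mul_one, inv_mul_cancel₀ hy0]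

theorem ibp {R Ph b : ℝ × V → ℝ} (hR : ContDiff ℝ ∞ R) (hP : ContDiff ℝ ∞ Ph) (hb : ContDiff ℝ ∞ b)
    {g : ℝ → ℝ} (hg : Gd g) (m : ℤ) (l : ℕ) {c : ℝ} {q : ℝ → ℝ} (hq : ContDiff ℝ ∞ q)
    (hqc : ∀ y, c ≤ |y| → q y * y = 1) {z : V} (h8 : R (8, z) < 0) (h8' : R (-8, z) < 0)
    (hph : ∀ t ∈ Icc (-8 : ℝ) 8, 0 ≤ R (t, z) → c ≤ |dt Ph (t, z)|) :
    ∫ t in (-8 : ℝ)..8, b (t, z) * osc g m l (32 * R (t, z)) (Ph (t, z)) =
      ∫ t in (-8 : ℝ)..8,
        ((-dt (fun y => b y * q (dt Ph y)) (t, z)) *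
            osc g (m + 1) l (32 * R (t, z)) (Ph (t, z)) +
          (-(b (t, z) * q (dt Ph (t, z)) * (32 * dt R (t, z)))) *
            osc (deriv g) (m + 1) (l + 1) (32 * R (t, z)) (Ph (t, z))) := by
  have hbq : ContDiff ℝ ∞ (fun y => b y * q (dt Ph y)) := hb.mul (hq.comp (dt_contDiff hP))
  set F1 : ℝ → ℝ := fun t => b (t, z) * osc g m l (32 * R (t, z)) (Ph (t, z)) with hF1
  set F2 : ℝ → ℝ := fun t => ((-dt (fun y => b y * q (dt Ph y)) (t, z)) *
            osc g (m + 1) l (32 * R (t, z)) (Ph (t, z)) +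
          (-(b (t, z) * q (dt Ph (t, z)) * (32 * dt R (t, z)))) *
            osc (deriv g) (m + 1) (l + 1) (32 * R (t, z)) (Ph (t, z))) with hF2
  set G : ℝ → ℝ := fun t => (b (t, z) * q (dt Ph (t, z))) *
    osc g (m + 1) l (32 * R (t, z)) (Ph (t, z)) with hG
  -- continuity of `osc` along the orbit
  have hoc : ∀ {g' : ℝ → ℝ} (_ : Gd g') (m' : ℤ) (l' : ℕ),
      Continuous fun t : ℝ => osc g' m' l' (32 * R (t, z)) (Ph (t, z)) := by
    intro g' hg' m' l'
    have h1 := (osc_contDiff hg' m' l').continuous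
    have hR' := hR.continuous
    have hP' := hP.continuous
    exact h1.comp (Continuous.prodMk (by fun_prop) (by fun_prop) :
      Continuous fun t : ℝ => ((32 * R (t, z), Ph (t, z)) : ℝ × ℝ))
  have hF1c : Continuous F1 := by
    have hb' := hb.continuous
    exact (by fun_prop : Continuous fun t : ℝ => b (t, z)).mul (hoc hg m l)
  have hF2c : Continuous F2 := by
    have hb' := hb.continuous
    have hq' := hq.continuous
    have hdP := (dt_contDiff hP).continuous
    have hdR := (dt_contDiff hR).continuous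
    have hdbq := (dt_contDiff hbq).continuous
    refine Continuous.add ?_ ?_
    · exact (by fun_prop : Continuous fun t : ℝ => -dt (fun y => b y * q (dt Ph y)) (t, z)).mul
        (hoc hg (m + 1) l)
    · exact (by fun_prop : Continuous fun t : ℝ => -(b (t, z) * q (dt Ph (t, z)) * (32 * dt R (t, z)))).mul
        (hoc hg.deriv (m + 1) (l + 1))
  have hderiv : ∀ t ∈ uIcc (-8 : ℝ) 8, HasDerivAt G (F1 t - F2 t) t := by
    intro t ht
    rw [uIcc_of_le (by norm_num)] at ht
    have h1 : HasDerivAt (fun s => b (s, z) * q (dt Ph (s, z)))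
        (dt (fun y => b y * q (dt Ph y)) (t, z)) t := dt_hasDerivAt hbq t z
    have h2 : HasDerivAt (fun s : ℝ => ((32 * R (s, z), Ph (s, z)) : ℝ × ℝ))
        ((32 * dt R (t, z), dt Ph (t, z)) : ℝ × ℝ) t :=
      ((dt_hasDerivAt hR t z).const_mul 32).prodMk (dt_hasDerivAt hP t z)
    have h3 := (osc_hasFDerivAt hg (m + 1) l (32 * R (t, z), Ph (t, z))).comp_hasDerivAt t h2
    have h4 := h1.mul h3
    have hkey : (b (t, z) * q (dt Ph (t, z))) * (osc g m l (32 * R (t, z)) (Ph (t, z)) * dt Ph (t, z)) =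
        F1 t := by
      by_cases hRt : 0 ≤ R (t, z)
      · have := hqc _ (hph t ht hRt)
        rw [hF1]
        calc _ = b (t, z) * osc g m l (32 * R (t, z)) (Ph (t, z)) * (q (dt Ph (t, z)) * dt Ph (t, z)) := by ring
          _ = _ := by rw [this, mul_one]
      · push Not at hRt
        rw [hF1]
        simp only
        rw [osc_zero hg m l (by linarith : 32 * R (t, z) ≤ 0)]
        ring
    have h5 : HasDerivAt G (dt (fun y => b y * q (dt Ph y)) (t, z) *
        osc g (m + 1) l (32 * R (t, z)) (Ph (t, z)) + (b (t, z) * q (dt Ph (t, z))) *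
        ((osc (deriv g) (m + 1) (l + 1) (32 * R (t, z)) (Ph (t, z)) • ContinuousLinearMap.fst ℝ ℝ ℝ +
        osc g (m + 1 - 1) l (32 * R (t, z)) (Ph (t, z)) • ContinuousLinearMap.snd ℝ ℝ ℝ)
          (32 * dt R (t, z), dt Ph (t, z)))) t := h4
    refine h5.congr_deriv ?_
    rw [← hkey, hF2]
    have hm : m + 1 - 1 = m := by ring
    rw [hm]
    simp only [ContinuousLinearMap.add_apply, ContinuousLinearMap.smul_apply, ContinuousLinearMap.coe_fst',
      ContinuousLinearMap.coe_snd', smul_eq_mul]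
    ring
  have hint := intervalIntegral.integral_eq_sub_of_hasDerivAt hderiv
    ((hF1c.sub hF2c).intervalIntegrable _ _)
  have hG8 : G 8 = 0 := by
    rw [hG]
    simp only
    rw [osc_zero hg (m + 1) l (by linarith : 32 * R (8, z) ≤ 0), mul_zero]
  have hG8' : G (-8) = 0 := by
    rw [hG]
    simp only
    rw [osc_zero hg (m + 1) l (by linarith : 32 * R (-8, z) ≤ 0), mul_zero]
  rw [hG8, hG8', sub_zero, intervalIntegral.integral_sub (hF1c.intervalIntegrable _ _)
    (hF2c.intervalIntegrable _ _)] at hint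
  linarith

end WR
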