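import Pool.Agent.helper97.WR.D05
import Pool.Agent.helper97.WR.D07

/-!
# WR-D08: `n` integrations by parts

(author: helper75; architect: helper97)

Induction on `n` (for all `g`, `m`, `l`, `b`).  `n = 0`: `H = b osc g m l (32 R, Ph)`, `Od.osc`
(exponent `1 - m`), smooth by `osc_contDiff`.  Step: by `ibp` the integral is
`∫ b₁ osc g (m+1) l + ∫ b₂ osc (deriv g) (m+1) (l+1)` with smooth `b₁`, `b₂` (`dt_contDiff`); apply the
induction hypothesis to both (exponents `1 - (m+1) - n`) and take `H = H₁ + H₂` (`Od.add`;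
`intervalIntegral.integral_add`, everything is continuous).
-/

noncomputable section

namespace WR

open Set Filter Topology
open scoped ContDiff

variable {V : Type} [NormedAddCommGroup V] [NormedSpace ℝ V]

theorem ibp_iter {R Ph : ℝ × V → ℝ} (hR : ContDiff ℝ ∞ R) (hP : ContDiff ℝ ∞ Ph) {Q : Set V}
    (hQ : IsCompact Q) {c : ℝ} (hc : 0 < c) (n : ℕ) :
    ∀ {g : ℝ → ℝ} (_ : Gd g) (m : ℤ) (l : ℕ) {b : ℝ × V → ℝ} (_ : ContDiff ℝ ∞ b),
    ∃ H : ℝ × V → ℝ, ContDiff ℝ ∞ H ∧ Od R Q 1 (1 - m - n) H ∧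
      ∀ z, R (8, z) < 0 → R (-8, z) < 0 →
        (∀ t ∈ Icc (-8 : ℝ) 8, 0 ≤ R (t, z) → c ≤ |dt Ph (t, z)|) →
        ∫ t in (-8 : ℝ)..8, b (t, z) * osc g m l (32 * R (t, z)) (Ph (t, z)) =
          ∫ t in (-8 : ℝ)..8, H (t, z) := by
  obtain ⟨q, hq, hqc⟩ := exists_inv hc
  induction n with
  | zero =>
    intro g hg m l b hb
    refine ⟨fun y => b y * osc g m l (32 * R y) (Ph y), ?_, ?_, ?_⟩
    · exact hb.mul ((osc_contDiff hg m l).comp ((contDiff_const.mul hR).prodMk hP))
    · have h := Od.osc (Q := Q) hR hP hQ hg m l hb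
      have e : (1 - m - ((0 : ℕ) : ℤ)) = 1 - m := by simp
      rw [e]
      exact h
    · intro z _ _ _
      rfl
  | succ n ih =>
    intro g hg m l b hb
    have hqP : ContDiff ℝ ∞ (fun y => b y * q (dt Ph y)) := hb.mul (hq.comp (dt_contDiff hP))
    have hb1 : ContDiff ℝ ∞ (fun y => -dt (fun y => b y * q (dt Ph y)) y) :=
      (dt_contDiff hqP).neg
    have hb2 : ContDiff ℝ ∞ (fun y => -(b y * q (dt Ph y) * (32 * dt R y))) :=
      (hqP.mul (contDiff_const.mul (dt_contDiff hR))).neg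
    obtain ⟨H1, s1, o1, e1⟩ := ih hg (m + 1) l hb1
    obtain ⟨H2, s2, o2, e2⟩ := ih hg.deriv (m + 1) (l + 1) hb2
    refine ⟨fun y => H1 y + H2 y, s1.add s2, ?_, ?_⟩
    · have h := o1.add o2 s1 s2
      have e : (1 - m - ((n + 1 : ℕ) : ℤ)) = 1 - (m + 1) - (n : ℤ) := by push_cast; ring
      rw [e]
      exact h
    · intro z h8 h8' hph
      have hline : Continuous (fun t : ℝ => ((t, z) : ℝ × V)) := by fun_prop
      have c1 : Continuous (fun t : ℝ => (-dt (fun y => b y * q (dt Ph y)) (t, z)) *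
            osc g (m + 1) l (32 * R (t, z)) (Ph (t, z))) :=
        (hb1.mul ((osc_contDiff hg (m + 1) l).comp
          ((contDiff_const.mul hR).prodMk hP))).continuous.comp hline
      have c2 : Continuous (fun t : ℝ => (-(b (t, z) * q (dt Ph (t, z)) * (32 * dt R (t, z)))) *
            osc (deriv g) (m + 1) (l + 1) (32 * R (t, z)) (Ph (t, z))) :=
        (hb2.mul ((osc_contDiff hg.deriv (m + 1) (l + 1)).comp
          ((contDiff_const.mul hR).prodMk hP))).continuous.comp hline
      have c3 : Continuous (fun t : ℝ => H1 (t, z)) := s1.continuous.comp hline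
      have c4 : Continuous (fun t : ℝ => H2 (t, z)) := s2.continuous.comp hline
      rw [ibp hR hP hb hg m l hq hqc h8 h8' hph,
        intervalIntegral.integral_add (c1.intervalIntegrable _ _) (c2.intervalIntegrable _ _),
        intervalIntegral.integral_add (c3.intervalIntegrable _ _) (c4.intervalIntegrable _ _),
        ← e1 z h8 h8' hph, ← e2 z h8 h8' hph]

end WR
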