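import Pool.Agent.helper97.WR.D04
import Pool.Agent.helper97.WR.D06
import Pool.Agent.helper97.WR.D08

/-!
# WR-D09: the integral `A` is negligible near the boundary of the support

author: helper55

Given `e`, choose `n` with `1 - n ≤ e` and `H` from `ibp_iter` with `g = chi`, `m = 0`, `l = 0`,
`b = 1`, `Q = K`.  Let `z₀ ∈ interior K` with `32 R(t, z₀) ≤ 2^(-k) ≤ 1` for all `t ∈ I`.  The set `O` of
all `z ∈ interior K` with `R(t, z) < 1/4` for all `t ∈ I` is a neighbourhood of `z₀` (`I` is compact: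
`isOpen_small`), for `z ∈ O` the hypotheses `ends` and `phase` of `Ana` hold, `FF = osc chi 0 0 (32 R, Ph)` on
the orbit (`FF_low`), so `A(z) = ∫ H(t, z) dt`.  Hence the derivatives of `A` and `∫ H` at `z₀` agree
(`Filter.EventuallyEq.iteratedFDeriv_eq`) and `Od.toV` gives the bound with exponent
`(1 - n) + j ≤ e + j` (`N ≥ 1`).
-/

noncomputable section

namespace WR

open Set Filter Topology
open scoped ContDiff

variable {V : Type} [NormedAddCommGroup V] [NormedSpace ℝ V] [FiniteDimensional ℝ V]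

/-- the condition `r ≤ R(t, z)` for some `t ∈ I` is closed in `z` (private version) -/
private theorem d09_closed {R : ℝ × V → ℝ} (hR : Continuous R) (r : ℝ) :
    IsClosed {z : V | ∃ t ∈ Icc (-8 : ℝ) 8, r ≤ R (t, z)} := by
  have h1 : IsClosed {p : (Icc (-8 : ℝ) 8) × V | r ≤ R ((p.1 : ℝ), p.2)} :=
    isClosed_le continuous_const
      (hR.comp ((continuous_subtype_val.comp continuous_fst).prodMk continuous_snd))
  have h2 := isClosedMap_snd_of_compactSpace (X := Icc (-8 : ℝ) 8) (Y := V) _ h1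
  have h3 : {z : V | ∃ t ∈ Icc (-8 : ℝ) 8, r ≤ R (t, z)} =
      Prod.snd '' {p : (Icc (-8 : ℝ) 8) × V | r ≤ R ((p.1 : ℝ), p.2)} := by
    ext z
    constructor
    · rintro ⟨t, ht, h⟩
      exact ⟨(⟨t, ht⟩, z), h, rfl⟩
    · rintro ⟨⟨t, z'⟩, h, rfl⟩
      exact ⟨t, t.2, h⟩
  rw [h3]
  exact h2

/-- the condition `R(t, z) < r` for all `t ∈ I` is open in `z` -/
theorem isOpen_small {R : ℝ × V → ℝ} (hR : Continuous R) (r : ℝ) :
    IsOpen {z : V | ∀ t ∈ Icc (-8 : ℝ) 8, R (t, z) < r} := by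
  have h := (d09_closed hR r).isOpen_compl
  have h1 : {z : V | ∀ t ∈ Icc (-8 : ℝ) 8, R (t, z) < r} =
      {z : V | ∃ t ∈ Icc (-8 : ℝ) 8, r ≤ R (t, z)}ᶜ := by
    ext z
    simp only [mem_setOf_eq, mem_compl_iff, not_exists, not_and, not_le]
  rw [h1]
  exact h

/-- the condition `r < R(t, z)` for some `t ∈ I` is open in `z` -/
theorem isOpen_large {R : ℝ × V → ℝ} (hR : Continuous R) (r : ℝ) :
    IsOpen {z : V | ∃ t ∈ Icc (-8 : ℝ) 8, r < R (t, z)} := by
  have h1 : {z : V | ∃ t ∈ Icc (-8 : ℝ) 8, r < R (t, z)} =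
      ⋃ t ∈ Icc (-8 : ℝ) 8, {z : V | r < R (t, z)} := by
    ext z
    simp only [mem_setOf_eq, mem_iUnion, exists_prop]
  rw [h1]
  refine isOpen_biUnion fun t _ => ?_
  exact isOpen_lt continuous_const (hR.comp (continuous_const.prodMk continuous_id))

/-- the condition `r ≤ R(t, z)` for some `t ∈ I` is closed in `z` -/
theorem isClosed_large {R : ℝ × V → ℝ} (hR : Continuous R) (r : ℝ) :
    IsClosed {z : V | ∃ t ∈ Icc (-8 : ℝ) 8, r ≤ R (t, z)} :=
  d09_closed hR r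

theorem IA_small {R Ph : ℝ × V → ℝ} {c : ℝ} {K U : Set V} (h : Ana R Ph c K U) (e : ℤ) :
    OdV R (interior K) 1 e (IA R Ph) := by
  intro j
  -- the number of integrations by parts
  obtain ⟨n, hn⟩ : ∃ n : ℕ, 1 - (0 : ℤ) - (n : ℤ) ≤ e := by
    refine ⟨(1 - e).toNat, ?_⟩
    have := Int.self_le_toNat (1 - e)
    omega
  obtain ⟨H, sH, hH, hint⟩ := ibp_iter h.smoothR h.smoothP h.compact h.c_pos n chi_gd 0 0
    (b := fun _ => (1 : ℝ)) contDiff_const
  obtain ⟨C, hC, hb⟩ := (hH.toV sH) j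
  refine ⟨C, hC, fun k z₀ hz₀ hdeep => ?_⟩
  have hnn : 1 ≤ nn (k + 1) := one_le_nn (k + 1)
  have haa : 0 < aa (k + 1) := aa_pos (k + 1)
  -- the neighbourhood
  have hone : ((1 : ℝ) / 2) ^ k ≤ 1 := pow_le_one₀ (by norm_num) (by norm_num)
  have hO : IsOpen (interior K ∩ {z : V | ∀ t ∈ Icc (-8 : ℝ) 8, R (t, z) < 1 / 4}) :=
    isOpen_interior.inter (isOpen_small h.smoothR.continuous _)
  have hz₀O : z₀ ∈ interior K ∩ {z : V | ∀ t ∈ Icc (-8 : ℝ) 8, R (t, z) < 1 / 4} := by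
    refine ⟨hz₀, fun t ht => ?_⟩
    have := hdeep t ht
    linarith
  have heq : IA R Ph =ᶠ[𝓝 z₀] fun z => ∫ t in (-8 : ℝ)..8, H (t, z) := by
    filter_upwards [hO.mem_nhds hz₀O] with z hz
    obtain ⟨hzK, hzR⟩ := hz
    have hzK' := interior_subset hzK
    rw [← hint z (h.ends z hzK').1 (h.ends z hzK').2 fun t ht h0 =>
      h.phase z hzK' (fun s hs => (hzR s hs).trans (by norm_num)) t ht h0]
    refine intervalIntegral.integral_congr fun t ht => ?_
    rw [uIcc_of_le (by norm_num)] at ht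
    show FF (R (t, z)) (Ph (t, z)) = 1 * osc chi 0 0 (32 * R (t, z)) (Ph (t, z))
    rw [one_mul]
    exact FF_low (hzR t ht).le _
  rw [(Filter.EventuallyEq.iteratedFDeriv (𝕜 := ℝ) heq j).eq_of_nhds]
  refine (hb k z₀ (interior_subset hz₀) hdeep).trans ?_
  refine mul_le_mul_of_nonneg_left (mul_le_mul_of_nonneg_left ?_ (by positivity)) hC.le
  exact zpow_le_zpow_right₀ hnn (by omega)

end WR
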