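import Pool.Agent.helper97.WR.D04
import Pool.Agent.helper97.WR.D05
import Pool.Agent.helper97.WR.D06

/-!
# WR-D10: smoothness and size of `f` and `B`
(author: helper51)

* `fh_contDiff`: composition of `FF_smooth'` with `(R, Ph)`.
* smoothness of the integrals: `par_contDiff` (`expNegInvGlue.contDiff`).
* `fh_od`: at a point `(t, z)` with `32 R(t,z) ≤ 2^(-k) ≤ 1` we have `R(t,z) < 1/4`, so near this point
  `f = osc chi 0 0 (32 R) Ph` (`FF_low`), the derivatives agree, and `Od.osc` (with `b = 1`, `m = 0`)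
  applies.
* `f0_od`: `slice_bd`.  * `IB_od`: `Od.mul` and `Od.toV`.
-/

noncomputable section

namespace WR

open Set Filter Topology
open scoped ContDiff

variable {V : Type} [NormedAddCommGroup V] [NormedSpace ℝ V] [FiniteDimensional ℝ V]
variable {R Ph : ℝ × V → ℝ} {c : ℝ} {K U : Set V}

theorem fh_contDiff (h : Ana R Ph c K U) : ContDiff ℝ ∞ (fun y : ℝ × V => fh R Ph y.1 y.2) := by
  have h1 : ContDiff ℝ ∞ (fun y : ℝ × V => (R y, Ph y)) := h.smoothR.prodMk h.smoothP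
  have h2 := ContDiff.comp (g := fun q : ℝ × ℝ => FF q.1 q.2) (f := fun y : ℝ × V => (R y, Ph y))
    FF_smooth' h1
  have h3 : (fun y : ℝ × V => fh R Ph y.1 y.2) =
      (fun q : ℝ × ℝ => FF q.1 q.2) ∘ fun y : ℝ × V => (R y, Ph y) := rfl
  rw [h3]
  exact h2

theorem f0_contDiff (h : Ana R Ph c K U) : ContDiff ℝ ∞ (fun z : V => fh R Ph 0 z) := by
  have h1 : ContDiff ℝ ∞ (fun z : V => ((0 : ℝ), z)) := contDiff_const.prodMk contDiff_id
  exact ContDiff.comp (g := fun y : ℝ × V => fh R Ph y.1 y.2) (f := fun z : V => ((0 : ℝ), z))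
    (fh_contDiff h) h1

theorem IA_contDiff (h : Ana R Ph c K U) : ContDiff ℝ ∞ (IA R Ph) :=
  par_contDiff (H := fun y : ℝ × V => fh R Ph y.1 y.2) (fh_contDiff h)

theorem IB_contDiff (h : Ana R Ph c K U) : ContDiff ℝ ∞ (IB R Ph) :=
  par_contDiff (H := fun y : ℝ × V => fh R Ph y.1 y.2 ^ 2) ((fh_contDiff h).pow 2)

theorem IP_contDiff (h : Ana R Ph c K U) : ContDiff ℝ ∞ (IP R Ph) :=
  par_contDiff (H := fun y : ℝ × V => expNegInvGlue (fh R Ph y.1 y.2) * fh R Ph y.1 y.2)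
    ((expNegInvGlue.contDiff.comp (fh_contDiff h)).mul (fh_contDiff h))

theorem IN_contDiff (h : Ana R Ph c K U) : ContDiff ℝ ∞ (IN R Ph) :=
  par_contDiff (H := fun y : ℝ × V => expNegInvGlue (-fh R Ph y.1 y.2) * (-fh R Ph y.1 y.2))
    ((expNegInvGlue.contDiff.comp (fh_contDiff h).neg).mul (fh_contDiff h).neg)

theorem fh_od (h : Ana R Ph c K U) : Od R K 1 1 (fun y : ℝ × V => fh R Ph y.1 y.2) := by
  have h0 := Od.osc h.smoothR h.smoothP h.compact chi_gd 0 0
    (b := fun _ : ℝ × V => (1 : ℝ)) contDiff_const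
  intro j
  obtain ⟨C, hC, hb⟩ := h0 j
  refine ⟨C, hC, fun k t z ht hz hR => ?_⟩
  have hR1 : 32 * R (t, z) ≤ 1 := hR.trans (pow_le_one₀ (by norm_num) (by norm_num))
  have hR2 : R (t, z) < 1 / 4 := by linarith
  have hev : (fun y : ℝ × V => fh R Ph y.1 y.2) =ᶠ[𝓝 (t, z)]
      (fun y : ℝ × V => (1 : ℝ) * osc chi 0 0 (32 * R y) (Ph y)) := by
    have := h.smoothR.continuous.continuousAt.eventually_lt (continuousAt_const (y := (1 / 4 : ℝ))) hR2
    filter_upwards [this] with y hy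
    rw [one_mul]
    exact FF_low hy.le _
  have hev2 := Filter.EventuallyEq.eq_of_nhds (hev.iteratedFDeriv ℝ j)
  rw [hev2]
  have := hb k t z ht hz hR
  rw [sub_zero] at this
  exact this

theorem f0_od (h : Ana R Ph c K U) : OdV R K 1 1 (fun z : V => fh R Ph 0 z) := by
  intro j
  obtain ⟨C, hC, hb⟩ := fh_od h j
  refine ⟨C, hC, fun k z hz hR => ?_⟩
  have h0 : (0 : ℝ) ∈ Icc (-8 : ℝ) 8 := ⟨by norm_num, by norm_num⟩
  exact (slice_bd (H := fun y : ℝ × V => fh R Ph y.1 y.2) (fh_contDiff h) j 0 z).trans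
    (hb k 0 z h0 hz (hR 0 h0))

theorem IB_od (h : Ana R Ph c K U) : OdV R K 2 2 (IB R Ph) := by
  have h1 := Od.mul (fh_od h) (fh_od h) (fh_contDiff h) (fh_contDiff h)
  have h2 := Od.toV h1 ((fh_contDiff h).mul (fh_contDiff h))
  have h3 : IB R Ph = fun z => ∫ t in (-8 : ℝ)..8, fh R Ph t z * fh R Ph t z := by
    funext z
    simp only [IB, sq]
  rw [h3]
  exact h2

end WR
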