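import Pool.Agent.helper97.WR.D04

/-!
# WR-D11: the dominating layer

author: helper7

For `s` with `3/4 2^(-(k+1)) ≤ s ≤ 2^(-(k+1))`: layers `i ≤ k + 1` have `2^i s ≤ 1`, so they vanish;
layer `k + 2` has `2^(k+2) s ∈ [3/2, 2]`, so `chi = 1`; layer `k + 3` has amplitude `≤ a_(k+3) ≤ a_(k+2)/4`
(`0 ≤ chi ≤ 1`); layers `i ≥ k + 4` have `2^i s ≥ 6`, so they vanish.  So the sum has at most the two
terms `k + 2`, `k + 3` (`tsum_eq_sum` with the finite set `{k+2, k+3}`).  Here `m = 0`, `l = 0`: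
`oscT chi 0 0 i s p = a_i chi(2^i s) cos(N_i p)`.
-/

noncomputable section

namespace WR

open Set Filter Topology
open scoped ContDiff

theorem oscT_chi (i : ℕ) (s p : ℝ) :
    oscT chi 0 0 i s p = aa i * (chi (2 ^ i * s) * Real.cos (nn i * p)) := by
  unfold oscT
  simp

theorem osc_window {k : ℕ} {s : ℝ} (h1 : 3 / 4 * (1 / 2) ^ (k + 1) ≤ s) (h2 : s ≤ (1 / 2) ^ (k + 1))
    (p : ℝ) : |osc chi 0 0 s p - aa (k + 2) * Real.cos (nn (k + 2) * p)| ≤ aa (k + 2) / 4 := by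
  have hpow : (2 : ℝ) ^ (k + 1) * (1 / 2) ^ (k + 1) = 1 := by
    rw [← mul_pow]; norm_num
  have hzero : ∀ i ∉ ({k + 2, k + 3} : Finset ℕ), oscT chi 0 0 i s p = 0 := by
    intro i hi
    rw [oscT_chi]
    rcases Nat.lt_or_ge i (k + 2) with h | h
    · have h3 : (2 : ℝ) ^ i ≤ 2 ^ (k + 1) := pow_le_pow_right₀ (by norm_num) (by omega)
      have h4 : (2 : ℝ) ^ i * s ≤ 1 := by
        calc (2 : ℝ) ^ i * s ≤ 2 ^ i * (1 / 2) ^ (k + 1) :=
              mul_le_mul_of_nonneg_left h2 (by positivity)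
          _ ≤ 2 ^ (k + 1) * (1 / 2) ^ (k + 1) := mul_le_mul_of_nonneg_right h3 (by positivity)
          _ = 1 := hpow
      rw [chi_gd.low _ h4, zero_mul, mul_zero]
    · have h5 : k + 4 ≤ i := by
        simp only [Finset.mem_insert, Finset.mem_singleton] at hi
        omega
      have h3 : (2 : ℝ) ^ (k + 4) ≤ 2 ^ i := pow_le_pow_right₀ (by norm_num) h5
      have hs0 : 0 ≤ s := le_trans (by positivity) h1
      have h4 : 4 ≤ (2 : ℝ) ^ i * s := by
        calc (4 : ℝ) ≤ 8 * (3 / 4) * (2 ^ (k + 1) * (1 / 2) ^ (k + 1)) := by rw [hpow]; norm_num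
          _ = 2 ^ (k + 4) * (3 / 4 * (1 / 2) ^ (k + 1)) := by ring
          _ ≤ 2 ^ (k + 4) * s := mul_le_mul_of_nonneg_left h1 (by positivity)
          _ ≤ 2 ^ i * s := mul_le_mul_of_nonneg_right h3 hs0
      rw [chi_gd.high _ h4, zero_mul, mul_zero]
  have hsum : osc chi 0 0 s p = oscT chi 0 0 (k + 2) s p + oscT chi 0 0 (k + 3) s p := by
    unfold osc
    rw [tsum_eq_sum hzero, Finset.sum_pair (by omega)]
  have hone : chi (2 ^ (k + 2) * s) = 1 := by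
    apply chi_one
    · calc (3 / 2 : ℝ) = 2 * (3 / 4) * (2 ^ (k + 1) * (1 / 2) ^ (k + 1)) := by
            rw [hpow]; norm_num
        _ = 2 ^ (k + 2) * (3 / 4 * (1 / 2) ^ (k + 1)) := by ring
        _ ≤ 2 ^ (k + 2) * s := mul_le_mul_of_nonneg_left h1 (by positivity)
    · calc (2 : ℝ) ^ (k + 2) * s ≤ 2 ^ (k + 2) * (1 / 2) ^ (k + 1) :=
            mul_le_mul_of_nonneg_left h2 (by positivity)
        _ = 2 * (2 ^ (k + 1) * (1 / 2) ^ (k + 1)) := by ring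
        _ ≤ 3 := by rw [hpow]; norm_num
  have e1 : osc chi 0 0 s p - aa (k + 2) * Real.cos (nn (k + 2) * p)
      = oscT chi 0 0 (k + 3) s p := by
    rw [hsum, oscT_chi (k + 2), hone]
    ring
  rw [e1, oscT_chi, abs_mul, abs_of_pos (aa_pos _), abs_mul, abs_of_nonneg (chi_nonneg _)]
  have h6 : chi (2 ^ (k + 3) * s) * |Real.cos (nn (k + 3) * p)| ≤ 1 * 1 :=
    mul_le_mul (chi_le _) (Real.abs_cos_le_one _) (abs_nonneg _) zero_le_one
  calc aa (k + 3) * (chi (2 ^ (k + 3) * s) * |Real.cos (nn (k + 3) * p)|)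
      ≤ aa (k + 3) * (1 * 1) := mul_le_mul_of_nonneg_left h6 (aa_pos _).le
    _ = aa (k + 3) := by ring
    _ ≤ aa (k + 2) / 4 := aa_small' k

end WR
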