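import Mathlib

/-!
# WR-D12: passage through a window of depths (one variable)

`r` (depth) and `ph` (phase) are functions of `t ∈ I = [-8, 8]`, `|r'| ≤ L` on `I`, `|ph'| ≥ c` wherever
`r ≥ 0`; `r(-8) < 0`, and `r(t₀) ≥ w₂` for some `t₀ ∈ I`; `0 ≤ w₁ < w₂`.  Let `t₂` be the first time
in `[-8, t₀]` with `r = w₂` and `t₁` the last time in `[-8, t₂]` with `r = w₁` (intermediate value
theorem; closed sets have first and last elements, `IsCompact.exists_isLeast/isGreatest`).  On `[t₁, t₂]`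
we have `w₁ ≤ r ≤ w₂`.  Mean value theorem: `w₂ - w₁ = r t₂ - r t₁ ≤ L (t₂ - t₁)`, and
`|ph t₂ - ph t₁| = |ph'(ξ)| (t₂ - t₁) ≥ c (w₂ - w₁) / L`.  If `N c (w₂ - w₁) ≥ 2π L` then `N ph` maps
`[t₁, t₂]` onto an interval of length `≥ 2π`, which contains a multiple `2π i` and a number
`2π i' + π`: there `cos = 1`, `cos = -1`.
-/

noncomputable section

namespace WR

open Set Filter Topology

/-- an interval of length at least `2π` contains a multiple of `2π`, shifted by `d` -/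
private lemma exists_mult (d a b : ℝ) (hab : 2 * Real.pi ≤ b - a) :
    ∃ n : ℤ, a ≤ d + n * (2 * Real.pi) ∧ d + n * (2 * Real.pi) ≤ b := by
  have hpi := Real.two_pi_pos
  refine ⟨⌈(a - d) / (2 * Real.pi)⌉, ?_, ?_⟩
  · have h := Int.le_ceil ((a - d) / (2 * Real.pi))
    rw [div_le_iff₀ hpi] at h
    linarith
  · have h := (Int.ceil_lt_add_one ((a - d) / (2 * Real.pi))).le
    have h2 : (⌈(a - d) / (2 * Real.pi)⌉ : ℝ) * (2 * Real.pi) ≤ ((a - d) / (2 * Real.pi) + 1) * (2 * Real.pi) :=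
      mul_le_mul_of_nonneg_right h hpi.le
    have h3 : ((a - d) / (2 * Real.pi) + 1) * (2 * Real.pi) = a - d + 2 * Real.pi := by
      field_simp
    linarith

theorem passage {r r' ph ph' : ℝ → ℝ} (hr : ∀ t, HasDerivAt r (r' t) t)
    (hph : ∀ t, HasDerivAt ph (ph' t) t) {L c w₁ w₂ N : ℝ} (hc : 0 < c) (hN : 0 < N)
    (h0 : 0 ≤ w₁) (h12 : w₁ < w₂) (hL : ∀ t ∈ Icc (-8 : ℝ) 8, |r' t| ≤ L)
    (hph' : ∀ t ∈ Icc (-8 : ℝ) 8, 0 ≤ r t → c ≤ |ph' t|) (hr8 : r (-8) < 0) {t₀ : ℝ}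
    (ht₀ : t₀ ∈ Icc (-8 : ℝ) 8) (hw : w₂ ≤ r t₀) (hbig : 2 * Real.pi * L ≤ N * c * (w₂ - w₁)) :
    (∃ t ∈ Icc (-8 : ℝ) 8, w₁ ≤ r t ∧ r t ≤ w₂ ∧ Real.cos (N * ph t) = 1) ∧
    (∃ t ∈ Icc (-8 : ℝ) 8, w₁ ≤ r t ∧ r t ≤ w₂ ∧ Real.cos (N * ph t) = -1) := by
  have hrc : Continuous r := continuous_iff_continuousAt.2 fun t => (hr t).continuousAt
  have hpc : Continuous ph := continuous_iff_continuousAt.2 fun t => (hph t).continuousAt
  -- the last time with `r = w₁`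
  obtain ⟨t₁, ⟨ht1, ht1'⟩, hlast⟩ : ∃ t, IsGreatest (Icc (-8 : ℝ) t₀ ∩ r ⁻¹' {w₁}) t := by
    refine (isCompact_Icc.inter_right (isClosed_singleton.preimage hrc)).exists_isGreatest ?_
    obtain ⟨t, ht, htr⟩ := intermediate_value_Icc ht₀.1 hrc.continuousOn
      (show w₁ ∈ Icc (r (-8)) (r t₀) from ⟨by linarith, by linarith⟩)
    exact ⟨t, ht, htr⟩
  have ht1r : r t₁ = w₁ := ht1'
  -- the first time after `t₁` with `r = w₂`
  obtain ⟨t₂, ⟨ht2, ht2'⟩, hfirst⟩ : ∃ t, IsLeast (Icc t₁ t₀ ∩ r ⁻¹' {w₂}) t := by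
    refine (isCompact_Icc.inter_right (isClosed_singleton.preimage hrc)).exists_isLeast ?_
    obtain ⟨t, ht, htr⟩ := intermediate_value_Icc ht1.2 hrc.continuousOn
      (show w₂ ∈ Icc (r t₁) (r t₀) from ⟨by linarith, by linarith⟩)
    exact ⟨t, ht, htr⟩
  have ht2r : r t₂ = w₂ := ht2'
  have ht12 : t₁ < t₂ := by
    rcases lt_or_eq_of_le ht2.1 with h | h
    · exact h
    · rw [← h] at ht2r
      linarith
  have hI : ∀ t ∈ Icc t₁ t₂, t ∈ Icc (-8 : ℝ) 8 := fun t ht =>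
    ⟨ht1.1.trans ht.1, ht.2.trans (ht2.2.trans ht₀.2)⟩
  have hlow : ∀ t ∈ Icc t₁ t₂, w₁ ≤ r t := by
    intro t ht
    by_contra hcon
    push Not at hcon
    obtain ⟨s, hs, hsr⟩ := intermediate_value_Icc (ht.2.trans ht2.2) hrc.continuousOn
      (show w₁ ∈ Icc (r t) (r t₀) from ⟨hcon.le, by linarith⟩)
    have h1 : s ≤ t₁ := hlast ⟨⟨(ht1.1.trans ht.1).trans hs.1, hs.2⟩, hsr⟩
    have h2 : s = t := le_antisymm (h1.trans ht.1) hs.1
    rw [h2] at hsr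
    linarith
  have hhigh : ∀ t ∈ Icc t₁ t₂, r t ≤ w₂ := by
    intro t ht
    by_contra hcon
    push Not at hcon
    obtain ⟨s, hs, hsr⟩ := intermediate_value_Icc ht.1 hrc.continuousOn
      (show w₂ ∈ Icc (r t₁) (r t) from ⟨by linarith, hcon.le⟩)
    have h1 : t₂ ≤ s := hfirst ⟨⟨hs.1, hs.2.trans (ht.2.trans ht2.2)⟩, hsr⟩
    have h2 : s = t := le_antisymm hs.2 (ht.2.trans h1)
    rw [h2] at hsr
    linarith
  -- mean value theorem
  obtain ⟨ξ, hξ, hξ'⟩ := exists_hasDerivAt_eq_slope r r' ht12 hrc.continuousOn (fun t _ => hr t)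
  obtain ⟨η, hη, hη'⟩ := exists_hasDerivAt_eq_slope ph ph' ht12 hpc.continuousOn (fun t _ => hph t)
  have hd : 0 < t₂ - t₁ := by linarith
  have e1 : w₂ - w₁ ≤ L * (t₂ - t₁) := by
    have h1 : r' ξ * (t₂ - t₁) = w₂ - w₁ := by
      rw [hξ', ht1r, ht2r]; field_simp
    have h2 : r' ξ ≤ L := (le_abs_self _).trans (hL ξ (hI ξ (Ioo_subset_Icc_self hξ)))
    nlinarith
  have hLp : 0 < L := by
    by_contra hcon
    push Not at hcon
    nlinarith
  have e2 : 2 * Real.pi ≤ N * c * (t₂ - t₁) := by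
    have h1 : 2 * Real.pi * L ≤ (N * c * (t₂ - t₁)) * L := by
      have : N * c * (w₂ - w₁) ≤ N * c * (L * (t₂ - t₁)) := mul_le_mul_of_nonneg_left e1 (by positivity)
      linarith
    exact le_of_mul_le_mul_right h1 hLp
  have e3 : c * (t₂ - t₁) ≤ |ph t₂ - ph t₁| := by
    have h1 : ph t₂ - ph t₁ = ph' η * (t₂ - t₁) := by rw [hη']; field_simp
    have h2 := hph' η (hI η (Ioo_subset_Icc_self hη)) (h0.trans (hlow η (Ioo_subset_Icc_self hη)))
    rw [h1, abs_mul, abs_of_pos hd]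
    exact mul_le_mul_of_nonneg_right h2 hd.le
  have e4 : 2 * Real.pi ≤ |N * ph t₂ - N * ph t₁| := by
    have h1 : N * ph t₂ - N * ph t₁ = N * (ph t₂ - ph t₁) := by ring
    rw [h1, abs_mul, abs_of_pos hN]
    nlinarith
  have hphN : ContinuousOn (fun t => N * ph t) (uIcc t₁ t₂) := (continuous_const.mul hpc).continuousOn
  have himg := intermediate_value_uIcc hphN
  have key : ∀ d : ℝ, ∃ t ∈ Icc t₁ t₂, ∃ n : ℤ, N * ph t = d + n * (2 * Real.pi) := by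
    intro d
    have h1 : 2 * Real.pi ≤ max (N * ph t₁) (N * ph t₂) - min (N * ph t₁) (N * ph t₂) := by
      rw [max_sub_min_eq_abs]; exact e4
    obtain ⟨n, hn1, hn2⟩ := exists_mult d _ _ h1
    obtain ⟨t, ht, htn⟩ := himg (show d + n * (2 * Real.pi) ∈ uIcc (N * ph t₁) (N * ph t₂) from ⟨hn1, hn2⟩)
    rw [uIcc_of_le ht12.le] at ht
    exact ⟨t, ht, n, htn⟩
  constructor
  · obtain ⟨t, ht, n, hn⟩ := key 0
    refine ⟨t, hI t ht, hlow t ht, hhigh t ht, ?_⟩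
    rw [hn, zero_add, Real.cos_int_mul_two_pi]
  · obtain ⟨t, ht, n, hn⟩ := key Real.pi
    refine ⟨t, hI t ht, hlow t ht, hhigh t ht, ?_⟩
    rw [hn, Real.cos_add_int_mul_two_pi, Real.cos_pi]

end WR
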