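import Pool.Agent.helper97.WR.D07
import Pool.Agent.helper97.WR.D09
import Pool.Agent.helper97.WR.D10
import Pool.Agent.helper97.WR.D11
import Pool.Agent.helper97.WR.D12

/-!
# WR-D13: both signs on every orbit that meets the support (author: helper14)

* `exists_L`: `∂_t R`, `∂_t Ph` are continuous, so bounded on the compact set `I × K`.
* `signs`: let `z ∈ K`, `R(t₀, z) > 0`.  If `R(t, z) ≥ 1` for some `t`, then (as `R(-8, z) < 0`) the
  intermediate value theorem gives times with `R = 3/8` and `R = 3/4`: `FF_pos'`, `FF_neg'`.  Otherwise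
  the hypothesis `phase` of `Ana` gives `|∂_t Ph| ≥ c` wherever `R ≥ 0`.  Choose `k` so large that
  `2^(-(k+1)) ≤ 32 R(t₀, z)`, and `2π 32 L ≤ N_(k+2) c 2^(-(k+1)) / 4` (`nn_large`), and apply `passage`
  to `r = 32 R(·, z)`, `w₁ = 3/4 2^(-(k+1))`, `w₂ = 2^(-(k+1))`: times with `cos (N_(k+2) Ph) = ±1`; there
  `32 R ≤ 1`, `f = osc chi 0 0 (32 R) Ph` (`FF_low`) and `osc_window` gives
  `f ≥ a_(k+2) 3/4 > 0`, resp. `f ≤ -a_(k+2) 3/4 < 0`.
* `IB_pos` etc.: the integrand is continuous, nonnegative (`x ↦ expNegInvGlue x * x ≥ 0`,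
  `expNegInvGlue x * x > 0` for `x > 0`), and positive at some point of `I`
  (`intervalIntegral.integral_pos`).
* `no_meet`: if `R(t, z) ≤ 0` for all `t ∈ I` then `f(t, z) = 0` on `I`, all four integrals vanish.
-/

noncomputable section

namespace WR

open Set Filter Topology
open scoped ContDiff

variable {V : Type} [NormedAddCommGroup V] [NormedSpace ℝ V] [FiniteDimensional ℝ V]
variable {R Ph : ℝ × V → ℝ} {c : ℝ} {K U : Set V}

theorem exists_L (h : Ana R Ph c K U) : ∃ L : ℝ, 1 ≤ L ∧ ∀ t ∈ Icc (-8 : ℝ) 8, ∀ z ∈ K,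
    |dt R (t, z)| ≤ L ∧ |dt Ph (t, z)| ≤ L := by
  have hc : IsCompact (Icc (-8 : ℝ) 8 ×ˢ K) := isCompact_Icc.prod h.compact
  obtain ⟨C₁, h₁⟩ := hc.exists_bound_of_continuousOn
    (dt_contDiff h.smoothR).continuous.continuousOn
  obtain ⟨C₂, h₂⟩ := hc.exists_bound_of_continuousOn
    (dt_contDiff h.smoothP).continuous.continuousOn
  refine ⟨max 1 (max C₁ C₂), le_max_left _ _, fun t ht z hz => ⟨?_, ?_⟩⟩
  · exact (h₁ (t, z) ⟨ht, hz⟩).trans ((le_max_left _ _).trans (le_max_right _ _))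
  · exact (h₂ (t, z) ⟨ht, hz⟩).trans ((le_max_right _ _).trans (le_max_right _ _))

theorem signs (h : Ana R Ph c K U) {z : V} (hz : z ∈ K) (hpos : ∃ t ∈ Icc (-8 : ℝ) 8, 0 < R (t, z)) :
    (∃ t ∈ Icc (-8 : ℝ) 8, 0 < fh R Ph t z) ∧ (∃ t ∈ Icc (-8 : ℝ) 8, fh R Ph t z < 0) := by
  obtain ⟨t₀, ht₀, hR₀⟩ := hpos
  have hcont : Continuous fun t : ℝ => R (t, z) :=
    h.smoothR.continuous.comp (Continuous.prodMk_left z)
  have hend := (h.ends z hz).2
  by_cases hA : ∃ t ∈ Icc (-8 : ℝ) 8, 1 ≤ R (t, z)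
  · obtain ⟨t₁, ht₁, hR₁⟩ := hA
    have hiv := intermediate_value_Icc ht₁.1 hcont.continuousOn
    obtain ⟨s₁, hs₁, e₁⟩ := hiv (show (3 / 8 : ℝ) ∈ Icc (R (-8, z)) (R (t₁, z)) from
      ⟨by linarith, by linarith⟩)
    obtain ⟨s₂, hs₂, e₂⟩ := hiv (show (3 / 4 : ℝ) ∈ Icc (R (-8, z)) (R (t₁, z)) from
      ⟨by linarith, by linarith⟩)
    refine ⟨⟨s₁, ⟨hs₁.1, hs₁.2.trans ht₁.2⟩, ?_⟩, ⟨s₂, ⟨hs₂.1, hs₂.2.trans ht₁.2⟩, ?_⟩⟩
    · have e₁' : R (s₁, z) = 3 / 8 := e₁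
      unfold fh
      rw [e₁']
      exact FF_pos' _
    · have e₂' : R (s₂, z) = 3 / 4 := e₂
      unfold fh
      rw [e₂']
      exact FF_neg' _
  · push Not at hA
    have hph := h.phase z hz hA
    obtain ⟨L, hL1, hL⟩ := exists_L h
    have hLpos : 0 < L := by linarith
    have hc := h.c_pos
    obtain ⟨K₀, hK₀⟩ := nn_large (512 * Real.pi * L / c)
    obtain ⟨k₁, hk₁⟩ := exists_pow_lt_of_lt_one (show (0 : ℝ) < 32 * R (t₀, z) by linarith)
      (show (1 / 2 : ℝ) < 1 by norm_num)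
    set k := max K₀ k₁ with hk
    have hpow : (1 / 2 : ℝ) ^ (k + 1) ≤ 32 * R (t₀, z) := by
      refine (pow_le_pow_of_le_one (by norm_num) (by norm_num) ?_).trans hk₁.le
      exact (le_max_right _ _).trans (Nat.le_succ _)
    have hbig := hK₀ k (le_max_left _ _)
    have hw : (0 : ℝ) < (1 / 2) ^ (k + 1) := by positivity
    have h2k : (0 : ℝ) < 2 ^ k := by positivity
    have hprod : (2 : ℝ) ^ k * (1 / 2) ^ (k + 1) = 1 / 2 := by
      rw [pow_succ, ← mul_assoc, ← mul_pow]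
      norm_num
    have hpi := Real.pi_pos
    have hbig' : 2 * Real.pi * (32 * L) ≤
        nn (k + 2) * c * ((1 / 2) ^ (k + 1) - 3 / 4 * (1 / 2) ^ (k + 1)) := by
      have e1 : 512 * Real.pi * L / c * 2 ^ k * (c * (1 / 4 * (1 / 2) ^ (k + 1))) ≤
          nn (k + 2) * (c * (1 / 4 * (1 / 2) ^ (k + 1))) :=
        mul_le_mul_of_nonneg_right hbig (by positivity)
      have e2 : 512 * Real.pi * L / c * 2 ^ k * (c * (1 / 4 * (1 / 2) ^ (k + 1))) =
          128 * Real.pi * L * (2 ^ k * (1 / 2) ^ (k + 1)) := by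
        field_simp
        ring
      rw [e2, hprod] at e1
      calc 2 * Real.pi * (32 * L) = 128 * Real.pi * L * (1 / 2) := by ring
        _ ≤ _ := e1
        _ = _ := by ring
    obtain ⟨⟨s₁, hs₁, a₁, b₁, c₁⟩, ⟨s₂, hs₂, a₂, b₂, c₂⟩⟩ := passage
      (r := fun t => 32 * R (t, z)) (r' := fun t => 32 * dt R (t, z))
      (ph := fun t => Ph (t, z)) (ph' := fun t => dt Ph (t, z))
      (L := 32 * L) (c := c) (w₁ := 3 / 4 * (1 / 2) ^ (k + 1)) (w₂ := (1 / 2) ^ (k + 1))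
      (N := nn (k + 2))
      (fun t => (dt_hasDerivAt h.smoothR t z).const_mul 32)
      (fun t => dt_hasDerivAt h.smoothP t z) hc (nn_pos _) (by positivity) (by linarith)
      (fun t ht => by
        rw [abs_mul, abs_of_pos (by norm_num : (0 : ℝ) < 32)]
        exact mul_le_mul_of_nonneg_left (hL t ht z hz).1 (by norm_num))
      (fun t ht h0 => hph t ht (by linarith))
      (by linarith) ht₀ hpow hbig'
    have haa := aa_pos (k + 2)
    have hw1 : (1 / 2 : ℝ) ^ (k + 1) ≤ 1 := pow_le_one₀ (by norm_num) (by norm_num)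
    refine ⟨⟨s₁, hs₁, ?_⟩, ⟨s₂, hs₂, ?_⟩⟩
    · have hq := abs_le.1 (osc_window a₁ b₁ (Ph (s₁, z)))
      have b₁' : 32 * R (s₁, z) ≤ (1 / 2) ^ (k + 1) := b₁
      have c₁' : Real.cos (nn (k + 2) * Ph (s₁, z)) = 1 := c₁
      unfold fh
      rw [FF_low (by linarith)]
      rw [c₁'] at hq
      linarith [hq.1]
    · have hq := abs_le.1 (osc_window a₂ b₂ (Ph (s₂, z)))
      have b₂' : 32 * R (s₂, z) ≤ (1 / 2) ^ (k + 1) := b₂
      have c₂' : Real.cos (nn (k + 2) * Ph (s₂, z)) = -1 := c₂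
      unfold fh
      rw [FF_low (by linarith)]
      rw [c₂'] at hq
      linarith [hq.2]

private theorem glue_mul_nonneg (x : ℝ) : 0 ≤ expNegInvGlue x * x := by
  rcases le_or_gt x 0 with hx | hx
  · rw [expNegInvGlue.zero_of_nonpos hx, zero_mul]
  · exact mul_nonneg (expNegInvGlue.nonneg x) hx.le

private theorem glue_mul_pos {x : ℝ} (hx : 0 < x) : 0 < expNegInvGlue x * x :=
  mul_pos (expNegInvGlue.pos_of_pos hx) hx

private theorem fh_cont (h : Ana R Ph c K U) (z : V) : Continuous fun t : ℝ => fh R Ph t z :=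
  (fh_contDiff h).continuous.comp (Continuous.prodMk_left z)

private theorem glue_cont : Continuous expNegInvGlue :=
  (expNegInvGlue.contDiff (n := 0)).continuous

theorem IB_pos (h : Ana R Ph c K U) {z : V} (hz : z ∈ K)
    (hpos : ∃ t ∈ Icc (-8 : ℝ) 8, 0 < R (t, z)) : 0 < IB R Ph z := by
  obtain ⟨⟨t, ht, hf⟩, -⟩ := signs h hz hpos
  exact intervalIntegral.integral_pos (by norm_num) ((fh_cont h z).pow 2).continuousOn
    (fun _ _ => sq_nonneg _) ⟨t, ht, by positivity⟩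

theorem IP_pos (h : Ana R Ph c K U) {z : V} (hz : z ∈ K)
    (hpos : ∃ t ∈ Icc (-8 : ℝ) 8, 0 < R (t, z)) : 0 < IP R Ph z := by
  obtain ⟨⟨t, ht, hf⟩, -⟩ := signs h hz hpos
  exact intervalIntegral.integral_pos (by norm_num)
    ((glue_cont.comp (fh_cont h z)).mul (fh_cont h z)).continuousOn
    (fun _ _ => glue_mul_nonneg _) ⟨t, ht, glue_mul_pos hf⟩

theorem IN_pos (h : Ana R Ph c K U) {z : V} (hz : z ∈ K)
    (hpos : ∃ t ∈ Icc (-8 : ℝ) 8, 0 < R (t, z)) : 0 < IN R Ph z := by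
  obtain ⟨-, ⟨t, ht, hf⟩⟩ := signs h hz hpos
  exact intervalIntegral.integral_pos (by norm_num)
    ((glue_cont.comp (fh_cont h z).neg).mul (fh_cont h z).neg).continuousOn
    (fun _ _ => glue_mul_nonneg _) ⟨t, ht, glue_mul_pos (neg_pos.2 hf)⟩

theorem no_meet {z : V} (hn : ∀ t ∈ Icc (-8 : ℝ) 8, R (t, z) ≤ 0) :
    (∀ t ∈ Icc (-8 : ℝ) 8, fh R Ph t z = 0) ∧ IA R Ph z = 0 ∧ IB R Ph z = 0 ∧ IP R Ph z = 0 ∧
      IN R Ph z = 0 := by
  have h0 : ∀ t ∈ Icc (-8 : ℝ) 8, fh R Ph t z = 0 := fun t ht => FF_zero' (hn t ht) _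
  have h0' : ∀ t ∈ uIcc (-8 : ℝ) 8, fh R Ph t z = 0 := by
    rw [uIcc_of_le (by norm_num)]
    exact h0
  refine ⟨h0, ?_, ?_, ?_, ?_⟩
  · unfold IA
    rw [intervalIntegral.integral_congr (g := fun _ => (0 : ℝ)) fun t ht => h0' t ht]
    simp
  · unfold IB
    rw [intervalIntegral.integral_congr (g := fun _ => (0 : ℝ)) fun t ht => by
      simp only [h0' t ht]; norm_num]
    simp
  · unfold IP
    rw [intervalIntegral.integral_congr (g := fun _ => (0 : ℝ)) fun t ht => by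
      simp only [h0' t ht, mul_zero]]
    simp
  · unfold IN
    rw [intervalIntegral.integral_congr (g := fun _ => (0 : ℝ)) fun t ht => by
      simp only [h0' t ht, neg_zero, mul_zero]]
    simp

end WR
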