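import Pool.Agent.helper97.WR.D13

/-!
# WR-D14: lower bound of `B` (author: helper99)

Let `L ≥ 1` be the bound of `exists_L`, `h = 1 / (4 N_(k+2) L)`.  Let `z ∈ K` be an orbit with
`32 R(t, z) ≤ 2^(-k)` for all `t ∈ I` (so `R < 1`, the hypothesis `phase` applies) and
`32 R(t₀, z) ≥ 2^(-(k+1))` for some `t₀`.  Apply `passage` with the smaller window
`w₁ = 4/5 2^(-(k+1))`, `w₂ = 19/20 2^(-(k+1))` (for `k` large `2π 32 L ≤ N_(k+2) c (w₂ - w₁)`,
`nn_large`): there is `s` with `32 R(s, z) ∈ [w₁, w₂]`, `cos(N_(k+2) Ph(s, z)) = 1`.  For `t ∈ I`,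
`|t - s| ≤ h`: `|32 R(t) - 32 R(s)| ≤ 32 L h = 8 / N_(k+2) ≤ 2^(-(k+1)) / 20` for `k` large, so
`32 R(t) ∈ [3/4 2^(-(k+1)), 2^(-(k+1))]`; `cos(N_(k+2) Ph(t)) ≥ 1 - N_(k+2) L h = 3/4`; by `osc_window`
`f(t) ≥ a_(k+2) (3/4 - 1/4) = a_(k+2)/2`.  One of the intervals `[s, s + h]`, `[s - h, s]` is contained
in `I` (`h ≤ 1/4`), so `B ≥ h a_(k+2)²/4 = a_(k+2)² / (16 L N_(k+2))`.
-/

noncomputable section

namespace WR

open Set Filter Topology
open scoped ContDiff

variable {V : Type} [NormedAddCommGroup V] [NormedSpace ℝ V] [FiniteDimensional ℝ V]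
variable {R Ph : ℝ × V → ℝ} {c : ℝ} {K U : Set V}

private theorem lip_of_dt {H : ℝ × V → ℝ} (hH : ContDiff ℝ ∞ H) {z : V} {L : ℝ}
    (hL : ∀ t ∈ Icc (-8 : ℝ) 8, |dt H (t, z)| ≤ L) {s t : ℝ} (hs : s ∈ Icc (-8 : ℝ) 8)
    (ht : t ∈ Icc (-8 : ℝ) 8) : |H (t, z) - H (s, z)| ≤ L * |t - s| := by
  have := Convex.norm_image_sub_le_of_norm_hasDerivWithin_le (f := fun u => H (u, z))
    (f' := fun u => dt H (u, z)) (C := L) (s := Icc (-8 : ℝ) 8) (x := s) (y := t)
    (fun u _ => (dt_hasDerivAt hH u z).hasDerivWithinAt)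
    (fun u hu => by rw [Real.norm_eq_abs]; exact hL u hu) (convex_Icc _ _) hs ht
  simpa [Real.norm_eq_abs] using this

private theorem int_lower {g : ℝ → ℝ} (hg : Continuous g) (hg0 : ∀ t, 0 ≤ g t) {s h m : ℝ}
    (hs : s ∈ Icc (-8 : ℝ) 8) (h0 : 0 ≤ h) (h1 : h ≤ 1)
    (hm : ∀ t ∈ Icc (-8 : ℝ) 8, |t - s| ≤ h → m ≤ g t) :
    h * m ≤ ∫ t in (-8 : ℝ)..8, g t := by
  have key : ∀ a b : ℝ, -8 ≤ a → a ≤ b → b ≤ 8 → b - a = h → (∀ t ∈ Icc a b, |t - s| ≤ h) →
      h * m ≤ ∫ t in (-8 : ℝ)..8, g t := by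
    intro a b ha hab hb hba ht
    have h2 : ∫ t in a..b, g t ≤ ∫ t in (-8 : ℝ)..8, g t :=
      intervalIntegral.integral_mono_interval ha hab hb
        (Filter.Eventually.of_forall fun t => hg0 t) (hg.intervalIntegrable _ _)
    have h3 : ∫ _ in a..b, m ≤ ∫ t in a..b, g t :=
      intervalIntegral.integral_mono_on hab (by simp) (hg.intervalIntegrable _ _)
        (fun t hT => hm t ⟨by linarith [hT.1], by linarith [hT.2]⟩ (ht t hT))
    have h4 : ∫ _ in a..b, m = h * m := by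
      rw [intervalIntegral.integral_const, smul_eq_mul, hba]
    rw [← h4]
    exact h3.trans h2
  rcases le_total s 0 with h5 | h5
  · refine key s (s + h) hs.1 (by linarith) (by linarith) (by ring) ?_
    intro t ht
    rw [abs_of_nonneg (by linarith [ht.1])]
    linarith [ht.2]
  · refine key (s - h) s (by linarith) (by linarith) hs.2 (by ring) ?_
    intro t ht
    rw [abs_of_nonpos (by linarith [ht.2])]
    linarith [ht.1]

theorem IB_lower (h : Ana R Ph c K U) : ∃ (C : ℝ) (k₀ : ℕ), 0 < C ∧ ∀ k, k₀ ≤ k → ∀ z ∈ K,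
    (∀ t ∈ Icc (-8 : ℝ) 8, 32 * R (t, z) ≤ (1 / 2) ^ k) →
    (∃ t ∈ Icc (-8 : ℝ) 8, (1 / 2) ^ (k + 1) ≤ 32 * R (t, z)) →
    C * (aa (k + 2) ^ 2 / nn (k + 2)) ≤ IB R Ph z := by
  obtain ⟨L, hL1, hL⟩ := exists_L h
  have hL0 : 0 < L := lt_of_lt_of_le one_pos hL1
  have hc := h.c_pos
  obtain ⟨K₁, hK₁⟩ := nn_large (2 * (2 * Real.pi * (32 * L) * (20 / 3) / c))
  obtain ⟨K₂, hK₂⟩ := nn_large 320
  refine ⟨1 / (16 * L), max K₁ K₂, by positivity, ?_⟩
  intro k hk z hz hup hlo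
  have hN0 : 0 < nn (k + 2) := nn_pos _
  have hN1 : 1 ≤ nn (k + 2) := one_le_nn _
  have ha0 : 0 < aa (k + 2) := aa_pos _
  set N := nn (k + 2) with hN
  set a := aa (k + 2) with ha
  have hbig1 := hK₁ k ((le_max_left _ _).trans hk)
  have hbig2 := hK₂ k ((le_max_right _ _).trans hk)
  rw [← hN] at hbig1 hbig2
  -- the powers of `1/2`
  set w : ℝ := (1 / 2) ^ (k + 1) with hw
  have hw0 : 0 < w := by positivity
  have hpow : w * 2 ^ k = 1 / 2 := by
    rw [hw, pow_succ, mul_right_comm, ← mul_pow]; norm_num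
  have hk1 : ((1 : ℝ) / 2) ^ k ≤ 1 := pow_le_one₀ (by norm_num) (by norm_num)
  have hk2 : ((1 : ℝ) / 2) ^ k = 2 * w := by rw [hw, pow_succ]; ring
  have hNw : 160 ≤ N * w := by
    have := mul_le_mul_of_nonneg_right hbig2 hw0.le
    nlinarith
  have hNw1 : 2 * Real.pi * (32 * L) ≤ N * c * (19 / 20 * w - 4 / 5 * w) := by
    have h1 := mul_le_mul_of_nonneg_right hbig1 (mul_nonneg hw0.le hc.le)
    have h2 : 2 * (2 * Real.pi * (32 * L) * (20 / 3) / c) * 2 ^ k * (w * c)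
        = 2 * Real.pi * (32 * L) * (20 / 3) := by
      have : 2 * (2 * Real.pi * (32 * L) * (20 / 3) / c) * 2 ^ k * (w * c)
        = 2 * (2 * Real.pi * (32 * L) * (20 / 3)) * (w * 2 ^ k) * (c / c) := by ring
      rw [this, hpow, div_self hc.ne']
      ring
    rw [h2] at h1
    nlinarith
  have hR1 : ∀ t ∈ Icc (-8 : ℝ) 8, R (t, z) < 1 := by
    intro t ht
    have := hup t ht
    linarith
  obtain ⟨t₀, ht₀, hlo₀⟩ := hlo
  have hpass := (passage (r := fun t => 32 * R (t, z)) (r' := fun t => 32 * dt R (t, z))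
    (ph := fun t => Ph (t, z)) (ph' := fun t => dt Ph (t, z))
    (fun t => (dt_hasDerivAt h.smoothR t z).const_mul 32) (fun t => dt_hasDerivAt h.smoothP t z)
    (L := 32 * L) (c := c) (w₁ := 4 / 5 * w) (w₂ := 19 / 20 * w) (N := N) hc hN0
    (by positivity) (by linarith)
    (fun t ht => by
      rw [abs_mul, abs_of_pos (by norm_num : (0 : ℝ) < 32)]
      exact mul_le_mul_of_nonneg_left (hL t ht z hz).1 (by norm_num))
    (fun t ht hrt => h.phase z hz hR1 t ht (by linarith))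
    (by have := (h.ends z hz).2; linarith) ht₀ (by linarith) hNw1).1
  obtain ⟨s, hs, hs1, hs2, hs3⟩ := hpass
  -- the small interval
  set δ : ℝ := 1 / (4 * N * L) with hδ
  have hδ0 : 0 < δ := by positivity
  have hδ1 : δ ≤ 1 := by
    rw [hδ, div_le_one (by positivity)]
    nlinarith
  have hNLδ : N * (L * δ) = 1 / 4 := by
    rw [hδ]; field_simp
  have hpoint : ∀ t ∈ Icc (-8 : ℝ) 8, |t - s| ≤ δ → (a / 2) ^ 2 ≤ fh R Ph t z ^ 2 := by
    intro t ht hts
    have e1 : |R (t, z) - R (s, z)| ≤ L * δ :=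
      (lip_of_dt h.smoothR (fun u hu => (hL u hu z hz).1) hs ht).trans
        (mul_le_mul_of_nonneg_left hts hL0.le)
    have e2 : |Ph (t, z) - Ph (s, z)| ≤ L * δ :=
      (lip_of_dt h.smoothP (fun u hu => (hL u hu z hz).2) hs ht).trans
        (mul_le_mul_of_nonneg_left hts hL0.le)
    have e3 : 32 * (L * δ) ≤ w / 20 := by
      have : N * (32 * (L * δ)) ≤ N * (w / 20) := by nlinarith
      exact le_of_mul_le_mul_left this hN0
    have e4 := abs_le.1 e1
    have b1 : 3 / 4 * w ≤ 32 * R (t, z) := by linarith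
    have b2 : 32 * R (t, z) ≤ w := by linarith
    have e5 : 3 / 4 ≤ Real.cos (N * Ph (t, z)) := by
      have h1 : |Real.cos (N * Ph (t, z)) - Real.cos (N * Ph (s, z))|
          ≤ |N * Ph (t, z) - N * Ph (s, z)| := Real.abs_cos_sub_cos_le _ _
      have h2 : |N * Ph (t, z) - N * Ph (s, z)| ≤ 1 / 4 := by
        rw [← mul_sub, abs_mul, abs_of_pos hN0, ← hNLδ]
        exact mul_le_mul_of_nonneg_left e2 hN0.le
      have h3 := (abs_le.1 (h1.trans h2)).1
      rw [hs3] at h3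
      linarith
    have e6 := osc_window (k := k) (s := 32 * R (t, z)) b1 b2 (Ph (t, z))
    rw [← hN, ← ha] at e6
    have e7 : fh R Ph t z = osc chi 0 0 (32 * R (t, z)) (Ph (t, z)) := by
      unfold fh
      exact FF_low (by have := hup t ht; linarith) _
    have e8 : a / 2 ≤ fh R Ph t z := by
      rw [e7]
      have := (abs_le.1 e6).1
      nlinarith
    exact pow_le_pow_left₀ (by positivity) e8 2
  have hcont : Continuous fun t => fh R Ph t z ^ 2 := by
    have h1 : Continuous fun t : ℝ => fh R Ph (t, z).1 (t, z).2 :=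
      (fh_contDiff h).continuous.comp (continuous_id.prodMk continuous_const)
    exact h1.pow 2
  have hfin := int_lower hcont (fun t => sq_nonneg _) hs hδ0.le hδ1 hpoint
  unfold IB
  refine le_trans (le_of_eq ?_) hfin
  rw [hδ]
  field_simp
  norm_num

end WR
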