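import Mathlib

/-!
# WR-D15: derivatives of a quotient (author: helper99)

For every `n` there is `C` such that: if at a point `z` all derivatives of orders `≤ n` of `f`, `A`, `B`
are bounded by `α`, `β`, `γ`, and `B z ≥ δ > 0`, `δ ≤ γ`, then the derivative of order `n` of `f A / B` at `z`
is bounded by `C α β γ^n / δ^(n+1)`.

Proof.  `B̃ = B/δ` satisfies `B̃ z ≥ 1` and `‖D^i B̃ z‖ ≤ Γ = γ/δ`, `Γ ≥ 1`, so `≤ Γ^i` for `i ≥ 1`.  The
function `x ↦ x⁻¹` has `‖D^i inv x‖ ≤ i!` for `x ≥ 1`; `norm_iteratedFDerivWithin_comp_le` on the open set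
where `B > 0` gives `‖D^i (1/B̃) z‖ ≤ (i!)² Γ^i ≤ (n!)² Γ^n`; then
Leibniz (`norm_iteratedFDerivWithin_mul_le`) twice.
-/

noncomputable section

namespace WR

open Set Filter Topology
open scoped ContDiff

private theorem inv_bd (i : ℕ) {y : ℝ} (hy : 1 ≤ y) :
    ‖iteratedFDerivWithin ℝ i (fun x : ℝ => x⁻¹) (Ioi 0) y‖ ≤ i.factorial := by
  have hy0 : y ∈ Ioi (0 : ℝ) := lt_of_lt_of_le one_pos hy
  rw [norm_iteratedFDerivWithin_eq_norm_iteratedDerivWithin,
    iteratedDerivWithin_of_isOpen isOpen_Ioi hy0, iteratedDeriv_eq_iterate, iter_deriv_inv']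
  simp only [norm_mul, norm_pow, norm_neg, norm_one, one_pow, one_mul]
  have h1 : ‖(i.factorial : ℝ)‖ = i.factorial := by simp
  have h2 : ‖y ^ (-1 - (i : ℤ))‖ ≤ 1 := by
    rw [norm_zpow, Real.norm_of_nonneg (le_of_lt hy0)]
    exact zpow_le_one_of_nonpos₀ hy (by omega)
  rw [h1]
  exact mul_le_of_le_one_right (Nat.cast_nonneg _) h2

theorem quot_bd (n : ℕ) : ∃ C : ℝ, 0 < C ∧ ∀ {V : Type} [NormedAddCommGroup V] [NormedSpace ℝ V]
    {f A B : V → ℝ} (_ : ContDiff ℝ ∞ f) (_ : ContDiff ℝ ∞ A) (_ : ContDiff ℝ ∞ B) (z : V)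
    (α β γ δ : ℝ) (_ : ∀ i ≤ n, ‖iteratedFDeriv ℝ i f z‖ ≤ α)
    (_ : ∀ i ≤ n, ‖iteratedFDeriv ℝ i A z‖ ≤ β) (_ : ∀ i ≤ n, ‖iteratedFDeriv ℝ i B z‖ ≤ γ)
    (_ : 0 < δ) (_ : δ ≤ B z) (_ : δ ≤ γ),
    ‖iteratedFDeriv ℝ n (fun x => f x * A x / B x) z‖ ≤ C * (α * β * γ ^ n / δ ^ (n + 1)) := by
  refine ⟨4 ^ n * (n.factorial : ℝ) ^ 2, by positivity, ?_⟩
  intro V _ _ f A B hf hA hB z α β γ δ bf bA bB hδ hδB hδγ
  have hγ : 0 < γ := lt_of_lt_of_le hδ hδγ
  set S : Set V := {x | 0 < B x} with hS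
  have hSo : IsOpen S := isOpen_lt continuous_const hB.continuous
  have hSu : UniqueDiffOn ℝ S := hSo.uniqueDiffOn
  have hzS : z ∈ S := lt_of_lt_of_le hδ hδB
  have hα : 0 ≤ α := le_trans (norm_nonneg _) (bf 0 (Nat.zero_le _))
  have hβ : 0 ≤ β := le_trans (norm_nonneg _) (bA 0 (Nat.zero_le _))
  set G : ℝ := γ / δ with hG
  have hG1 : 1 ≤ G := (one_le_div hδ).2 hδγ
  have hG0 : 0 ≤ G := le_trans zero_le_one hG1
  -- conversion of the derivatives
  have conv : ∀ (i : ℕ) (u : V → ℝ), iteratedFDerivWithin ℝ i u S z = iteratedFDeriv ℝ i u z :=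
    fun i u => iteratedFDerivWithin_of_isOpen i hSo hzS
  -- the function `B / δ`
  have hBt : ContDiff ℝ ∞ (fun x => δ⁻¹ * B x) := contDiff_const.mul hB
  have bBt : ∀ i ≤ n, ‖iteratedFDerivWithin ℝ i (fun x => δ⁻¹ * B x) S z‖ ≤ G := by
    intro i hi
    rw [conv]
    have h1 : iteratedFDeriv ℝ i (fun x => δ⁻¹ * B x) z = δ⁻¹ • iteratedFDeriv ℝ i B z := by
      have := iteratedFDeriv_const_smul_apply (𝕜 := ℝ) (a := δ⁻¹) (f := B) (x := z) (i := i)
        ((hB.of_le (by exact_mod_cast le_top)).contDiffAt)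
      simpa [Pi.smul_def, smul_eq_mul] using this
    rw [h1, norm_smul, norm_inv, Real.norm_of_nonneg hδ.le, hG, div_eq_inv_mul]
    exact mul_le_mul_of_nonneg_left (bB i hi) (by positivity)
  -- the inverse of `B / δ`
  have binv : ∀ i ≤ n, ‖iteratedFDerivWithin ℝ i (fun x => (δ⁻¹ * B x)⁻¹) S z‖
      ≤ (n.factorial : ℝ) ^ 2 * G ^ n := by
    intro i hi
    have hg : ContDiffOn ℝ ∞ (fun x : ℝ => x⁻¹) (Ioi 0) := by
      intro x hx
      exact (contDiffAt_inv ℝ (ne_of_gt hx)).contDiffWithinAt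
    have hmaps : MapsTo (fun x => δ⁻¹ * B x) S (Ioi 0) := by
      intro x hx
      exact mul_pos (inv_pos.2 hδ) hx
    have hy : 1 ≤ δ⁻¹ * B z := by
      rw [inv_mul_eq_div]
      exact (one_le_div hδ).2 hδB
    have key := norm_iteratedFDerivWithin_comp_le (𝕜 := ℝ) (n := i) (N := ∞) hg
      (hBt.contDiffOn (s := S)) (by exact_mod_cast le_top) (isOpen_Ioi.uniqueDiffOn) hSu hmaps hzS
      (C := (n.factorial : ℝ)) (D := G)
      (fun k hk => (inv_bd k hy).trans (by exact_mod_cast Nat.factorial_le (hk.trans hi)))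
      (fun k hk1 hk => (bBt k (hk.trans hi)).trans (le_self_pow₀ hG1 (by omega)))
    refine le_trans key ?_
    have h1 : (i.factorial : ℝ) ≤ n.factorial := by exact_mod_cast Nat.factorial_le hi
    have h2 : G ^ i ≤ G ^ n := pow_le_pow_right₀ hG1 hi
    calc (i.factorial : ℝ) * n.factorial * G ^ i ≤ n.factorial * n.factorial * G ^ n := by gcongr
      _ = (n.factorial : ℝ) ^ 2 * G ^ n := by ring
  -- the product `f A`
  have bfA : ∀ i ≤ n, ‖iteratedFDerivWithin ℝ i (fun x => f x * A x) S z‖ ≤ 2 ^ n * (α * β) := by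
    intro i hi
    refine le_trans (norm_iteratedFDerivWithin_mul_le (N := ∞) hf.contDiffOn hA.contDiffOn hSu hzS
      (by exact_mod_cast le_top)) ?_
    calc ∑ k ∈ Finset.range (i + 1), (i.choose k : ℝ) * ‖iteratedFDerivWithin ℝ k f S z‖ *
        ‖iteratedFDerivWithin ℝ (i - k) A S z‖
        ≤ ∑ k ∈ Finset.range (i + 1), (i.choose k : ℝ) * (α * β) := by
          refine Finset.sum_le_sum fun k hk => ?_
          have hk' : k ≤ i := Nat.lt_succ_iff.1 (Finset.mem_range.1 hk)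
          rw [conv, conv, mul_assoc]
          have h1 := bf k (hk'.trans hi)
          have h2 := bA (i - k) ((Nat.sub_le _ _).trans hi)
          gcongr
      _ = 2 ^ i * (α * β) := by
          rw [← Finset.sum_mul]
          congr 1
          exact_mod_cast Nat.sum_range_choose i
      _ ≤ 2 ^ n * (α * β) := by
          gcongr
          norm_num
  have hfA : ContDiffOn ℝ ∞ (fun x => f x * A x) S := (hf.mul hA).contDiffOn
  have hinv : ContDiffOn ℝ ∞ (fun x => (δ⁻¹ * B x)⁻¹) S := by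
    refine hBt.contDiffOn.inv ?_
    intro x hx
    exact ne_of_gt (mul_pos (inv_pos.2 hδ) hx)
  have key := norm_iteratedFDerivWithin_mul_le (N := ∞) (n := n) hfA hinv hSu hzS
    (by exact_mod_cast le_top)
  have hprod : ‖iteratedFDeriv ℝ n (fun x => f x * A x * (δ⁻¹ * B x)⁻¹) z‖
      ≤ 4 ^ n * (n.factorial : ℝ) ^ 2 * (α * β * G ^ n) := by
    rw [← conv]
    refine le_trans key ?_
    calc ∑ k ∈ Finset.range (n + 1), (n.choose k : ℝ) *
          ‖iteratedFDerivWithin ℝ k (fun x => f x * A x) S z‖ *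
          ‖iteratedFDerivWithin ℝ (n - k) (fun x => (δ⁻¹ * B x)⁻¹) S z‖
        ≤ ∑ k ∈ Finset.range (n + 1), (n.choose k : ℝ) *
          (2 ^ n * (α * β) * ((n.factorial : ℝ) ^ 2 * G ^ n)) := by
          refine Finset.sum_le_sum fun k hk => ?_
          have hk' : k ≤ n := Nat.lt_succ_iff.1 (Finset.mem_range.1 hk)
          rw [mul_assoc]
          have h1 := bfA k hk'
          have h2 := binv (n - k) (Nat.sub_le _ _)
          gcongr
      _ = 2 ^ n * (2 ^ n * (α * β) * ((n.factorial : ℝ) ^ 2 * G ^ n)) := by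
          rw [← Finset.sum_mul]
          congr 1
          exact_mod_cast Nat.sum_range_choose n
      _ = 4 ^ n * (n.factorial : ℝ) ^ 2 * (α * β * G ^ n) := by
          have : (4 : ℝ) ^ n = 2 ^ n * 2 ^ n := by rw [← mul_pow]; norm_num
          rw [this]; ring
  -- remove the factor `δ`
  have heq : (fun x => f x * A x / B x) = fun x => δ⁻¹ * (f x * A x * (δ⁻¹ * B x)⁻¹) := by
    funext x
    by_cases hx : B x = 0
    · simp [hx]
    · field_simp
  have hat : ContDiffAt ℝ ∞ (fun x => f x * A x * (δ⁻¹ * B x)⁻¹) z :=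
    (hfA.mul hinv).contDiffAt (hSo.mem_nhds hzS)
  have h1 : iteratedFDeriv ℝ n (fun x => δ⁻¹ * (f x * A x * (δ⁻¹ * B x)⁻¹)) z
      = δ⁻¹ • iteratedFDeriv ℝ n (fun x => f x * A x * (δ⁻¹ * B x)⁻¹) z := by
    have := iteratedFDeriv_const_smul_apply (𝕜 := ℝ) (a := δ⁻¹)
      (f := fun x => f x * A x * (δ⁻¹ * B x)⁻¹) (x := z) (i := n)
      (hat.of_le (by exact_mod_cast le_top))
    simpa [Pi.smul_def, smul_eq_mul] using this
  rw [heq, h1, norm_smul, norm_inv, Real.norm_of_nonneg hδ.le]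
  calc δ⁻¹ * ‖iteratedFDeriv ℝ n (fun x => f x * A x * (δ⁻¹ * B x)⁻¹) z‖
      ≤ δ⁻¹ * (4 ^ n * (n.factorial : ℝ) ^ 2 * (α * β * G ^ n)) :=
        mul_le_mul_of_nonneg_left hprod (by positivity)
    _ = 4 ^ n * (n.factorial : ℝ) ^ 2 * (α * β * γ ^ n / δ ^ (n + 1)) := by
        rw [hG, div_pow]
        field_simp
        ring

end WR
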