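import Pool.Agent.helper97.WR.D14
import Pool.Agent.helper97.WR.D15

/-!
# WR-D16: the quotient `f A / B` is flat at the boundary

author: helper88

Let `z ∈ interior K` with `32 R(t, z) ≤ 2^(-k)` for all `t ∈ I` and `32 R(t, z) ≥ 2^(-(k+1))` for some `t`.
Put `a = a_(k+1)`, `N = N_(k+1)`.  With constants `C` depending only on `j`, for orders `i ≤ j`:
`‖D^i f(0,·)‖ ≤ C a N^(1+j)` (`f0_od`), `‖D^i A‖ ≤ C a N^(-p)` (`IA_small` with `e = -p - j`),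
`‖D^i B‖ ≤ γ = C a² N^(2+j)` (`IB_od`), and
`B ≥ δ = c a_(k+2)² / N_(k+2) ≥ c a² N^(-14) N^(-4)` (`IB_lower`, `aa_ratio`, `nn_ratio`), so `δ' = c a² N^(-18)`
is a lower bound (and `≤ γ`, take `C ≥ c`).  `quot_bd`:
`‖D^j (f A / B)‖ ≤ C' a² N^(1+j-p) (a² N^(2+j))^j / (a² N^(-18))^(j+1) = C' N^(1+j-p+(2+j)j+18(j+1))`.
Choose `p = 2 + j + (2+j) j + 18 (j+1)`: the bound is `C' / N ≤ C' 2^(-(k+1))` (`two_pow_le_nn`).
-/

noncomputable section

namespace WR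

open Set Filter Topology
open scoped ContDiff

variable {V : Type} [NormedAddCommGroup V] [NormedSpace ℝ V] [FiniteDimensional ℝ V]
variable {R Ph : ℝ × V → ℝ} {c : ℝ} {K U : Set V}

private theorem D16_scalar (j : ℕ) (a N Cf CA CB c0 : ℝ) (ha : 0 < a) (hN : 0 < N) (hc : 0 < c0) :
    (Cf * (a * N ^ (1 + j))) * (CA * (a / N ^ (2 + j + (2 + j) * j + 18 * (j + 1)))) *
      (CB * (a ^ 2 * N ^ (2 + j))) ^ j / (c0 * (a ^ 2 / N ^ 18)) ^ (j + 1) =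
      (Cf * CA * CB ^ j / c0 ^ (j + 1)) / N := by
  rw [mul_pow, mul_pow, mul_pow, div_pow, ← pow_mul, ← pow_mul, ← pow_mul, ← pow_mul]
  rw [div_eq_div_iff (by positivity) (by positivity)]
  field_simp
  ring

private theorem D16_up {N : ℝ} (h1 : 1 ≤ N) {e i : ℕ} {j : ℕ} (h : i ≤ j) :
    N ^ (((e : ℕ) : ℤ) + (i : ℤ)) ≤ N ^ (e + j) := by
  rw [← zpow_natCast]
  exact zpow_le_zpow_right₀ h1 (by push_cast; omega)

private theorem D16_down {N : ℝ} (h1 : 1 ≤ N) {p i j : ℕ} (h : i ≤ j) :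
    N ^ ((-(p : ℤ) - (j : ℤ)) + (i : ℤ)) ≤ 1 / N ^ p := by
  have : (1 : ℝ) / N ^ p = N ^ (-(p : ℤ)) := by
    rw [zpow_neg, zpow_natCast, one_div]
  rw [this]
  exact zpow_le_zpow_right₀ h1 (by omega)

theorem quot_flat (h : Ana R Ph c K U) (j : ℕ) : ∃ (C : ℝ) (k₀ : ℕ), 0 < C ∧ ∀ k, k₀ ≤ k →
    ∀ z ∈ interior K, (∀ t ∈ Icc (-8 : ℝ) 8, 32 * R (t, z) ≤ (1 / 2) ^ k) →
    (∃ t ∈ Icc (-8 : ℝ) 8, (1 / 2) ^ (k + 1) ≤ 32 * R (t, z)) →
    ‖iteratedFDeriv ℝ j (fun z => fh R Ph 0 z * IA R Ph z / IB R Ph z) z‖ ≤ C * (1 / 2) ^ k := by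
  obtain ⟨p, hp⟩ : ∃ p : ℕ, p = 2 + j + (2 + j) * j + 18 * (j + 1) := ⟨_, rfl⟩
  have hf := f0_od h
  have hA := IA_small h (-(p : ℤ) - (j : ℤ))
  have hB := IB_od h
  unfold OdV at hf hA hB
  choose Cf Cf0 hCf using hf
  choose CA CA0 hCA using hA
  choose CB CB0 hCB using hB
  obtain ⟨c0, k₀, c00, hlow⟩ := IB_lower h
  obtain ⟨Cq, Cq0, hq⟩ := quot_bd j
  set Cf' : ℝ := ∑ i ∈ Finset.range (j + 1), Cf i with hCf'
  set CA' : ℝ := ∑ i ∈ Finset.range (j + 1), CA i with hCA'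
  set CB' : ℝ := (∑ i ∈ Finset.range (j + 1), CB i) + c0 with hCB'
  have lef : ∀ i ≤ j, Cf i ≤ Cf' := fun i hi =>
    Finset.single_le_sum (fun i _ => (Cf0 i).le) (Finset.mem_range.2 (by omega))
  have leA : ∀ i ≤ j, CA i ≤ CA' := fun i hi =>
    Finset.single_le_sum (fun i _ => (CA0 i).le) (Finset.mem_range.2 (by omega))
  have leB0 : ∀ i ≤ j, CB i ≤ ∑ i ∈ Finset.range (j + 1), CB i := fun i hi =>
    Finset.single_le_sum (fun i _ => (CB0 i).le) (Finset.mem_range.2 (by omega))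
  have leB : ∀ i ≤ j, CB i ≤ CB' := fun i hi => by have := leB0 i hi; linarith
  have f0 : 0 < Cf' := (Cf0 0).trans_le (lef 0 (Nat.zero_le _))
  have A0 : 0 < CA' := (CA0 0).trans_le (leA 0 (Nat.zero_le _))
  have B0 : 0 < CB' := (CB0 0).trans_le (leB 0 (Nat.zero_le _))
  have c0B : c0 ≤ CB' := by
    have := (CB0 0).trans_le (leB0 0 (Nat.zero_le _)); linarith
  refine ⟨Cq * (Cf' * CA' * CB' ^ j / c0 ^ (j + 1)), k₀, by positivity, ?_⟩
  intro k hk z hz hz1 hz2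
  have hzK : z ∈ K := interior_subset hz
  obtain ⟨a, ha⟩ : ∃ a, a = aa (k + 1) := ⟨_, rfl⟩
  obtain ⟨N, hN⟩ : ∃ N, N = nn (k + 1) := ⟨_, rfl⟩
  have a0 : 0 < a := by rw [ha]; exact aa_pos _
  have N1 : 1 ≤ N := by rw [hN]; exact one_le_nn _
  have N0 : 0 < N := by linarith
  -- the lower bound of B
  have hδ : c0 * (a ^ 2 / N ^ 18) ≤ IB R Ph z := by
    refine le_trans ?_ (hlow k hk z hzK hz1 hz2)
    refine mul_le_mul_of_nonneg_left ?_ c00.le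
    rw [div_le_div_iff₀ (by positivity) (nn_pos _)]
    have h1 : a ≤ aa (k + 2) * N ^ 7 := by rw [ha, hN]; exact aa_ratio k
    have h2 : nn (k + 2) ≤ N ^ 4 := by rw [hN]; exact nn_ratio k
    have h3 : a ^ 2 ≤ (aa (k + 2) * N ^ 7) ^ 2 := pow_le_pow_left₀ a0.le h1 2
    calc a ^ 2 * nn (k + 2) ≤ (aa (k + 2) * N ^ 7) ^ 2 * N ^ 4 :=
          mul_le_mul h3 h2 (nn_pos _).le (by positivity)
      _ = aa (k + 2) ^ 2 * N ^ 18 := by ring
  have h18 : a ^ 2 / N ^ 18 ≤ a ^ 2 * N ^ (2 + j) := by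
    rw [div_le_iff₀ (by positivity)]
    have h1 : 1 ≤ N ^ (2 + j) * N ^ 18 := by
      have h2 : 1 ≤ N ^ (2 + j) := one_le_pow₀ N1
      have h3 : 1 ≤ N ^ 18 := one_le_pow₀ N1
      nlinarith
    have : 0 < a ^ 2 := by positivity
    nlinarith
  have key := hq (f0_contDiff h) (IA_contDiff h) (IB_contDiff h) z
    (Cf' * (a * N ^ (1 + j))) (CA' * (a / N ^ p)) (CB' * (a ^ 2 * N ^ (2 + j)))
    (c0 * (a ^ 2 / N ^ 18)) ?_ ?_ ?_ (by positivity) hδ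
    (mul_le_mul c0B h18 (by positivity) B0.le)
  · refine key.trans ?_
    rw [hp, D16_scalar j a N Cf' CA' CB' c0 a0 N0 c00, mul_assoc Cq]
    refine mul_le_mul_of_nonneg_left ?_ Cq0.le
    rw [div_eq_mul_inv _ N]
    refine mul_le_mul_of_nonneg_left ?_ (by positivity)
    have h2 : (2 : ℝ) ^ (k + 1) ≤ N := by rw [hN]; exact two_pow_le_nn _
    have h3 : (2 : ℝ) ^ k ≤ N := le_trans (pow_le_pow_right₀ (by norm_num) (by omega)) h2
    rw [one_div, inv_pow]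
    exact inv_anti₀ (by positivity) h3
  · intro i hi
    refine (hCf i k z hzK hz1).trans ?_
    rw [← ha, ← hN, pow_one]
    refine mul_le_mul (lef i hi) ?_ (by positivity) f0.le
    exact mul_le_mul_of_nonneg_left (D16_up (e := 1) N1 hi) a0.le
  · intro i hi
    refine (hCA i k z hz hz1).trans ?_
    rw [← ha, ← hN, pow_one]
    refine mul_le_mul (leA i hi) ?_ (by positivity) A0.le
    rw [div_eq_mul_one_div]
    exact mul_le_mul_of_nonneg_left (D16_down N1 hi) a0.le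
  · intro i hi
    refine (hCB i k z hzK hz1).trans ?_
    rw [← ha, ← hN]
    refine mul_le_mul (leB i hi) ?_ (by positivity) B0.le
    exact mul_le_mul_of_nonneg_left (D16_up (e := 2) N1 hi) (by positivity)

end WR
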