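import Mathlib

/-!
# WR-D17: extension by zero of a flat function

author: helper21 (statement: helper97)

`P ⊆ O` are open, `u` is smooth on `P`, zero on `O \ P`, and all derivatives of `u` on `P` tend to `0` at
the points of `O \ P`.  Then `u` is smooth on `O`.

Proof.  Show `ContDiffOn ℝ n u O` for all `n : ℕ` by induction on `n`, for all target spaces `W` and all `u`
(`contDiffOn_infty`).  Step: `u` is differentiable at every point of `O`, with derivative `0` at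
`z₀ ∈ O \ P`: given `ε > 0` let `B` be a ball around `z₀` in `O` with `‖D u‖ ≤ ε`, on `B ∩ P`.  For `z ∈ B`:
`‖u z‖ ≤ ε ‖z - z₀‖`: clear if `z ∉ P`.  If `z ∈ P` let `y` be the last point of the segment from `z₀`
to `z` outside `P`; `(y, z] ⊆ P`, `u → 0` at `y` along the segment (hypothesis with `j = 0`), and the mean
value inequality on `[y', z]`, `y' → y`.  Hence `fderiv ℝ u` is zero on `O \ P`, equal to the usual
derivative on `P`, it is smooth on `P`, and `‖D^j (fderiv u)‖ = ‖D^(j+1) u‖`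
(`norm_iteratedFDeriv_fderiv`), so the induction hypothesis applies to `fderiv ℝ u`;
`contDiffOn_succ_iff_fderiv_of_isOpen`.
-/

noncomputable section

namespace WR

open Set Filter Topology
open scoped ContDiff

/-- the estimate on a segment starting outside `P` -/
private theorem ez_seg {V W : Type} [NormedAddCommGroup V] [NormedSpace ℝ V] [NormedAddCommGroup W]
    [NormedSpace ℝ W] {O P : Set V} (hP : IsOpen P) {u : V → W}
    (hu : ContDiffOn ℝ ∞ u P)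
    (hlim : ∀ z₀ ∈ O, z₀ ∉ P → ∀ ε : ℝ, 0 < ε → ∀ᶠ z in 𝓝 z₀, z ∈ P → ‖u z‖ ≤ ε)
    {z₀ z : V} {ε : ℝ} (hε : 0 ≤ ε) (hz₀ : z₀ ∉ P) (hz : z ∈ P)
    (hseg : ∀ s ∈ Icc (0 : ℝ) 1, z₀ + s • (z - z₀) ∈ O)
    (hder : ∀ s ∈ Icc (0 : ℝ) 1, z₀ + s • (z - z₀) ∈ P → ‖fderiv ℝ u (z₀ + s • (z - z₀))‖ ≤ ε) :
    ‖u z‖ ≤ ε * ‖z - z₀‖ := by
  set g : ℝ → V := fun s => z₀ + s • (z - z₀) with hg
  have hgc : Continuous g := by fun_prop
  have hg0 : g 0 = z₀ := by simp [hg]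
  have hg1 : g 1 = z := by simp [hg]
  have hSc : IsCompact (Icc (0 : ℝ) 1 ∩ g ⁻¹' Pᶜ) :=
    isCompact_Icc.inter_right (hP.isClosed_compl.preimage hgc)
  have hSn : (Icc (0 : ℝ) 1 ∩ g ⁻¹' Pᶜ).Nonempty :=
    ⟨0, ⟨le_rfl, zero_le_one⟩, by rw [mem_preimage, hg0]; exact hz₀⟩
  obtain ⟨s₀, ⟨hs₀I, hs₀P⟩, hmax⟩ := hSc.exists_isGreatest hSn
  have hs₀1 : s₀ < 1 := by
    refine lt_of_le_of_ne hs₀I.2 ?_
    rintro rfl
    apply hs₀P
    rw [hg1]; exact hz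
  have hin : ∀ s, s₀ < s → s ≤ 1 → g s ∈ P := by
    intro s h1 h2
    by_contra h3
    have h4 := hmax ⟨⟨hs₀I.1.trans h1.le, h2⟩, h3⟩
    linarith
  refine le_of_forall_pos_le_add fun δ hδ => ?_
  have h1 := hlim (g s₀) (hseg s₀ hs₀I) hs₀P δ hδ
  have h2 : ∀ᶠ s in 𝓝 s₀, g s ∈ P → ‖u (g s)‖ ≤ δ := (hgc.tendsto s₀).eventually h1
  have h3 : ∀ᶠ s in 𝓝[>] s₀, (g s ∈ P → ‖u (g s)‖ ≤ δ) ∧ s ∈ Ioo s₀ 1 :=
    (h2.filter_mono nhdsWithin_le_nhds).and (Ioo_mem_nhdsGT hs₀1)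
  obtain ⟨s₁, hs₁, hs₁I⟩ := h3.exists
  have hs₁u := hs₁ (hin s₁ hs₁I.1 hs₁I.2.le)
  have hd : ∀ s ∈ Icc s₁ 1, HasDerivWithinAt (fun s => u (g s)) (fderiv ℝ u (g s) (z - z₀))
      (Icc s₁ 1) s := by
    intro s hs
    have hsP : g s ∈ P := hin s (hs₁I.1.trans_le hs.1) hs.2
    have h4 : HasFDerivAt u (fderiv ℝ u (g s)) (g s) :=
      ((hu.differentiableOn (by simp)) (g s) hsP |>.differentiableAt (hP.mem_nhds hsP)).hasFDerivAt
    have h5 : HasDerivAt g (z - z₀) s := by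
      have := ((hasDerivAt_id s).smul_const (z - z₀)).const_add z₀
      simpa [hg] using this
    exact (h4.comp_hasDerivAt s h5).hasDerivWithinAt
  have hb := norm_image_sub_le_of_norm_deriv_le_segment' (C := ε * ‖z - z₀‖) hd (fun s hs => by
    refine ((fderiv ℝ u (g s)).le_opNorm _).trans ?_
    refine mul_le_mul_of_nonneg_right ?_ (norm_nonneg _)
    exact hder s ⟨hs₀I.1.trans (hs₁I.1.le.trans hs.1), hs.2.le⟩ (hin s (hs₁I.1.trans_le hs.1) hs.2.le))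
    1 ⟨hs₁I.2.le, le_rfl⟩
  rw [hg1] at hb
  have h6 : ‖u z‖ ≤ ‖u z - u (g s₁)‖ + ‖u (g s₁)‖ := by
    have := norm_add_le (u z - u (g s₁)) (u (g s₁))
    rwa [sub_add_cancel] at this
  have h7 : ε * ‖z - z₀‖ * (1 - s₁) ≤ ε * ‖z - z₀‖ := by
    refine mul_le_of_le_one_right (mul_nonneg hε (norm_nonneg _)) ?_
    have := hs₀I.1.trans hs₁I.1.le
    linarith
  linarith

/-- the derivative at the points outside `P` -/
private theorem ez_deriv {V W : Type} [NormedAddCommGroup V] [NormedSpace ℝ V]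
    [NormedAddCommGroup W] [NormedSpace ℝ W] {O P : Set V} (hO : IsOpen O) (hP : IsOpen P)
    {u : V → W} (hu0 : ∀ z ∈ O, z ∉ P → u z = 0) (hu : ContDiffOn ℝ ∞ u P)
    (hlim : ∀ j : ℕ, ∀ z₀ ∈ O, z₀ ∉ P → ∀ ε : ℝ, 0 < ε →
      ∀ᶠ z in 𝓝 z₀, z ∈ P → ‖iteratedFDeriv ℝ j u z‖ ≤ ε)
    {z₀ : V} (h₀ : z₀ ∈ O) (h₀' : z₀ ∉ P) : HasFDerivAt u (0 : V →L[ℝ] W) z₀ := by
  refine HasFDerivAt.of_isLittleO (Asymptotics.isLittleO_iff.2 fun ε hε => ?_)
  have h1 := hlim 1 z₀ h₀ h₀' ε hε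
  have h2 : ∀ᶠ z in 𝓝 z₀, z ∈ O := hO.mem_nhds h₀
  obtain ⟨r, hr, hball⟩ := Metric.eventually_nhds_iff_ball.1 (h1.and h2)
  filter_upwards [Metric.ball_mem_nhds z₀ hr] with z hz
  rw [hu0 z₀ h₀ h₀']
  simp only [zero_apply, sub_zero]
  by_cases hzP : z ∈ P
  · have hsegB : ∀ s ∈ Icc (0 : ℝ) 1, z₀ + s • (z - z₀) ∈ Metric.ball z₀ r := by
      intro s hs
      rw [Metric.mem_ball, dist_eq_norm] at hz ⊢
      rw [add_sub_cancel_left, norm_smul, Real.norm_of_nonneg hs.1]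
      exact (mul_le_of_le_one_left (norm_nonneg _) hs.2).trans_lt hz
    refine ez_seg hP hu (fun z₁ h₁ h₁' δ hδ => ?_) hε.le h₀' hzP
      (fun s hs => (hball _ (hsegB s hs)).2) (fun s hs hsP => ?_)
    · filter_upwards [hlim 0 z₁ h₁ h₁' δ hδ] with y hy hyP
      have := hy hyP
      rwa [norm_iteratedFDeriv_zero] at this
    · have h3 := (hball _ (hsegB s hs)).1 hsP
      rwa [← norm_iteratedFDeriv_fderiv, norm_iteratedFDeriv_zero] at h3
  · rw [hu0 z (hball z hz).2 hzP, norm_zero]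
    positivity

private theorem ez_nat (n : ℕ) : ∀ {V W : Type} [NormedAddCommGroup V] [NormedSpace ℝ V]
    [NormedAddCommGroup W] [NormedSpace ℝ W] {O P : Set V} (_ : IsOpen O) (_ : IsOpen P)
    (_ : P ⊆ O) {u : V → W} (_ : ∀ z ∈ O, z ∉ P → u z = 0) (_ : ContDiffOn ℝ ∞ u P)
    (_ : ∀ j : ℕ, ∀ z₀ ∈ O, z₀ ∉ P → ∀ ε : ℝ, 0 < ε →
      ∀ᶠ z in 𝓝 z₀, z ∈ P → ‖iteratedFDeriv ℝ j u z‖ ≤ ε), ContDiffOn ℝ n u O := by
  induction n with
  | zero =>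
    intro V W _ _ _ _ O P hO hP hPO u hu0 hu hlim
    refine contDiffOn_zero.2 fun z hz => ?_
    by_cases hzP : z ∈ P
    · exact ((hu.continuousOn z hzP).continuousAt (hP.mem_nhds hzP)).continuousWithinAt
    · exact (ez_deriv hO hP hu0 hu hlim hz hzP).continuousAt.continuousWithinAt
  | succ n ih =>
    intro V W _ _ _ _ O P hO hP hPO u hu0 hu hlim
    have h3 : ((n + 1 : ℕ) : ℕ∞ω) = (n : ℕ∞ω) + 1 := by norm_cast
    rw [h3]
    refine (contDiffOn_succ_iff_fderiv_of_isOpen hO).2 ⟨fun z hz => ?_, fun h => absurd h (by simp), ?_⟩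
    · by_cases hzP : z ∈ P
      · exact ((hu.differentiableOn (by simp) z hzP).differentiableAt
          (hP.mem_nhds hzP)).differentiableWithinAt
      · exact (ez_deriv hO hP hu0 hu hlim hz hzP).differentiableAt.differentiableWithinAt
    · refine ih hO hP hPO (fun z hz hzP => (ez_deriv hO hP hu0 hu hlim hz hzP).fderiv)
        (hu.fderiv_of_isOpen hP (by simp)) ?_
      intro j z₀ h₀ h₀' ε hε
      filter_upwards [hlim (j + 1) z₀ h₀ h₀' ε hε] with z hz hzP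
      rw [norm_iteratedFDeriv_fderiv]
      exact hz hzP

theorem ext_zero {V W : Type} [NormedAddCommGroup V] [NormedSpace ℝ V] [NormedAddCommGroup W]
    [NormedSpace ℝ W] {O P : Set V} (hO : IsOpen O) (hP : IsOpen P) (hPO : P ⊆ O) {u : V → W}
    (hu0 : ∀ z ∈ O, z ∉ P → u z = 0) (hu : ContDiffOn ℝ ∞ u P)
    (hlim : ∀ j : ℕ, ∀ z₀ ∈ O, z₀ ∉ P → ∀ ε : ℝ, 0 < ε →
      ∀ᶠ z in 𝓝 z₀, z ∈ P → ‖iteratedFDeriv ℝ j u z‖ ≤ ε) :
    ContDiffOn ℝ ∞ u O :=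
  contDiffOn_infty.2 fun n => ez_nat n hO hP hPO hu0 hu hlim

end WR
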