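import Pool.Agent.helper97.WR.D16
import Pool.Agent.helper97.WR.D17

/-!
# WR-D18: `f A / B` is smooth at orbits that only touch the support, and small near them

author: helper86

`u = f(0, ·) A / B` (with `x / 0 = 0`).

* `exists_shell`: if `0 < M` is the maximum of `32 R(·, z)` over `I` (attained, `I` compact) and `M ≤ 2^(-k₀)`,
  there is `k ≥ k₀` with `2^(-(k+1)) < M ≤ 2^(-k)` (`exists_nat_pow_near_of_lt_one` or `Nat.find`).
* `flat_smooth`: let `O` = interior of `K`, intersected with `{∀ t ∈ I, R(t, z) < 1}`, and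
  `P = {z ∈ O | ∃ t ∈ I, 0 < R(t, z)}` (open: `isOpen_small`, `isOpen_large`).  On `O \ P` all `R ≤ 0`, so
  `f(0, z) = 0` and `u = 0`.  On `P` `u` is smooth (`IB_pos`, `f0_contDiff`, ...).  Limits: let
  `z₁ ∈ O \ P`, `ε > 0`, `j`; take `C, k₀` from `quot_flat`, `k₁ ≥ k₀` with `C 2^(-k₁) ≤ ε`; the set of
  `z ∈ interior K` with `32 R(t, z) < 2^(-k₁)` for all `t ∈ I` is a neighbourhood of `z₁`; for `z ∈ P` in it
  `exists_shell` gives `k ≥ k₁`.  Apply `ext_zero`; `z₀ ∈ O`, `O` open.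
* `small`: `quot_flat` with `j = 0` gives `k₁` with `|u z| ≤ 1/2` for all `z ∈ interior K` with
  `32 R(t, z) ≤ 2^(-k₁)` on `I` (`exists_shell`; if no `R > 0` then `u = 0`).  The set
  `S = {z ∈ K | ∃ t ∈ I, 2^(-k₁) ≤ 32 R(t, z)}` is compact (`isClosed_large`), `B` is continuous and
  positive on `S` (`IB_pos`), so `B ≥ b > 0` on `S` (if `S` is empty take `b = 1`).
-/

set_option linter.unusedSectionVars false

noncomputable section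

namespace WR

open Set Filter Topology
open scoped ContDiff

variable {V : Type} [NormedAddCommGroup V] [NormedSpace ℝ V] [FiniteDimensional ℝ V]
variable {R Ph : ℝ × V → ℝ} {c : ℝ} {K U : Set V}

theorem exists_shell (hR : Continuous R) {z : V} {k₀ : ℕ}
    (h1 : ∀ t ∈ Icc (-8 : ℝ) 8, 32 * R (t, z) ≤ (1 / 2) ^ k₀)
    (h2 : ∃ t ∈ Icc (-8 : ℝ) 8, 0 < R (t, z)) :
    ∃ k, k₀ ≤ k ∧ (∀ t ∈ Icc (-8 : ℝ) 8, 32 * R (t, z) ≤ (1 / 2) ^ k) ∧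
      ∃ t ∈ Icc (-8 : ℝ) 8, (1 / 2) ^ (k + 1) ≤ 32 * R (t, z) := by
  have hc : Continuous (fun t : ℝ => R (t, z)) := hR.comp (Continuous.prodMk continuous_id continuous_const)
  obtain ⟨t₁, ht₁, hmax⟩ := (isCompact_Icc (a := (-8 : ℝ)) (b := 8)).exists_isMaxOn
    ⟨0, by norm_num, by norm_num⟩ hc.continuousOn
  obtain ⟨t₂, ht₂, hpos⟩ := h2
  have hM : 0 < 32 * R (t₁, z) := by
    have h3 : R (t₂, z) ≤ R (t₁, z) := hmax ht₂
    linarith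
  have hex : ∃ k, k₀ ≤ k ∧ (1 / 2 : ℝ) ^ (k + 1) ≤ 32 * R (t₁, z) := by
    obtain ⟨n, hn⟩ := exists_pow_lt_of_lt_one hM (by norm_num : (1 / 2 : ℝ) < 1)
    refine ⟨k₀ + n, by omega, le_trans ?_ hn.le⟩
    exact pow_le_pow_of_le_one (by norm_num) (by norm_num) (by omega)
  classical
  obtain ⟨hk1, hk2⟩ := Nat.find_spec hex
  refine ⟨Nat.find hex, hk1, ?_, t₁, ht₁, hk2⟩
  have hkey : 32 * R (t₁, z) ≤ (1 / 2 : ℝ) ^ Nat.find hex := by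
    rcases Nat.eq_or_lt_of_le hk1 with he | hlt
    · rw [← he]
      exact h1 t₁ ht₁
    · have h3 := Nat.find_min hex (m := Nat.find hex - 1) (by omega)
      by_contra hcon
      push Not at hcon
      refine h3 ⟨by omega, ?_⟩
      rw [Nat.sub_add_cancel (by omega)]
      exact hcon.le
  intro t ht
  have h3 : R (t, z) ≤ R (t₁, z) := hmax ht
  linarith

omit [FiniteDimensional ℝ V] in
theorem d18_zero {z : V} (hn : ∀ t ∈ Icc (-8 : ℝ) 8, R (t, z) ≤ 0) :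
    fh R Ph 0 z * IA R Ph z / IB R Ph z = 0 := by
  have h1 : fh R Ph 0 z = 0 := FF_zero' (hn 0 ⟨by norm_num, by norm_num⟩) _
  rw [h1, zero_mul, zero_div]

theorem d18_pow {C ε : ℝ} (hC : 0 < C) (hε : 0 < ε) (k₀ : ℕ) :
    ∃ k₁, k₀ ≤ k₁ ∧ ∀ k, k₁ ≤ k → C * (1 / 2 : ℝ) ^ k ≤ ε := by
  obtain ⟨n, hn⟩ := exists_pow_lt_of_lt_one (div_pos hε hC) (by norm_num : (1 / 2 : ℝ) < 1)
  refine ⟨k₀ + n, by omega, fun k hk => ?_⟩
  have h1 : (1 / 2 : ℝ) ^ k ≤ (1 / 2) ^ n :=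
    pow_le_pow_of_le_one (by norm_num) (by norm_num) (by omega)
  have h2 := (lt_div_iff₀ hC).1 hn
  calc C * (1 / 2 : ℝ) ^ k ≤ C * (1 / 2) ^ n := mul_le_mul_of_nonneg_left h1 hC.le
    _ = (1 / 2) ^ n * C := mul_comm _ _
    _ ≤ ε := h2.le

theorem flat_smooth (h : Ana R Ph c K U) {z₀ : V} (hz : z₀ ∈ interior K)
    (h0 : ∀ t ∈ Icc (-8 : ℝ) 8, R (t, z₀) ≤ 0) :
    ContDiffAt ℝ ∞ (fun z => fh R Ph 0 z * IA R Ph z / IB R Ph z) z₀ := by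
  have hcR : Continuous R := h.smoothR.continuous
  have hO : IsOpen (interior K ∩ {z : V | ∀ t ∈ Icc (-8 : ℝ) 8, R (t, z) < 1}) :=
    isOpen_interior.inter (isOpen_small hcR 1)
  have hP : IsOpen ((interior K ∩ {z : V | ∀ t ∈ Icc (-8 : ℝ) 8, R (t, z) < 1}) ∩
      {z : V | ∃ t ∈ Icc (-8 : ℝ) 8, 0 < R (t, z)}) := hO.inter (isOpen_large hcR 0)
  have hz₀ : z₀ ∈ interior K ∩ {z : V | ∀ t ∈ Icc (-8 : ℝ) 8, R (t, z) < 1} :=
    ⟨hz, fun t ht => lt_of_le_of_lt (h0 t ht) one_pos⟩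
  have hnp : ∀ z ∈ interior K ∩ {z : V | ∀ t ∈ Icc (-8 : ℝ) 8, R (t, z) < 1},
      z ∉ (interior K ∩ {z : V | ∀ t ∈ Icc (-8 : ℝ) 8, R (t, z) < 1}) ∩
        {z : V | ∃ t ∈ Icc (-8 : ℝ) 8, 0 < R (t, z)} → ∀ t ∈ Icc (-8 : ℝ) 8, R (t, z) ≤ 0 := by
    intro z hzO hzP t ht
    by_contra hcon
    exact hzP ⟨hzO, t, ht, not_le.1 hcon⟩
  refine (ext_zero hO hP inter_subset_left ?_ ?_ ?_).contDiffAt (hO.mem_nhds hz₀)
  · intro z hzO hzP
    exact d18_zero (hnp z hzO hzP)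
  · intro z hzP
    refine ContDiffAt.contDiffWithinAt ?_
    have hB := IB_pos h (interior_subset hzP.1.1) hzP.2
    exact ((f0_contDiff h).contDiffAt.mul (IA_contDiff h).contDiffAt).div (IB_contDiff h).contDiffAt hB.ne'
  · intro j z₁ hz₁O hz₁P ε hε
    obtain ⟨C, k₀, hC, hq⟩ := quot_flat h j
    obtain ⟨k₁, hk₁, hsm⟩ := d18_pow hC hε k₀
    have hn := hnp z₁ hz₁O hz₁P
    have hopen : IsOpen (interior K ∩ {z : V | ∀ t ∈ Icc (-8 : ℝ) 8, R (t, z) < (1 / 2) ^ k₁ / 32}) :=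
      isOpen_interior.inter (isOpen_small hcR _)
    have hmem : z₁ ∈ interior K ∩ {z : V | ∀ t ∈ Icc (-8 : ℝ) 8, R (t, z) < (1 / 2) ^ k₁ / 32} :=
      ⟨hz₁O.1, fun t ht => lt_of_le_of_lt (hn t ht) (by positivity)⟩
    filter_upwards [hopen.mem_nhds hmem] with z hzN hzP
    obtain ⟨k, hk, hk1, hk2⟩ := exists_shell hcR (z := z) (k₀ := k₁)
      (fun t ht => by
        have h3 := hzN.2 t ht
        linarith) hzP.2
    exact (hq k (le_trans hk₁ hk) z hzN.1 hk1 hk2).trans (hsm k hk)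

theorem small (h : Ana R Ph c K U) : ∃ b : ℝ, 0 < b ∧ ∀ z ∈ interior K, IB R Ph z < b →
    |fh R Ph 0 z * IA R Ph z / IB R Ph z| ≤ 1 / 2 := by
  have hcR : Continuous R := h.smoothR.continuous
  obtain ⟨C, k₀, hC, hq⟩ := quot_flat h 0
  obtain ⟨k₁, hk₁, hsm⟩ := d18_pow hC (by norm_num : (0 : ℝ) < 1 / 2) k₀
  have hS : IsCompact (K ∩ {z : V | ∃ t ∈ Icc (-8 : ℝ) 8, (1 / 2) ^ k₁ / 32 ≤ R (t, z)}) :=
    h.compact.inter_right (isClosed_large hcR _)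
  have hcB : ContinuousOn (IB R Ph) (K ∩ {z : V | ∃ t ∈ Icc (-8 : ℝ) 8, (1 / 2) ^ k₁ / 32 ≤ R (t, z)}) :=
    (IB_contDiff h).continuous.continuousOn
  have hb : ∃ b : ℝ, 0 < b ∧
      ∀ z ∈ K ∩ {z : V | ∃ t ∈ Icc (-8 : ℝ) 8, (1 / 2) ^ k₁ / 32 ≤ R (t, z)}, b ≤ IB R Ph z := by
    rcases (K ∩ {z : V | ∃ t ∈ Icc (-8 : ℝ) 8, (1 / 2) ^ k₁ / 32 ≤ R (t, z)}).eq_empty_or_nonempty with
      he | hne
    · refine ⟨1, one_pos, fun z hz => ?_⟩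
      rw [he] at hz
      exact absurd hz (notMem_empty z)
    · obtain ⟨z₁, hz₁, hmin⟩ := hS.exists_isMinOn hne hcB
      refine ⟨IB R Ph z₁, ?_, fun z hz => hmin hz⟩
      obtain ⟨hz₁K, t, ht, hRt⟩ := hz₁
      exact IB_pos h hz₁K ⟨t, ht, lt_of_lt_of_le (by positivity) hRt⟩
  obtain ⟨b, hb0, hb1⟩ := hb
  refine ⟨b, hb0, fun z hz hzb => ?_⟩
  have hlt : ∀ t ∈ Icc (-8 : ℝ) 8, 32 * R (t, z) ≤ (1 / 2) ^ k₁ := by
    intro t ht
    by_contra hcon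
    push Not at hcon
    have h3 := hb1 z ⟨interior_subset hz, t, ht, by linarith⟩
    linarith
  by_cases hpos : ∃ t ∈ Icc (-8 : ℝ) 8, 0 < R (t, z)
  · obtain ⟨k, hk, hk1, hk2⟩ := exists_shell hcR hlt hpos
    have h3 := (hq k (le_trans hk₁ hk) z hz hk1 hk2).trans (hsm k hk)
    rwa [norm_iteratedFDeriv_zero, Real.norm_eq_abs] at h3
  · push Not at hpos
    rw [d18_zero hpos, abs_zero]
    norm_num

end WR
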