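import Pool.Agent.helper97.WR.D18

/-!
# WR-D19: the weight

author: helper86

`b` from `small`, `κ y = smoothTransition (2 - 3 y / b)`: smooth, values in `[0, 1]`, `κ = 1` for
`y ≤ b/3`, `κ = 0` for `y ≥ 2b/3`.
`σ(A,B,P,N) = κ(B) A / B`, `α = (1 - κ(B)) (√(A²+1) - A) / (2P)`, `β = (1 - κ(B)) (√(A²+1) + A) / (2N)`,
`w = 1 - σ f + α e(f) + β e(-f)`.

* identity on `K`: if some `R(t, z) > 0` (`t ∈ I`) then `B, P, N > 0` and
  `A - κ A + (1 - κ) ((√ - A)/2 - (√ + A)/2) = 0`; otherwise `A = B = P = N = 0` (`no_meet`).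
* positivity on `U`: if `R(0, z) < 0` then `f(0,z) = 0`, `w = 1`.  Otherwise `z ∈ interior K ⊆ K`; if
  `κ(B) ≠ 0` then `B < b` and `σ f = κ f A / B`, `|f A / B| ≤ 1/2`; so `1 - σ f ≥ 1/2`; the other terms are
  `≥ 0` (`√(A²+1) ≥ |A|`, `P, N ≥ 0`, `e ≥ 0`).
* smoothness at `z₀ ∈ U`: (i) `R(0, z₀) < 0`: `w = 1` near `z₀`.  Otherwise `z₀ ∈ interior K`.
  (ii) some `R(t, z₀) > 0`, `t ∈ I`: `B, P, N > 0` at `z₀`, everything is smooth.
  (iii) all `R(t, z₀) ≤ 0`: `B(z₀) = 0`, near `z₀` `B < b/3`, `κ = 1`, `w = 1 - f A / B`: `flat_smooth`.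
-/

noncomputable section

namespace WR

open Set Filter Topology
open scoped ContDiff

variable {V : Type} [NormedAddCommGroup V] [NormedSpace ℝ V] [FiniteDimensional ℝ V]

omit [NormedAddCommGroup V] [NormedSpace ℝ V] [FiniteDimensional ℝ V] in
/-- the base value vanishes at points of negative depth -/
theorem d19_f0 {R Ph : ℝ × V → ℝ} {z : V} (h : R (0, z) ≤ 0) : fh R Ph 0 z = 0 := FF_zero' h _

theorem d19_kappa {b : ℝ} (hb : 0 < b) :
    ∃ κ : ℝ → ℝ, ContDiff ℝ ∞ κ ∧ (∀ y, 0 ≤ κ y ∧ κ y ≤ 1) ∧ (∀ y, y ≤ b / 3 → κ y = 1) ∧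
      (∀ y, κ y ≠ 0 → y < b) := by
  refine ⟨fun y => Real.smoothTransition (2 - 3 * y / b), ?_, ?_, ?_, ?_⟩
  · refine Real.smoothTransition.contDiff.comp ?_
    exact contDiff_const.sub ((contDiff_const.mul contDiff_id).div_const b)
  · exact fun y => ⟨Real.smoothTransition.nonneg _, Real.smoothTransition.le_one _⟩
  · intro y hy
    refine Real.smoothTransition.one_of_one_le ?_
    have : 3 * y / b ≤ 1 := by
      rw [div_le_one hb]
      linarith
    linarith
  · intro y hy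
    by_contra hyb
    push Not at hyb
    refine hy (Real.smoothTransition.zero_of_nonpos ?_)
    have : 2 ≤ 3 * y / b := by
      rw [le_div_iff₀ hb]
      linarith
    linarith

theorem d19_sqrt (A : ℝ) : 0 ≤ Real.sqrt (A ^ 2 + 1) - A ∧ 0 ≤ Real.sqrt (A ^ 2 + 1) + A := by
  have h1 : |A| ≤ Real.sqrt (A ^ 2 + 1) := Real.abs_le_sqrt (by linarith)
  have h2 := abs_le.1 h1
  constructor <;> linarith [h2.1, h2.2]

theorem ana_main' {R Ph : ℝ × V → ℝ} {c : ℝ} {K U : Set V} (h : Ana R Ph c K U) :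
    ∃ σ α β : ℝ → ℝ → ℝ → ℝ → ℝ, ∀ w : V → ℝ,
      (∀ z, w z = 1 - σ (IA R Ph z) (IB R Ph z) (IP R Ph z) (IN R Ph z) * fh R Ph 0 z
        + α (IA R Ph z) (IB R Ph z) (IP R Ph z) (IN R Ph z) * expNegInvGlue (fh R Ph 0 z)
        + β (IA R Ph z) (IB R Ph z) (IP R Ph z) (IN R Ph z) * expNegInvGlue (-fh R Ph 0 z)) →
      ContDiffOn ℝ ∞ w U ∧ (∀ z ∈ U, 0 < w z) ∧
      (∀ z ∈ K, IA R Ph z
        - σ (IA R Ph z) (IB R Ph z) (IP R Ph z) (IN R Ph z) * IB R Ph z
        + α (IA R Ph z) (IB R Ph z) (IP R Ph z) (IN R Ph z) * IP R Ph z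
        - β (IA R Ph z) (IB R Ph z) (IP R Ph z) (IN R Ph z) * IN R Ph z = 0) := by
  obtain ⟨b, hb, hsm⟩ := small h
  obtain ⟨κ, hκs, hκ01, hκ1, hκ0⟩ := d19_kappa hb
  refine ⟨fun A B _ _ => κ B * A / B, fun A B P _ => (1 - κ B) * (Real.sqrt (A ^ 2 + 1) - A) / (2 * P),
    fun A B _ N => (1 - κ B) * (Real.sqrt (A ^ 2 + 1) + A) / (2 * N), fun w hw => ⟨?_, ?_, ?_⟩⟩
  · intro z₀ hz₀
    refine ContDiffAt.contDiffWithinAt ?_
    have hwe : w = fun z => 1 - κ (IB R Ph z) * IA R Ph z / IB R Ph z * fh R Ph 0 z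
        + (1 - κ (IB R Ph z)) * (Real.sqrt (IA R Ph z ^ 2 + 1) - IA R Ph z) / (2 * IP R Ph z) *
          expNegInvGlue (fh R Ph 0 z)
        + (1 - κ (IB R Ph z)) * (Real.sqrt (IA R Ph z ^ 2 + 1) + IA R Ph z) / (2 * IN R Ph z) *
          expNegInvGlue (-fh R Ph 0 z) := funext hw
    have hcR : Continuous (fun z : V => R (0, z)) :=
      h.smoothR.continuous.comp (Continuous.prodMk continuous_const continuous_id)
    by_cases h0 : R (0, z₀) < 0
    · have hev : w =ᶠ[𝓝 z₀] fun _ => (1 : ℝ) := by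
        filter_upwards [hcR.continuousAt.eventually (isOpen_Iio.mem_nhds h0)] with z hz
        have hf : fh R Ph 0 z = 0 := d19_f0 (le_of_lt hz)
        rw [hw, hf, neg_zero, expNegInvGlue.zero]
        ring
      exact contDiffAt_const.congr_of_eventuallyEq hev
    · have hzK : z₀ ∈ interior K := h.sub z₀ hz₀ (not_lt.1 h0)
      by_cases hpos : ∃ t ∈ Icc (-8 : ℝ) 8, 0 < R (t, z₀)
      · have hB := IB_pos h (interior_subset hzK) hpos
        have hP := IP_pos h (interior_subset hzK) hpos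
        have hN := IN_pos h (interior_subset hzK) hpos
        have cA : ContDiffAt ℝ ∞ (IA R Ph) z₀ := (IA_contDiff h).contDiffAt
        have cB : ContDiffAt ℝ ∞ (IB R Ph) z₀ := (IB_contDiff h).contDiffAt
        have cP : ContDiffAt ℝ ∞ (IP R Ph) z₀ := (IP_contDiff h).contDiffAt
        have cN : ContDiffAt ℝ ∞ (IN R Ph) z₀ := (IN_contDiff h).contDiffAt
        have cf : ContDiffAt ℝ ∞ (fun z => fh R Ph 0 z) z₀ := (f0_contDiff h).contDiffAt
        have cκ : ContDiffAt ℝ ∞ (fun z => κ (IB R Ph z)) z₀ := (hκs.comp (IB_contDiff h)).contDiffAt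
        have cs : ContDiffAt ℝ ∞ (fun z => Real.sqrt (IA R Ph z ^ 2 + 1)) z₀ :=
          ((cA.pow 2).add contDiffAt_const).sqrt (by positivity)
        have ce : ContDiffAt ℝ ∞ (fun z => expNegInvGlue (fh R Ph 0 z)) z₀ :=
          (expNegInvGlue.contDiff.comp (f0_contDiff h)).contDiffAt
        have ce' : ContDiffAt ℝ ∞ (fun z => expNegInvGlue (-fh R Ph 0 z)) z₀ :=
          (expNegInvGlue.contDiff.comp (f0_contDiff h).neg).contDiffAt
        rw [hwe]
        refine ((contDiffAt_const.sub (((cκ.mul cA).div cB hB.ne').mul cf)).add ?_).add ?_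
        · exact (((contDiffAt_const.sub cκ).mul (cs.sub cA)).div (contDiffAt_const.mul cP)
            (by positivity)).mul ce
        · exact (((contDiffAt_const.sub cκ).mul (cs.add cA)).div (contDiffAt_const.mul cN)
            (by positivity)).mul ce'
      · push Not at hpos
        have hB0 : IB R Ph z₀ = 0 := (no_meet hpos).2.2.1
        have hev : w =ᶠ[𝓝 z₀] fun z => 1 - fh R Ph 0 z * IA R Ph z / IB R Ph z := by
          have hc : ContinuousAt (IB R Ph) z₀ := (IB_contDiff h).continuous.continuousAt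
          have hlt : IB R Ph z₀ < b / 3 := by rw [hB0]; positivity
          filter_upwards [hc.eventually (isOpen_Iio.mem_nhds hlt)] with z hz
          have hk : κ (IB R Ph z) = 1 := hκ1 _ (le_of_lt hz)
          rw [hwe]
          simp only
          rw [hk]
          ring
        exact (contDiffAt_const.sub (flat_smooth h hzK hpos)).congr_of_eventuallyEq hev
  · intro z hz
    rw [hw]
    by_cases h0 : R (0, z) < 0
    · have hf : fh R Ph 0 z = 0 := d19_f0 (le_of_lt h0)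
      rw [hf, neg_zero, expNegInvGlue.zero]
      norm_num
    · have hzK : z ∈ interior K := h.sub z hz (not_lt.1 h0)
      have hPN : 0 ≤ IP R Ph z ∧ 0 ≤ IN R Ph z := by
        by_cases hpos : ∃ t ∈ Icc (-8 : ℝ) 8, 0 < R (t, z)
        · exact ⟨(IP_pos h (interior_subset hzK) hpos).le, (IN_pos h (interior_subset hzK) hpos).le⟩
        · push Not at hpos
          have h1 := no_meet (Ph := Ph) hpos
          exact ⟨h1.2.2.2.1.ge, h1.2.2.2.2.ge⟩
      have hσ : κ (IB R Ph z) * IA R Ph z / IB R Ph z * fh R Ph 0 z ≤ 1 / 2 := by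
        have e1 : κ (IB R Ph z) * IA R Ph z / IB R Ph z * fh R Ph 0 z =
            κ (IB R Ph z) * (fh R Ph 0 z * IA R Ph z / IB R Ph z) := by ring
        rw [e1]
        by_cases hk : κ (IB R Ph z) = 0
        · rw [hk, zero_mul]
          norm_num
        · have h2 := hsm z hzK (hκ0 _ hk)
          have h3 := (hκ01 (IB R Ph z))
          calc κ (IB R Ph z) * (fh R Ph 0 z * IA R Ph z / IB R Ph z)
              ≤ κ (IB R Ph z) * |fh R Ph 0 z * IA R Ph z / IB R Ph z| :=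
                mul_le_mul_of_nonneg_left (le_abs_self _) h3.1
            _ ≤ 1 * |fh R Ph 0 z * IA R Ph z / IB R Ph z| :=
                mul_le_mul_of_nonneg_right h3.2 (abs_nonneg _)
            _ ≤ 1 / 2 := by rw [one_mul]; exact h2
      have hk' : 0 ≤ 1 - κ (IB R Ph z) := by linarith [(hκ01 (IB R Ph z)).2]
      have hα : 0 ≤ (1 - κ (IB R Ph z)) * (Real.sqrt (IA R Ph z ^ 2 + 1) - IA R Ph z) /
          (2 * IP R Ph z) * expNegInvGlue (fh R Ph 0 z) :=
        mul_nonneg (div_nonneg (mul_nonneg hk' (d19_sqrt _).1) (by linarith [hPN.1]))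
          (expNegInvGlue.nonneg _)
      have hβ : 0 ≤ (1 - κ (IB R Ph z)) * (Real.sqrt (IA R Ph z ^ 2 + 1) + IA R Ph z) /
          (2 * IN R Ph z) * expNegInvGlue (-fh R Ph 0 z) :=
        mul_nonneg (div_nonneg (mul_nonneg hk' (d19_sqrt _).2) (by linarith [hPN.2]))
          (expNegInvGlue.nonneg _)
      linarith
  · intro z hz
    by_cases hpos : ∃ t ∈ Icc (-8 : ℝ) 8, 0 < R (t, z)
    · have hB := (IB_pos h hz hpos).ne'
      have hP := (IP_pos h hz hpos).ne'
      have hN := (IN_pos h hz hpos).ne'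
      simp only
      field_simp
      ring
    · push Not at hpos
      obtain ⟨-, h1, h2, h3, h4⟩ := no_meet (Ph := Ph) hpos
      rw [h1, h2, h3, h4]
      simp

end WR
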