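import Pool.Agent.helper79.WR.Defs

/-!
# WR, analysis part: shared definitions (architect: helper97)

Notation of the doc strings: `a_k = aa k = 2^(-k³)`, `N_k = nn k = 2^(k²)`,
`osc g m l (s, p) = ∑_k a_k N_k^(-m) 2^(lk) g(2^k s) cos(N_k p - m π/2)`, `I = [-8, 8]`,
`R(t, z)`, `Ph(t, z)` depth and phase, `f(t, z) = FF (R(t,z)) (Ph(t,z))`,
`A = ∫ f`, `B = ∫ f²`, `P = ∫ e(f) f`, `N = ∫ e(-f) (-f)` (integrals over `I`).

If `s ≤ 2^(-K)` only the layers `k ≥ K + 1` are nonzero at depth `s = 32 R`.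
-/

noncomputable section

namespace WR

open Set Filter Topology
open scoped ContDiff

/-- amplitude functions of the layers -/
structure Gd (g : ℝ → ℝ) : Prop where
  smooth : ContDiff ℝ ∞ g
  low : ∀ x, x ≤ 1 → g x = 0
  high : ∀ x, 4 ≤ x → g x = 0

variable {V : Type} [NormedAddCommGroup V] [NormedSpace ℝ V]

/-- `H` is of the size `a^d N^e` (with the loss `N^j` for derivatives of order `j`), `a = a_(K+1)`,
`N = N_(K+1)`, at the points of depth `32 R ≤ 2^(-K)` -/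
def Od (R : ℝ × V → ℝ) (Q : Set V) (d : ℕ) (e : ℤ) (H : ℝ × V → ℝ) : Prop :=
  ∀ j : ℕ, ∃ C : ℝ, 0 < C ∧ ∀ (K : ℕ) (t : ℝ) (z : V), t ∈ Icc (-8 : ℝ) 8 → z ∈ Q →
    32 * R (t, z) ≤ (1 / 2) ^ K →
    ‖iteratedFDeriv ℝ j H (t, z)‖ ≤ C * (aa (K + 1) ^ d * nn (K + 1) ^ (e + j))

/-- the same for functions on `V` and the points whose whole orbit has depth `32 R ≤ 2^(-K)` -/
def OdV (R : ℝ × V → ℝ) (Q : Set V) (d : ℕ) (e : ℤ) (h : V → ℝ) : Prop :=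
  ∀ j : ℕ, ∃ C : ℝ, 0 < C ∧ ∀ (K : ℕ) (z : V), z ∈ Q →
    (∀ t ∈ Icc (-8 : ℝ) 8, 32 * R (t, z) ≤ (1 / 2) ^ K) →
    ‖iteratedFDeriv ℝ j h z‖ ≤ C * (aa (K + 1) ^ d * nn (K + 1) ^ (e + j))

end WR
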